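import Pool.Agent.U288.SP.Cl3
import Pool.Agent.R498.MP.StrC

/-! Strings of consecutive primes with almost prime companions: the patterns of shifted primes. -/

set_option autoImplicit false

namespace Pool.Agent.U288.SP

open Finset Filter Polynomial

/-- the pattern `h` occurs in `(N, 2 N]`, at all the terms of a narrow progression of length `l`, as a string of
consecutive primes in the class `a` modulo `q` at which `f` is almost prime -/
def StrOcc {k : ℕ} (f : ℤ[X]) (q a r : ℕ) (δ : ℝ) (l B N : ℕ) (h : Fin (k + 1) → ℕ) : Prop :=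
  ∃ n d : ℕ, 1 ≤ d ∧ (d : ℝ) ≤ Real.log N ^ B ∧ ∀ j < l, N < n + j * d ∧ n + j * d + h (Fin.last k) ≤ 2 * N ∧
    (∀ y ≤ h (Fin.last k), (n + j * d + y).Prime ↔ ∃ i, y = h i) ∧
    ∀ i, n + j * d + h i ≡ a [MOD q] ∧
      Pool.Agent.R498.MP.AP r ((N : ℝ) ^ δ) (f.eval ((n + j * d + h i : ℕ) : ℤ))

lemma StrOcc.mono {k : ℕ} {f : ℤ[X]} {q a r : ℕ} {δ : ℝ} {l B B' N : ℕ} {h : Fin (k + 1) → ℕ} (hN : 3 ≤ N)
    (hB : B ≤ B') (H : StrOcc f q a r δ l B N h) : StrOcc f q a r δ l B' N h := by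
  obtain ⟨n, d, h1, h2, h3⟩ := H
  refine ⟨n, d, h1, h2.trans ?_, h3⟩
  have hNr : (3 : ℝ) ≤ N := by exact_mod_cast hN
  apply pow_le_pow_right₀ _ hB
  rw [Real.le_log_iff_exp_le (by linarith)]
  linarith [Real.exp_one_lt_d9]

open Classical in
theorem string_shifts (f : ℤ[X]) (hz : ∀ n : ℤ, n ≠ 0 → f.eval n ≠ 0)
    (hadm : ∀ p : ℕ, p.Prime → ∃ n : ℤ, ¬ (p : ℤ) ∣ n * f.eval n) (q a : ℕ) (hq : Squarefree q)
    (ha : ∀ p : ℕ, p.Prime → p ∣ q → ¬ (p : ℤ) ∣ (a : ℤ) * f.eval (a : ℤ)) (k : ℕ)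
    (σ : ℤ) (hσ : σ = 0 ∨ σ = 1 ∨ σ = -1) :
    ∃ (c c' δ : ℝ) (r : ℕ), 0 < c ∧ 0 < δ ∧ ∀ᶠ X : ℕ in atTop,
      ((shifts (fun _ _ : Fin (k + 1) => σ) X).card : ℝ) ≤
        c' * ((X : ℝ) ^ k / Real.log X ^ (edg (fun _ _ : Fin (k + 1) => σ)).card) ∧
      ∀ l : ℕ, ∃ B : ℕ, ∀ᶠ N : ℕ in atTop,
        c * ((X : ℝ) ^ k / Real.log X ^ (edg (fun _ _ : Fin (k + 1) => σ)).card) ≤
          (((shifts (fun _ _ : Fin (k + 1) => σ) X).filter (fun h => StrOcc f q a r δ l B N h)).card : ℝ) := by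
  obtain ⟨K0, r, δ, hδ, hmain⟩ := Pool.Agent.R498.MP.stringsCR f hz hadm q a hq ha (k + 1)
  obtain ⟨K, hKdef⟩ : ∃ K, K = max K0 (k + 1) := ⟨_, rfl⟩
  have hK0K : K0 ≤ K := by rw [hKdef]; exact le_max_left _ _
  obtain ⟨c, hc, h1⟩ := principle k K (by rw [hKdef]; exact le_max_right _ _) σ hσ
  obtain ⟨c', -, h2⟩ := shifts_upper Pool.Agent.Y949.DK.t_SV Pool.Agent.Y185.DK.AV.t_AVG k
    (fun _ _ : Fin (k + 1) => σ)
  choose B hB using hmain
  refine ⟨c, c', δ, r, hc, hδ, ?_⟩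
  filter_upwards [h1, h2] with X hX1 hX2
  refine ⟨hX2, fun l => ?_⟩
  obtain ⟨BM, hBM⟩ : ∃ BM, BM = ((range (X + 1)).powerset).sup (fun S => if h : K0 ≤ S.card then B S h l else 0) :=
    ⟨_, rfl⟩
  refine ⟨BM, ?_⟩
  have h3 : ∀ᶠ N : ℕ in atTop, ∀ S ∈ (range (X + 1)).powerset, S.card = K →
      ∃ z : Fin (k + 1) → ℕ, StrictMono z ∧ (∀ i, z i ∈ S) ∧ StrOcc f q a r δ l BM N (fun i => z i - z 0) := by
    rw [Filter.eventually_all_finset]
    intro S hS
    by_cases hSc : S.card = K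
    swap
    · exact Eventually.of_forall fun N h => absurd h hSc
    have hSK : K0 ≤ S.card := by rw [hSc]; exact hK0K
    filter_upwards [hB S hSK l, eventually_ge_atTop 3] with N hN hN3 _
    obtain ⟨H, hHS, hHm, n, d, hd1, hd2, hj⟩ := hN
    have hcard : k + 1 ≤ H.card := hHm
    obtain ⟨g, hg⟩ : ∃ g : Fin H.card ↪o ℕ, g = H.orderEmbOfFin rfl := ⟨_, rfl⟩
    have hgmem : ∀ i, g i ∈ H := fun i => by rw [hg]; exact H.orderEmbOfFin_mem rfl i
    have hgsur : ∀ y ∈ H, ∃ i, g i = y := by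
      intro y hy
      have : y ∈ Set.range (H.orderEmbOfFin rfl) := by
        rw [Finset.range_orderEmbOfFin]
        exact hy
      rw [hg]
      exact this
    obtain ⟨z, hz'⟩ : ∃ z : Fin (k + 1) → ℕ, z = fun i => g (Fin.castLE hcard i) := ⟨_, rfl⟩
    have hzm : StrictMono z := by
      rw [hz']
      exact g.strictMono.comp (Fin.strictMono_castLE hcard)
    have hz0 : ∀ i, z 0 ≤ z i := fun i => hzm.monotone (Fin.zero_le i)
    have hzH : ∀ i, z i ∈ H := fun i => by rw [hz']; exact hgmem _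
    refine ⟨z, hzm, fun i => hHS (hzH i), ?_⟩
    have hsup : ∀ i, z i ≤ S.sup id := fun i => Finset.le_sup (f := id) (hHS (hzH i))
    have h5 : StrOcc f q a r δ l (B S hSK l) N (fun i => z i - z 0) := by
      refine ⟨n + z 0, d, hd1, hd2, fun j hjl => ?_⟩
      obtain ⟨e1, e2, e3, e4⟩ := hj j hjl
      have hs := hsup (Fin.last k)
      have h0 := hz0 (Fin.last k)
      refine ⟨by omega, ?_, fun y hy => ?_, fun i => ?_⟩
      · dsimp only
        omega
      · dsimp only at hy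
        have e5 : n + z 0 + j * d + y = n + j * d + (z 0 + y) := by ring
        rw [e5, e3 (z 0 + y) (by omega)]
        constructor
        · intro hyH
          obtain ⟨i, hi⟩ := hgsur _ hyH
          have h6 : g i ≤ g (Fin.castLE hcard (Fin.last k)) := by
            have h7 : z (Fin.last k) = g (Fin.castLE hcard (Fin.last k)) := by rw [hz']
            rw [hi, ← h7]
            omega
          have h8 : i ≤ Fin.castLE hcard (Fin.last k) := g.le_iff_le.1 h6
          have h9 : (i : ℕ) < k + 1 := by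
            rw [Fin.le_def] at h8
            simp only [Fin.val_castLE, Fin.val_last] at h8
            omega
          refine ⟨⟨i, h9⟩, ?_⟩
          have h10 : z ⟨i, h9⟩ = g i := by
            rw [hz']
            rfl
          dsimp only
          rw [h10, hi]
          omega
        · rintro ⟨i, rfl⟩
          have h6 := hz0 i
          have h7 : z 0 + (z i - z 0) = z i := by omega
          rw [h7]
          exact hzH i
      · have h6 := hz0 i
        have e5 : n + z 0 + j * d + (z i - z 0) = n + j * d + z i := by omega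
        dsimp only
        rw [e5]
        exact e4 _ (hzH i)
    refine h5.mono hN3 ?_
    have h6 := Finset.le_sup (f := fun S => if h : K0 ≤ S.card then B S h l else 0) hS
    rw [← hBM] at h6
    simpa only [dif_pos hSK] using h6
  filter_upwards [h3] with N hN
  exact hX1 (fun h => StrOcc f q a r δ l BM N h) (fun S hS hSc => hN S (mem_powerset.2 hS) hSc)

end Pool.Agent.U288.SP
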