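import Mathlib

/-! The lower bound for the number of configurations of an increasing graph system. -/

set_option autoImplicit false

namespace Pool.Agent.U288.SP

open Finset Filter

/-- the lower bound for almost all systems of constants -/
def P_EXT : Prop := ∀ (Q m B U : ℕ), 1 ≤ Q → 1 ≤ B → (∀ p : ℕ, p.Prime → p ≤ m → p ∣ Q) →
  ∃ c : ℝ, 0 < c ∧ ∀ᶠ x : ℕ in atTop, ∀ A : ℕ, A ≤ B * x → x ≤ B * A →
    ∃ S : Finset (Fin m → ℕ), (S.card : ℝ) ≤ (A : ℝ) ^ m / Real.log x ^ U ∧
      ∀ a : Fin m → ℕ, (∀ i, 1 ≤ a i ∧ a i ≤ A) → (∀ i, ∀ p : ℕ, p.Prime → p ∣ Q → ¬ p ∣ a i) → a ∉ S →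
        c * (x / Real.log x ^ m) ≤ (((Icc 1 x).filter (fun n : ℕ => ∀ i, (a i + Q * n).Prime)).card : ℝ)

/-- few exceptional configurations -/
lemma few {t m : ℕ} (N : Finset (Fin t)) (e : Fin m ≃ N) (x : ℕ) (a : (Fin t → ℕ) → Fin m → ℕ)
    (hinj : ∀ n ∈ Fintype.piFinset (fun _ : Fin t => Icc 1 x), ∀ n' ∈ Fintype.piFinset (fun _ : Fin t => Icc 1 x),
      a n = a n' → ∀ j, n (e j) = n' (e j)) (S : Finset (Fin m → ℕ)) :
    (x : ℝ) ^ m * (((Fintype.piFinset (fun _ : Fin t => Icc 1 x)).filter (fun n => a n ∈ S)).card : ℝ) ≤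
      S.card * (x : ℝ) ^ t := by
  classical
  have hm : m = N.card := by
    have := Fintype.card_congr e
    simpa using this
  have hmt : m ≤ t := by
    rw [hm]
    exact (card_le_univ N).trans (by simp)
  have h1 : ((Fintype.piFinset (fun _ : Fin t => Icc 1 x)).filter (fun n => a n ∈ S)).card ≤
      (S ×ˢ (Fintype.piFinset (fun _ : {i : Fin t // i ∉ N} => Icc 1 x))).card := by
    apply card_le_card_of_injOn (fun n => (a n, fun i : {i : Fin t // i ∉ N} => n i))
    · intro n hn
      rw [mem_coe, mem_filter] at hn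
      rw [mem_coe, mem_product]
      refine ⟨hn.2, ?_⟩
      rw [Fintype.mem_piFinset]
      intro i
      exact Fintype.mem_piFinset.1 hn.1 i
    · intro n hn n' hn' heq
      rw [mem_coe, mem_filter] at hn hn'
      simp only [Prod.mk.injEq] at heq
      have h2 := hinj n hn.1 n' hn'.1 heq.1
      funext i
      by_cases hi : i ∈ N
      · have h3 := h2 (e.symm ⟨i, hi⟩)
        simpa using h3
      · exact congrFun heq.2 ⟨i, hi⟩
  rw [card_product, Fintype.card_piFinset] at h1
  simp only [Nat.card_Icc, Nat.add_sub_cancel, prod_const] at h1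
  have h2 : (univ : Finset {i : Fin t // i ∉ N}).card = t - m := by
    rw [card_univ, Fintype.card_subtype_compl (fun i => i ∈ N), Fintype.card_fin]
    congr 1
    rw [hm]
    simp
  rw [h2] at h1
  have h3 : (((Fintype.piFinset (fun _ : Fin t => Icc 1 x)).filter (fun n => a n ∈ S)).card : ℝ) ≤
      S.card * (x : ℝ) ^ (t - m) := by exact_mod_cast h1
  calc _ ≤ (x : ℝ) ^ m * (S.card * (x : ℝ) ^ (t - m)) := mul_le_mul_of_nonneg_left h3 (by positivity)
    _ = S.card * ((x : ℝ) ^ m * (x : ℝ) ^ (t - m)) := by ring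
    _ = _ := by rw [← pow_add, Nat.add_sub_cancel' hmt]

/-- the coordinates of the points -/
def pt (Q x i n : ℕ) : ℕ := Q * (2 * i * x + n)

/-- the earlier neighbours of the vertex `j` -/
def nb (s : ℕ → ℕ → ℤ) (j : ℕ) : Finset (Fin j) := univ.filter (fun i : Fin j => s i j ≠ 0)

/-- the number of edges of the first `t` vertices -/
def ed (s : ℕ → ℕ → ℤ) (t : ℕ) : ℕ := ∑ j ∈ range t, (nb s j).card

open Classical in
/-- the configurations on the first `t` vertices -/
noncomputable def conf (s : ℕ → ℕ → ℤ) (Q t x : ℕ) : Finset (Fin t → ℕ) :=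
  (Fintype.piFinset (fun _ : Fin t => Icc 1 x)).filter (fun n =>
    ∀ i j : Fin t, i < j → s i j ≠ 0 → ((pt Q x j (n j) : ℤ) - pt Q x i (n i) + s i j).toNat.Prime)

open Classical in
/-- the extensions of a configuration -/
noncomputable def ext (s : ℕ → ℕ → ℤ) (Q t x : ℕ) (n : Fin t → ℕ) : Finset ℕ :=
  (Icc 1 x).filter (fun k => ∀ i : Fin t, s i t ≠ 0 → ((pt Q x t k : ℤ) - pt Q x i (n i) + s i t).toNat.Prime)

lemma conf_succ (s : ℕ → ℕ → ℤ) (Q t x : ℕ) :
    ∑ n ∈ conf s Q t x, (ext s Q t x n).card ≤ (conf s Q (t + 1) x).card := by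
  classical
  rw [← card_sigma]
  apply card_le_card_of_injOn (fun q : (_ : Fin t → ℕ) × ℕ => (Fin.snoc q.1 q.2 : Fin (t + 1) → ℕ))
  · rintro ⟨n, k⟩ hq
    rw [mem_coe, mem_sigma] at hq
    obtain ⟨hn, hk⟩ := hq
    simp only [conf, ext, mem_filter, Fintype.mem_piFinset] at hn hk
    rw [mem_coe]
    simp only [conf, mem_filter, Fintype.mem_piFinset]
    refine ⟨fun i => ?_, fun i j => ?_⟩
    · refine Fin.lastCases ?_ (fun i => ?_) i
      · rw [Fin.snoc_last]; exact hk.1
      · rw [Fin.snoc_castSucc]; exact hn.1 i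
    · refine Fin.lastCases ?_ (fun j => ?_) j
      · refine Fin.lastCases ?_ (fun i => ?_) i
        · intro h; exact absurd h (lt_irrefl _)
        · intro _ h
          rw [Fin.snoc_last, Fin.snoc_castSucc]
          simp only [Fin.val_castSucc, Fin.val_last] at h ⊢
          exact hk.2 i h
      · refine Fin.lastCases ?_ (fun i => ?_) i
        · intro h
          exact absurd h (not_lt.2 (Fin.le_last _))
        · intro hij h
          rw [Fin.snoc_castSucc, Fin.snoc_castSucc]
          simp only [Fin.val_castSucc] at h ⊢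
          exact hn.2 i j (by simpa using hij) h
  · rintro ⟨n, k⟩ _ ⟨n', k'⟩ _ h
    simp only at h
    have h1 : n = n' := by
      funext i
      have := congrFun h i.castSucc
      simpa using this
    have h2 : k = k' := by
      have := congrFun h (Fin.last t)
      simpa using this
    rw [h1, h2]

/-- **Lower bound.** -/
theorem lower (hE : P_EXT) (s : ℕ → ℕ → ℤ) (hs : ∀ i j, s i j = 0 ∨ s i j = 1 ∨ s i j = -1) (D : ℕ) (Q : ℕ) (hQ : 1 ≤ Q)
    (hQ2 : ∀ p : ℕ, p.Prime → p ≤ D → p ∣ Q) : ∀ t : ℕ, t ≤ D →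
    ∃ c : ℝ, 0 < c ∧ ∀ᶠ x : ℕ in atTop, c * ((x : ℝ) ^ t / Real.log x ^ ed s t) ≤ ((conf s Q t x).card : ℝ) := by
  classical
  intro t
  induction t with
  | zero =>
    intro _
    refine ⟨1, one_pos, Eventually.of_forall fun x => ?_⟩
    have h1 : (conf s Q 0 x).card = 1 := by
      unfold conf
      rw [filter_true_of_mem]
      · rw [Fintype.card_piFinset]; simp
      · intro n _ i; exact i.elim0
    rw [h1]
    simp [ed]
  | succ t ih =>
    intro htD
    obtain ⟨c, hc, h1⟩ := ih (by omega)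
    set m := (nb s t).card with hm
    have hmt : m ≤ t := (card_le_univ _).trans (by simp)
    set B : ℕ := 4 * Q * (t + 1) with hB
    have hB1 : 1 ≤ B := by rw [hB]; nlinarith [Nat.zero_le (Q * t)]
    obtain ⟨c', hc', h2⟩ := hE Q m B (ed s t + 1) hQ hB1 (fun p hp hpm => hQ2 p hp (by omega))
    refine ⟨c * c' / 2, by positivity, ?_⟩
    have h3 : ∀ᶠ x : ℕ in atTop, (B : ℝ) ^ m * 2 / c ≤ Real.log x :=
      (Real.tendsto_log_atTop.comp (tendsto_natCast_atTop_atTop (R := ℝ))).eventually_ge_atTop _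
    filter_upwards [h1, h2, h3, eventually_ge_atTop 3] with x hx1 hx2 hx3 hx4
    have hxr : (3 : ℝ) ≤ x := by exact_mod_cast hx4
    have hx0 : (0 : ℝ) < x := by linarith
    have hlog : 0 < Real.log x := Real.log_pos (by linarith)
    obtain ⟨S, hS, hgood⟩ := hx2 (B * x) le_rfl (by
      calc x = 1 * x := (one_mul x).symm
        _ ≤ B * (B * x) := Nat.mul_le_mul hB1 (by nlinarith))
    -- the constants
    set e : Fin m ≃ nb s t := ((nb s t).equivFin).symm with he
    set az : (Fin t → ℕ) → Fin m → ℤ := fun n j => (pt Q x t 0 : ℤ) - pt Q x (e j : Fin t) (n (e j)) + s (e j : Fin t) t with haz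
    set a : (Fin t → ℕ) → Fin m → ℕ := fun n j => (az n j).toNat with ha
    have hazform : ∀ n j, az n j = Q * (2 * (t : ℤ) * x - 2 * ((e j : Fin t) : ℕ) * x - n (e j)) + s (e j : Fin t) t := by
      intro n j
      simp only [haz, pt]
      push_cast
      ring
    have hsabs : ∀ i j, -1 ≤ s i j ∧ s i j ≤ 1 := by
      intro i j
      rcases hs i j with h | h | h <;> rw [h] <;> norm_num
    have hbig : ∀ n ∈ Fintype.piFinset (fun _ : Fin t => Icc 1 x), ∀ j, 1 ≤ az n j ∧ az n j ≤ B * x := by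
      intro n hn j
      rw [hazform]
      have h4 := mem_Icc.1 (Fintype.mem_piFinset.1 hn (e j))
      have h5 : ((e j : Fin t) : ℕ) + 1 ≤ t := (e j : Fin t).2
      have h6 := hsabs (e j : Fin t) t
      have hQz : (1 : ℤ) ≤ Q := by exact_mod_cast hQ
      have hxz : (3 : ℤ) ≤ x := by exact_mod_cast hx4
      have h7 : (1 : ℤ) ≤ n (e j) := by exact_mod_cast h4.1
      have h8 : (n (e j) : ℤ) ≤ x := by exact_mod_cast h4.2
      have h9 : (((e j : Fin t) : ℕ) : ℤ) + 1 ≤ t := by exact_mod_cast h5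
      have h10 : (0 : ℤ) ≤ (((e j : Fin t) : ℕ) : ℤ) := by positivity
      have h11 : (x : ℤ) ≤ 2 * (t : ℤ) * x - 2 * ((e j : Fin t) : ℕ) * x - n (e j) := by nlinarith
      have h12 : 2 * (t : ℤ) * x - 2 * ((e j : Fin t) : ℕ) * x - n (e j) ≤ 2 * t * x := by nlinarith
      constructor
      · have : (1 : ℤ) * 3 ≤ Q * (2 * (t : ℤ) * x - 2 * ((e j : Fin t) : ℕ) * x - n (e j)) :=
          mul_le_mul hQz (by linarith) (by norm_num) (by linarith)
        linarith
      · have h13 : (Q : ℤ) * (2 * (t : ℤ) * x - 2 * ((e j : Fin t) : ℕ) * x - n (e j)) ≤ Q * (2 * t * x) :=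
          mul_le_mul_of_nonneg_left h12 (by linarith)
        rw [hB]
        push_cast
        have h14 : (0 : ℤ) ≤ (Q : ℤ) * t * x := by positivity
        have h15 : (1 : ℤ) ≤ Q * x := by nlinarith
        nlinarith
    have haz' : ∀ n ∈ Fintype.piFinset (fun _ : Fin t => Icc 1 x), ∀ j, ((a n j : ℕ) : ℤ) = az n j := fun n hn j =>
      Int.toNat_of_nonneg (by have := (hbig n hn j).1; omega)
    have hainj : ∀ n ∈ Fintype.piFinset (fun _ : Fin t => Icc 1 x), ∀ n' ∈ Fintype.piFinset (fun _ : Fin t => Icc 1 x),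
        a n = a n' → ∀ j, n (e j) = n' (e j) := by
      intro n hn n' hn' heq j
      have h4 : az n j = az n' j := by rw [← haz' n hn, ← haz' n' hn', heq]
      rw [hazform, hazform] at h4
      have hQz : (Q : ℤ) ≠ 0 := by exact_mod_cast (by omega : Q ≠ 0)
      have h5 : (Q : ℤ) * n (e j) = Q * n' (e j) := by linarith
      have h6 := mul_left_cancel₀ hQz h5
      exact_mod_cast h6
    have hfew := few (nb s t) e x a hainj S
    -- the extensions
    have hext : ∀ n ∈ conf s Q t x, a n ∉ S → c' * (x / Real.log x ^ m) ≤ ((ext s Q t x n).card : ℝ) := by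
      intro n hn hnS
      have hnb : n ∈ Fintype.piFinset (fun _ : Fin t => Icc 1 x) := (mem_filter.1 hn).1
      have h4 := hgood (a n) (fun j => ?_) (fun j p hp hpQ hdvd => ?_) hnS
      · refine h4.trans ?_
        rw [Nat.cast_le]
        apply card_le_card
        intro k hk
        rw [mem_filter] at hk
        unfold ext
        rw [mem_filter]
        refine ⟨hk.1, fun i hi => ?_⟩
        have hmem : i ∈ nb s t := by unfold nb; rw [mem_filter]; exact ⟨mem_univ _, hi⟩
        have h5 := hk.2 (e.symm ⟨i, hmem⟩)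
        have h6 : ((a n (e.symm ⟨i, hmem⟩) + Q * k : ℕ) : ℤ) = (pt Q x t k : ℤ) - pt Q x i (n i) + s i t := by
          push_cast
          rw [haz' n hnb]
          simp only [haz, Equiv.apply_symm_apply, pt]
          push_cast
          ring
        rw [← h6, Int.toNat_natCast]
        exact h5
      · have h5 := hbig n hnb j
        rw [← haz' n hnb] at h5
        exact ⟨by exact_mod_cast h5.1, by exact_mod_cast h5.2⟩
      · have h5 : (p : ℤ) ∣ az n j := by rw [← haz' n hnb]; exact_mod_cast hdvd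
        rw [hazform] at h5
        have h6 : (p : ℤ) ∣ (Q : ℤ) := by exact_mod_cast hpQ
        have h7 := (dvd_add_right (Dvd.dvd.mul_right h6 _)).1 h5
        have hne : s (e j : Fin t) t ≠ 0 := by
          have := (e j).2
          unfold nb at this
          exact (mem_filter.1 this).2
        have hp2 : (2 : ℤ) ≤ p := by exact_mod_cast hp.two_le
        rcases hs (e j : Fin t) t with h | h | h
        · exact hne h
        · rw [h] at h7
          have := Int.le_of_dvd one_pos h7
          omega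
        · rw [h, dvd_neg] at h7
          have := Int.le_of_dvd one_pos h7
          omega
    -- counting
    have h5 : ((conf s Q t x).card : ℝ) ≤ (((conf s Q t x).filter (fun n => a n ∉ S)).card : ℝ) +
        (((Fintype.piFinset (fun _ : Fin t => Icc 1 x)).filter (fun n => a n ∈ S)).card : ℝ) := by
      have h6 : (conf s Q t x) ⊆ ((conf s Q t x).filter (fun n => a n ∉ S)) ∪
          ((Fintype.piFinset (fun _ : Fin t => Icc 1 x)).filter (fun n => a n ∈ S)) := by
        intro n hn
        rw [mem_union, mem_filter, mem_filter]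
        by_cases h : a n ∈ S
        · exact Or.inr ⟨(mem_filter.1 hn).1, h⟩
        · exact Or.inl ⟨hn, h⟩
      exact_mod_cast (card_le_card h6).trans (card_union_le _ _)
    have h6 : (((Fintype.piFinset (fun _ : Fin t => Icc 1 x)).filter (fun n => a n ∈ S)).card : ℝ) ≤
        (B : ℝ) ^ m * ((x : ℝ) ^ t / Real.log x ^ (ed s t + 1)) := by
      have hxm : (0 : ℝ) < (x : ℝ) ^ m := by positivity
      have h7 : (S.card : ℝ) * (x : ℝ) ^ t ≤ (x : ℝ) ^ m * ((B : ℝ) ^ m * ((x : ℝ) ^ t / Real.log x ^ (ed s t + 1))) := by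
        calc (S.card : ℝ) * (x : ℝ) ^ t ≤ (((B * x : ℕ) : ℝ) ^ m / Real.log x ^ (ed s t + 1)) * (x : ℝ) ^ t :=
              mul_le_mul_of_nonneg_right hS (by positivity)
          _ = _ := by push_cast; rw [mul_pow]; ring
      exact le_of_mul_le_mul_left (hfew.trans h7) hxm
    have h7 : (B : ℝ) ^ m * ((x : ℝ) ^ t / Real.log x ^ (ed s t + 1)) ≤ c / 2 * ((x : ℝ) ^ t / Real.log x ^ ed s t) := by
      have h8 : (B : ℝ) ^ m ≤ c / 2 * Real.log x := by
        rw [div_le_iff₀ hc] at hx3
        linarith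
      calc (B : ℝ) ^ m * ((x : ℝ) ^ t / Real.log x ^ (ed s t + 1)) ≤
          (c / 2 * Real.log x) * ((x : ℝ) ^ t / Real.log x ^ (ed s t + 1)) :=
            mul_le_mul_of_nonneg_right h8 (by positivity)
        _ = _ := by rw [pow_succ]; field_simp
    have h8 : c / 2 * ((x : ℝ) ^ t / Real.log x ^ ed s t) ≤ (((conf s Q t x).filter (fun n => a n ∉ S)).card : ℝ) := by
      linarith
    have h9 : (((conf s Q t x).filter (fun n => a n ∉ S)).card : ℝ) * (c' * (x / Real.log x ^ m)) ≤
        ((conf s Q (t + 1) x).card : ℝ) := by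
      have h10 : ∑ n ∈ conf s Q t x, ((ext s Q t x n).card : ℝ) ≤ ((conf s Q (t + 1) x).card : ℝ) := by
        exact_mod_cast conf_succ s Q t x
      refine le_trans ?_ h10
      calc (((conf s Q t x).filter (fun n => a n ∉ S)).card : ℝ) * (c' * (x / Real.log x ^ m)) =
          ∑ _n ∈ (conf s Q t x).filter (fun n => a n ∉ S), c' * (x / Real.log x ^ m) := by
            rw [sum_const, nsmul_eq_mul]
        _ ≤ ∑ n ∈ (conf s Q t x).filter (fun n => a n ∉ S), ((ext s Q t x n).card : ℝ) := by
            apply sum_le_sum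
            intro n hn
            rw [mem_filter] at hn
            exact hext n hn.1 hn.2
        _ ≤ _ := sum_le_sum_of_subset_of_nonneg (filter_subset _ _) (fun _ _ _ => Nat.cast_nonneg _)
    have h10 : ed s (t + 1) = ed s t + m := by
      unfold ed
      rw [sum_range_succ]
    rw [h10]
    calc c * c' / 2 * ((x : ℝ) ^ (t + 1) / Real.log x ^ (ed s t + m)) =
        (c / 2 * ((x : ℝ) ^ t / Real.log x ^ ed s t)) * (c' * (x / Real.log x ^ m)) := by
          rw [pow_succ, pow_add]; field_simp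
      _ ≤ (((conf s Q t x).filter (fun n => a n ∉ S)).card : ℝ) * (c' * (x / Real.log x ^ m)) :=
          mul_le_mul_of_nonneg_right h8 (by positivity)
      _ ≤ _ := h9

end Pool.Agent.U288.SP
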