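import Pool.Agent.H373R2.T7.Sys8
import Pool.Agent.U288.SP.LB2

/-! The lower bound for almost all systems of constants, from the theorem on signed systems. -/

set_option autoImplicit false

namespace Pool.Agent.U288.SP

open Finset Filter Polynomial Pool.Agent.H373R2.T7

lemma nuB_bounds (Q m : ℕ) (hQ : 1 ≤ Q) (hprim : ∀ p : ℕ, p.Prime → p ≤ m → p ∣ Q) (a : Fin m → ℕ)
    (ha : ∀ i, ∀ p : ℕ, p.Prime → p ∣ Q → ¬ p ∣ a i) (p : ℕ) (hp : p.Prime) :
    nuB (sysQ (fun _ : Fin m => C (Q : ℤ) * X) (fun _ => 1) a) p ≤ m ∧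
      nuB (sysQ (fun _ : Fin m => C (Q : ℤ) * X) (fun _ => 1) a) p + 1 ≤ p := by
  classical
  have hvl : ∀ i r, vl (fun _ : Fin m => C (Q : ℤ) * X) (fun _ => 1) a i r = (a i : ℤ) + Q * r := by
    intro i r
    unfold vl
    simp
  by_cases hpQ : p ∣ Q
  · have h0 : nuB (sysQ (fun _ : Fin m => C (Q : ℤ) * X) (fun _ => 1) a) p = 0 := by
      unfold nuB
      rw [card_eq_zero, filter_eq_empty_iff]
      rintro r _ ⟨i, hi⟩
      rw [hvl] at hi
      have h1 : (p : ℤ) ∣ (Q : ℤ) * r := Dvd.dvd.mul_right (by exact_mod_cast hpQ) _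
      have h2 := (dvd_add_left h1).1 hi
      exact ha i p hp hpQ (by exact_mod_cast h2)
    rw [h0]
    exact ⟨Nat.zero_le _, hp.one_le⟩
  · have hpm : m < p := by
      by_contra h
      exact hpQ (hprim p hp (not_lt.1 h))
    have h1 : nuB (sysQ (fun _ : Fin m => C (Q : ℤ) * X) (fun _ => 1) a) p ≤ m := by
      unfold nuB
      have h2 : (range p).filter (fun r => sysQ (fun _ : Fin m => C (Q : ℤ) * X) (fun _ => 1) a p r) ⊆
          (univ : Finset (Fin m)).biUnion (fun i => (range p).filter (fun r : ℕ => (p : ℤ) ∣ (a i : ℤ) + Q * r)) := by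
        intro r hr
        rw [mem_filter] at hr
        obtain ⟨i, hi⟩ := hr.2
        rw [hvl] at hi
        rw [mem_biUnion]
        exact ⟨i, mem_univ _, mem_filter.2 ⟨hr.1, hi⟩⟩
      refine (card_le_card h2).trans (card_biUnion_le.trans ?_)
      calc ∑ i : Fin m, ((range p).filter (fun r : ℕ => (p : ℤ) ∣ (a i : ℤ) + Q * r)).card ≤ ∑ _i : Fin m, 1 := by
            apply sum_le_sum
            intro i _
            rw [card_le_one]
            intro r hr r' hr'
            rw [mem_filter, mem_range] at hr hr'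
            have h3 : (p : ℤ) ∣ (Q : ℤ) * ((r : ℤ) - r') := by
              have := dvd_sub hr.2 hr'.2
              have e : ((a i : ℤ) + Q * r) - ((a i : ℤ) + Q * r') = (Q : ℤ) * ((r : ℤ) - r') := by ring
              rwa [e] at this
            have h4 : (p : ℤ) ∣ ((r : ℤ) - r') := by
              rcases (Nat.prime_iff_prime_int.1 hp).dvd_or_dvd h3 with h | h
              · exact absurd (by exact_mod_cast h) hpQ
              · exact h
            have h5 : (r : ℤ) - r' = 0 := by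
              apply Int.eq_zero_of_abs_lt_dvd h4
              rw [abs_lt]
              constructor <;> omega
            omega
        _ = m := by simp
    exact ⟨h1, by omega⟩

theorem ext_main : P_EXT := by
  classical
  intro Q m B U hQ hB hprim
  rcases Nat.eq_zero_or_pos m with hm | hm
  · subst hm
    refine ⟨1, one_pos, ?_⟩
    filter_upwards [eventually_ge_atTop 3] with x hx3 A _ _
    have hxr : (3 : ℝ) ≤ x := by exact_mod_cast hx3
    have hlog : 0 < Real.log x := Real.log_pos (by linarith)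
    refine ⟨∅, by simp only [card_empty, Nat.cast_zero]; positivity, fun a _ _ _ => ?_⟩
    have h1 : (Icc 1 x).filter (fun n : ℕ => ∀ i : Fin 0, (a i + Q * n).Prime) = Icc 1 x := by
      apply filter_true_of_mem
      intro n _ i
      exact i.elim0
    rw [h1, Nat.card_Icc, Nat.add_sub_cancel]
    simp
  set F : Fin m → ℤ[X] := fun _ => C (Q : ℤ) * X with hF
  have hQz : (Q : ℤ) ≠ 0 := by exact_mod_cast (by omega : Q ≠ 0)
  have hdeg : ∀ i, (F i).natDegree = 1 := fun i => natDegree_C_mul_X _ hQz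
  have hlead : ∀ i, 0 < (F i).leadingCoeff := by
    intro i
    rw [hF]
    simp only [leadingCoeff_C_mul_X]
    exact_mod_cast hQ
  obtain ⟨B0, hB0⟩ := sys_unweighted F (fun i => (hdeg i).ge) hlead (fun _ => 1) (fun _ => Or.inl rfl) B hB U 0
    (1 / 2) (by norm_num) (by norm_num)
  obtain ⟨N0, hN0⟩ := hB0 (B0 + 1)
  set c0 : ℝ := (1 / (3 * m : ℝ)) ^ (3 * m) * Real.exp (-(2 * (m : ℝ) ^ 2)) with hc0
  have hm0 : (0 : ℝ) < m := by exact_mod_cast hm
  have hc0p : 0 < c0 := by positivity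
  refine ⟨c0 / 2, by positivity, ?_⟩
  have h3 : ∀ᶠ x : ℕ in atTop, (2 : ℝ) ≤ Real.log x :=
    (Real.tendsto_log_atTop.comp (tendsto_natCast_atTop_atTop (R := ℝ))).eventually_ge_atTop _
  filter_upwards [eventually_ge_atTop N0, h3, eventually_ge_atTop 3] with x hx1 hx2 hx3 A hA1 hA2
  have hxr : (3 : ℝ) ≤ x := by exact_mod_cast hx3
  have hx0 : (0 : ℝ) < x := by linarith
  set L := Real.log x with hL
  have hL0 : 0 < L := by linarith
  set z := ⌈L ^ B0⌉₊ with hz
  have hz1 : L ^ B0 ≤ z := Nat.le_ceil _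
  have hLB : 1 ≤ L ^ B0 := one_le_pow₀ (by linarith)
  have hz2 : (z : ℝ) ≤ L ^ (B0 + 1) := by
    have h4 : (z : ℝ) < L ^ B0 + 1 := Nat.ceil_lt_add_one (by positivity)
    rw [pow_succ]
    nlinarith
  obtain ⟨S, hS, hgood⟩ := hN0 x hx1 (fun _ => A) (fun i => by rw [hdeg i, pow_one]; exact ⟨hA1, hA2⟩) z hz1 hz2
  refine ⟨S, ?_, fun a ha1 ha2 haS => ?_⟩
  · rw [prod_const, card_univ, Fintype.card_fin] at hS
    exact hS
  have hvl : ∀ i r, vl F (fun _ => 1) a i r = ((a i + Q * r : ℕ) : ℤ) := by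
    intro i r
    unfold vl
    rw [hF]
    simp
  have hpos : posCount F (fun _ => 1) a x = x := by
    unfold posCount
    rw [filter_true_of_mem, Nat.card_Icc, Nat.add_sub_cancel]
    intro n _ i
    rw [hvl]
    have := (ha1 i).1
    have : 1 ≤ a i + Q * n := le_trans this (Nat.le_add_right _ _)
    exact_mod_cast this
  obtain ⟨-, h5⟩ := hgood a (Fintype.mem_piFinset.2 fun i => mem_Icc.2 (ha1 i)) haS x (by rw [hpos]; simp) le_rfl
  set W : ℝ := ((Vz z)⁻¹) ^ m * (∏ p ∈ pz z, (1 - (nuB (sysQ F (fun _ => 1) a) p : ℝ) / p)) with hW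
  have hWlow : c0 ≤ W := by
    have h6 := local_low m hm (nuB (sysQ F (fun _ => 1) a)) z
      (fun p hp => (nuB_bounds Q m hQ hprim a ha2 p (mem_pz.1 hp).2).1)
      (fun p hp => (nuB_bounds Q m hQ hprim a ha2 p (mem_pz.1 hp).2).2)
    rw [prod_div_distrib, prod_pow] at h6
    have e : ∏ p ∈ pz z, (1 - 1 / (p : ℝ)) = Vz z := rfl
    rw [e] at h6
    refine h6.trans (le_of_eq ?_)
    rw [hW, inv_pow, div_eq_mul_inv, mul_comm]
  have hWne : W ≠ 0 := (lt_of_lt_of_le hc0p hWlow).ne'
  have h6 := h5 hWne (by linarith)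
  have hprod : ∏ i, ((F i).natDegree : ℝ) = 1 := by
    apply prod_eq_one
    intro i _
    rw [hdeg i, Nat.cast_one]
  rw [hprod, one_mul] at h6
  have h7 := neg_abs_le ((prCount F (fun _ => 1) a x : ℝ) - W * x / L ^ m)
  have h8 : c0 * (x / L ^ m) ≤ W * x / L ^ m := by
    rw [mul_div_assoc]
    exact mul_le_mul_of_nonneg_right hWlow (by positivity)
  have h9 : c0 / 2 * (x / L ^ m) ≤ (prCount F (fun _ => 1) a x : ℝ) := by linarith
  refine h9.trans (le_of_eq ?_)
  unfold prCount
  congr 2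
  apply filter_congr
  intro n _
  constructor
  · intro h i
    have := h i
    rw [hvl, Int.toNat_natCast] at this
    exact this
  · intro h i
    rw [hvl, Int.toNat_natCast]
    exact h i

end Pool.Agent.U288.SP
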