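import Pool.Agent.U288.SP.Asm2

/-! From points to vectors of shifts. -/

set_option autoImplicit false

namespace Pool.Agent.U288.SP

open Finset Filter Pool.Agent.Y851.DK

open Classical in
/-- the vectors `0 = h 0 < h 1 < ... < h k ≤ X` such that `h j - h i + s i j` is prime for all edges `i < j` -/
noncomputable def shifts {k : ℕ} (s : Fin (k + 1) → Fin (k + 1) → ℤ) (X : ℕ) : Finset (Fin (k + 1) → ℕ) :=
  (Fintype.piFinset (fun _ : Fin (k + 1) => range (X + 1))).filter (fun h => h 0 = 0 ∧ StrictMono h ∧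
    ∀ i j, i < j → s i j ≠ 0 → ((h j : ℤ) - h i + s i j).toNat.Prime)

open Classical in
theorem shifts_lower (hSV : P_SV) (hAVG : P_AVG) (hE : P_EXT) (k : ℕ) (s : Fin (k + 1) → Fin (k + 1) → ℤ)
    (D : ℕ) (sD : ℕ → ℕ → ℤ) (hD1 : 1 ≤ D) (hsD : ∀ i j, sD i j = 0 ∨ sD i j = 1 ∨ sD i j = -1)
    (q : ℕ) (hq : 1 ≤ q) (G H : ℕ → (Fin (k + 1) → ℕ) → Prop)
    (hpat : ∀ r : ℕ, r.Coprime q → ∀ y : Fin D → ℕ, StrictMono y → (∀ i, D.factorial * q ∣ y i) →
      ∃ v : Fin (k + 1) → Fin D, StrictMono v ∧ (∀ i j, i < j → sD (v i) (v j) = s i j) ∧ G r (fun a => y (v a)))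
    (htr : ∀ r z, StrictMono z → (∀ i, q ∣ z i) → G r z → H r (fun i => z i - z 0)) :
    ∃ c : ℝ, 0 < c ∧ ∀ᶠ X : ℕ in atTop, ∀ r : ℕ, r.Coprime q →
      c * ((X : ℝ) ^ k / Real.log X ^ (edg s).card) ≤ (((shifts s X).filter (fun h => H r h)).card : ℝ) := by
  obtain ⟨c, W, hc, hW1, h1⟩ := gz_lower hSV hAVG hE k s D sD hD1 hsD q hq G hpat
  have h2 : Tendsto (fun X : ℕ => X / W) atTop atTop := Nat.tendsto_div_const_atTop (by omega)
  have h3 := h2.eventually (h1.and (eventually_ge_atTop 3))
  have hWr : (1 : ℝ) ≤ W := by exact_mod_cast hW1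
  refine ⟨c / (W * (2 * W) ^ k), by positivity, ?_⟩
  filter_upwards [h3, eventually_ge_atTop 3] with X hX hX3 r hrq
  obtain ⟨hX1, hX2⟩ := hX
  replace hX1 := hX1 r hrq
  set x := X / W with hx
  have hxr : (3 : ℝ) ≤ x := by exact_mod_cast hX2
  have hx0 : (0 : ℝ) < x := by linarith
  have hlog : 0 < Real.log x := Real.log_pos (by linarith)
  have hWx : W * x ≤ X := Nat.mul_div_le X W
  have hXW : X ≤ 2 * W * x := by
    have h4 : X < W * (x + 1) := by
      rw [hx]
      exact Nat.lt_mul_div_succ X (by omega)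
    nlinarith
  set e := (edg s).card with he
  -- the injection
  have h4 : (GZ q (G r) s (W * x)).card ≤ (((shifts s X).filter (fun h => H r h)) ×ˢ (Icc 1 (W * x))).card := by
    apply card_le_card_of_injOn (fun z : Fin (k + 1) → ℕ => ((fun i => z i - z 0), z 0))
    · intro z hz
      rw [mem_coe] at hz
      unfold GZ at hz
      rw [mem_filter, Fintype.mem_piFinset] at hz
      obtain ⟨hz1, hz2, hzq, hz3, hz4⟩ := hz
      have hz0 : ∀ i, z 0 ≤ z i := fun i => hz2.monotone (Fin.zero_le i)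
      rw [mem_coe, mem_product, mem_filter]
      refine ⟨⟨?_, ?_⟩, hz1 0⟩
      · unfold shifts
        rw [mem_filter, Fintype.mem_piFinset]
        refine ⟨fun i => ?_, by simp, fun i j hij => ?_, fun i j hij h => ?_⟩
        · rw [mem_range]
          have := (mem_Icc.1 (hz1 i)).2
          dsimp only
          omega
        · have := hz2 hij
          have := hz0 i
          dsimp only
          omega
        · have h5 := hz3 i j hij h
          have h6 : (((z j - z 0 : ℕ) : ℤ) - ((z i - z 0 : ℕ) : ℤ) + s i j) = (z j : ℤ) - z i + s i j := by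
            rw [Nat.cast_sub (hz0 j), Nat.cast_sub (hz0 i)]
            ring
          dsimp only
          rw [h6]
          exact h5
      · exact htr r z hz2 hzq hz4
    · intro z hz z' hz' h
      rw [mem_coe] at hz hz'
      unfold GZ at hz hz'
      rw [mem_filter, Fintype.mem_piFinset] at hz hz'
      have hz0 : ∀ i, z 0 ≤ z i := fun i => hz.2.1.monotone (Fin.zero_le i)
      have hz0' : ∀ i, z' 0 ≤ z' i := fun i => hz'.2.1.monotone (Fin.zero_le i)
      simp only [Prod.mk.injEq] at h
      funext i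
      have h5 := congrFun h.1 i
      have h6 := h.2
      have h7 := hz0 i
      have h8 := hz0' i
      omega
  rw [card_product, Nat.card_Icc, Nat.add_sub_cancel] at h4
  have h5 : ((GZ q (G r) s (W * x)).card : ℝ) ≤ (((shifts s X).filter (fun h => H r h)).card : ℝ) * (W * x) := by
    exact_mod_cast h4
  have h6 : c / W * ((x : ℝ) ^ k / Real.log x ^ e) ≤ (((shifts s X).filter (fun h => H r h)).card : ℝ) := by
    have h7 : 0 < (W : ℝ) * x := by positivity
    apply le_of_mul_le_mul_right _ h7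
    refine le_trans (le_of_eq ?_) (hX1.trans h5)
    rw [pow_succ]
    field_simp
  refine le_trans ?_ h6
  have hXr : (X : ℝ) ≤ 2 * W * x := by exact_mod_cast hXW
  have hxX : (x : ℝ) ≤ X := by
    have : x ≤ X := Nat.div_le_self X W
    exact_mod_cast this
  have h7 : Real.log x ≤ Real.log X := Real.log_le_log hx0 hxX
  have h8 : (X : ℝ) ^ k ≤ (2 * W) ^ k * (x : ℝ) ^ k := by
    rw [← mul_pow]
    exact pow_le_pow_left₀ (Nat.cast_nonneg _) hXr k
  calc c / (W * (2 * W) ^ k) * ((X : ℝ) ^ k / Real.log X ^ e) ≤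
      c / (W * (2 * W) ^ k) * (((2 * W) ^ k * (x : ℝ) ^ k) / Real.log x ^ e) := by
        apply mul_le_mul_of_nonneg_left _ (by positivity)
        apply div_le_div₀ (by positivity) h8 (by positivity)
        exact pow_le_pow_left₀ hlog.le h7 e
    _ = _ := by field_simp

theorem shifts_upper (hSV : P_SV) (hAVG : P_AVG) (k : ℕ) (s : Fin (k + 1) → Fin (k + 1) → ℤ) :
    ∃ C : ℝ, 0 < C ∧ ∀ᶠ X : ℕ in atTop,
      ((shifts s X).card : ℝ) ≤ C * ((X : ℝ) ^ k / Real.log X ^ (edg s).card) := by
  classical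
  have hsimple : Simple (edg s) := by
    intro e he
    unfold edg at he
    rw [mem_filter] at he
    refine ⟨he.2.1.ne, fun h => ?_⟩
    unfold edg at h
    rw [mem_filter] at h
    exact lt_asymm he.2.1 h.2.1
  obtain ⟨C, hC, h1⟩ := upper hSV hAVG (edg s) hsimple (fun q => s q.1 q.2)
  have ht : Tendsto (fun X : ℕ => 2 * X) atTop atTop := by
    apply tendsto_atTop_mono (fun n => ?_) tendsto_id
    simp only [id]
    omega
  have h2 := ht.eventually h1
  refine ⟨C * 2 ^ (k + 1), by positivity, ?_⟩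
  filter_upwards [h2, eventually_ge_atTop 3] with X hX hX3
  have hXr : (3 : ℝ) ≤ X := by exact_mod_cast hX3
  have hX0 : (0 : ℝ) < X := by linarith
  have hlog : 0 < Real.log X := Real.log_pos (by linarith)
  have h3 : ((shifts s X) ×ˢ (Icc 1 X)).card ≤ (sol (edg s) (fun q => s q.1 q.2) (2 * X)).card := by
    apply card_le_card_of_injOn (fun p : (Fin (k + 1) → ℕ) × ℕ => (fun i => p.1 i + p.2))
    · rintro ⟨h, t⟩ hp
      rw [mem_coe, mem_product] at hp
      obtain ⟨hh, ht⟩ := hp
      unfold shifts at hh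
      rw [mem_filter, Fintype.mem_piFinset] at hh
      simp only [mem_Icc] at ht
      rw [mem_coe]
      simp only [sol, mem_filter, Fintype.mem_piFinset, mem_Icc]
      refine ⟨fun i => ?_, fun q hq => ?_⟩
      · have h6 : h i < X + 1 := mem_range.1 (hh.1 i)
        omega
      · unfold edg at hq
        rw [mem_filter] at hq
        have h4 := hh.2.2.2 q.1 q.2 hq.2.1 hq.2.2
        have h5 : (((h q.2 + t : ℕ) : ℤ) - ((h q.1 + t : ℕ) : ℤ) + s q.1 q.2) = (h q.2 : ℤ) - h q.1 + s q.1 q.2 := by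
          push_cast
          ring
        rw [h5]
        exact h4
    · rintro ⟨h, t⟩ hp ⟨h', t'⟩ hp' heq
      rw [mem_coe, mem_product] at hp hp'
      have hh := hp.1
      have hh' := hp'.1
      unfold shifts at hh hh'
      rw [mem_filter] at hh hh'
      have h00 : h 0 = 0 := hh.2.1
      have h00' : h' 0 = 0 := hh'.2.1
      have h4 : t = t' := by
        have h6 : h 0 + t = h' 0 + t' := congrFun heq 0
        omega
      have h5 : h = h' := by
        funext i
        have h6 : h i + t = h' i + t' := congrFun heq i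
        omega
      rw [h4, h5]
  rw [card_product, Nat.card_Icc, Nat.add_sub_cancel] at h3
  have h4 : ((shifts s X).card : ℝ) * X ≤ C * (((2 * X : ℕ) : ℝ) ^ Fintype.card (Fin (k + 1)) / Real.log ((2 * X : ℕ) : ℝ) ^ (edg s).card) := by
    refine le_trans ?_ hX
    exact_mod_cast h3
  rw [Fintype.card_fin] at h4
  have h5 : C * (((2 * X : ℕ) : ℝ) ^ (k + 1) / Real.log ((2 * X : ℕ) : ℝ) ^ (edg s).card) ≤
      C * ((2 ^ (k + 1) * (X : ℝ) ^ (k + 1)) / Real.log X ^ (edg s).card) := by
    apply mul_le_mul_of_nonneg_left _ hC.le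
    apply div_le_div₀ (by positivity)
    · push_cast
      rw [mul_pow]
    · positivity
    · apply pow_le_pow_left₀ hlog.le
      apply Real.log_le_log hX0
      push_cast
      linarith
  apply le_of_mul_le_mul_right _ hX0
  refine (h4.trans h5).trans (le_of_eq ?_)
  rw [pow_succ (X : ℝ)]
  ring

end Pool.Agent.U288.SP
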