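import Mathlib
import Pool.Agent.H732R3.HausQ
import Pool.Agent.H362R2.CM.Final
import Pool.Agent.U288.SP.Asm3

/-! Runs of consecutive primes with a prescribed pattern of conditions (an apex at one end). -/

set_option autoImplicit false

namespace Pool.Agent.U288.SP

open Finset Filter Pool.Agent.H732R3.HausQ Pool.Agent.H732R3.ExactE

/-- for infinitely many `N ≡ r (mod q)` the numbers `N + z i` are consecutive primes -/
def Consec {k : ℕ} (q r : ℕ) (z : Fin (k + 1) → ℕ) : Prop :=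
  {N : ℕ | N ≡ r [MOD q] ∧ (∀ i, (N + z i).Prime) ∧
    ∀ p : ℕ, p.Prime → N + z 0 ≤ p → p ≤ N + z (Fin.last k) → ∃ i, p = N + z i}.Infinite

lemma consec_translate {k : ℕ} (q r : ℕ) (z : Fin (k + 1) → ℕ) (hz : StrictMono z) (hq : ∀ i, q ∣ z i)
    (h : Consec q r z) : Consec q r (fun i => z i - z 0) := by
  have hz0 : ∀ i, z 0 ≤ z i := fun i => hz.monotone (Fin.zero_le i)
  unfold Consec at h ⊢
  have hinj : Set.InjOn (fun N : ℕ => N + z 0) {N : ℕ | N ≡ r [MOD q] ∧ (∀ i, (N + z i).Prime) ∧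
    ∀ p : ℕ, p.Prime → N + z 0 ≤ p → p ≤ N + z (Fin.last k) → ∃ i, p = N + z i} := fun a _ b _ h => by simpa using h
  apply (h.image hinj).mono
  rintro _ ⟨N, ⟨hN1, hN2, hN3⟩, rfl⟩
  have key : ∀ i, N + z 0 + (z i - z 0) = N + z i := fun i => by
    have := hz0 i
    omega
  refine ⟨?_, fun i => ?_, fun p hp h1 h2 => ?_⟩
  · have h5 : N + z 0 ≡ r + 0 [MOD q] := hN1.add ((Nat.modEq_zero_iff_dvd).2 (hq 0))
    simpa using h5
  · dsimp only
    rw [key]
    exact hN2 i
  · dsimp only at h1 h2 ⊢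
    rw [key] at h1 h2
    obtain ⟨i, hi⟩ := hN3 p hp h1 h2
    exact ⟨i, by rw [key]; exact hi⟩

/-- for infinitely many `N ≡ r (mod q)` the primes between the points `N + y i` are the `N + y i`, `i ∈ PI` -/
def Exact {D : ℕ} (q r : ℕ) (y : Fin D → ℕ) (PI : Finset (Fin D)) : Prop :=
  {N : ℕ | N ≡ r [MOD q] ∧ (∀ i ∈ PI, (N + y i).Prime) ∧
    ∀ p : ℕ, p.Prime → ∀ a b, N + y a ≤ p → p ≤ N + y b → ∃ i ∈ PI, p = N + y i}.Infinite

theorem exactP (T : ℕ) : ∃ K : ℕ, 1 ≤ K ∧ ∀ q r : ℕ, 1 ≤ q → r.Coprime q → ∀ y : Fin (T * K) → ℕ, StrictMono y →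
    (∀ i, (T * K).factorial * q ∣ y i) → ∃ (PI : Finset (Fin (T * K))) (S : Finset (Fin T)) (c : Fin T → Fin K),
      T ≤ 4 * S.card ∧ (∀ g ∈ S, finProdFinEquiv (g, c g) ∈ PI) ∧ Exact q r y PI := by
  classical
  obtain ⟨K, hK, hquart⟩ := Pool.Agent.H362R2.CM.quarter T
  set D := T * K with hD
  refine ⟨K, hK, fun q r hq hrq y hy hQ => ?_⟩
  have hq0 : 0 < q := hq
  set w : Fin D → ℕ := fun i => y i / q with hw
  have hwy : ∀ i, q * w i = y i := fun i => Nat.mul_div_cancel' ((Dvd.intro_left _ rfl).trans (hQ i))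
  have hwD : ∀ i, D.factorial ∣ w i := by
    intro i
    have h1 : q * D.factorial ∣ q * w i := by rw [hwy, mul_comm]; exact hQ i
    exact Nat.dvd_of_mul_dvd_mul_left hq0 h1
  have hwmono : StrictMono w := by
    intro i j hij
    have h1 := hy hij
    rw [← hwy, ← hwy] at h1
    exact Nat.lt_of_mul_lt_mul_left h1
  set off : Fin T → Fin K → ℤ := fun g i => (w (finProdFinEquiv (g, i)) : ℤ) with hoff
  have hinj : Function.Injective (fun x : Fin T × Fin K => off x.1 x.2) := by
    intro x x' hx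
    simp only [hoff, Nat.cast_inj] at hx
    have h1 := finProdFinEquiv.injective (hwmono.injective hx)
    simpa using h1
  have hadm := adm 1 0 D.factorial (by norm_num) (one_dvd _) (fun p hp hpD => (hp.dvd_factorial).2 hpD) w hwD
  set R : ℕ := ∑ i, y i with hR
  obtain ⟨P, S, c, hP, hS, hSP, hinf⟩ := exact_Q hquart q r hq (by exact_mod_cast (Nat.isCoprime_iff_coprime.2 hrq))
    off hinj (by
      intro p hp
      obtain ⟨m, hm⟩ := hadm p hp
      refine ⟨m, fun g i => ?_⟩
      have := hm (finProdFinEquiv (g, i))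
      push_cast at this
      rw [one_mul, zero_add] at this
      exact this) R
  set PI : Finset (Fin D) := univ.filter (fun i : Fin D => (w i : ℤ) ∈ P) with hPI
  refine ⟨PI, S, c, by omega, fun g hg => ?_, ?_⟩
  · rw [hPI, mem_filter]
    exact ⟨mem_univ _, hSP g hg⟩
  unfold Exact
  apply hinf.mono
  intro n hn
  obtain ⟨hn1, hn2⟩ := hn
  have hyR : ∀ i, (y i : ℤ) ≤ q * R := by
    intro i
    have h1 : y i ≤ R := single_le_sum (f := y) (fun _ _ => Nat.zero_le _) (mem_univ i)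
    have h2 : y i ≤ q * R := h1.trans (Nat.le_mul_of_pos_left R hq0)
    exact_mod_cast h2
  have hyw : ∀ i, (y i : ℤ) = q * w i := fun i => by rw [← hwy]; push_cast; ring
  refine ⟨(Int.natCast_modEq_iff).1 hn1, fun a ha => ?_, fun p hp a b h1 h2 => ?_⟩
  · have haP : (w a : ℤ) ∈ P := (mem_filter.1 ha).2
    obtain ⟨p, hp, hpe⟩ := (hn2 (y a) (by rw [abs_of_nonneg (by positivity)]; exact hyR _)).2 ⟨_, haP, hyw _⟩
    have h3 : p = n + y a := by exact_mod_cast hpe
    rw [← h3]
    exact hp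
  · obtain ⟨h, hhP, hh⟩ := (hn2 ((p : ℤ) - n) (by
      have h3 : ((n : ℤ) + y a) ≤ p := by exact_mod_cast h1
      have h4 : (p : ℤ) ≤ n + y b := by exact_mod_cast h2
      have h5 := hyR b
      rw [abs_of_nonneg (by have : (0 : ℤ) ≤ y a := by positivity
                            linarith)]
      linarith)).1 ⟨p, hp, by ring⟩
    have hhO := hP hhP
    unfold Off at hhO
    obtain ⟨⟨g, i⟩, -, hgi⟩ := mem_image.1 hhO
    set j : Fin D := finProdFinEquiv (g, i) with hj
    have hwj : (w j : ℤ) = h := hgi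
    have hjP : j ∈ PI := by
      rw [hPI, mem_filter]
      exact ⟨mem_univ _, by rw [hwj]; exact hhP⟩
    refine ⟨j, hjP, ?_⟩
    have h3 : (p : ℤ) = n + y j := by
      rw [hyw, hwj]
      linarith
    exact_mod_cast h3

lemma exact_run {D k : ℕ} (q r : ℕ) (y : Fin D → ℕ) (hy : StrictMono y) (PI : Finset (Fin D)) (h : Exact q r y PI)
    (v : Fin (k + 1) → Fin D) (hvP : ∀ i, v i ∈ PI)
    (hrun : ∀ u ∈ PI, v 0 ≤ u → u ≤ v (Fin.last k) → ∃ i, u = v i) : Consec q r (fun a => y (v a)) := by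
  unfold Consec
  unfold Exact at h
  apply h.mono
  rintro N ⟨h1, h2, h3⟩
  refine ⟨h1, fun i => h2 _ (hvP i), fun p hp ha hb => ?_⟩
  obtain ⟨i, hi, hpi⟩ := h3 p hp _ _ ha hb
  dsimp only at ha hb
  rw [hpi] at ha hb
  obtain ⟨j, hj⟩ := hrun i hi (hy.le_iff_le.1 (by omega)) (hy.le_iff_le.1 (by omega))
  exact ⟨j, by rw [hpi, hj]⟩

/-- a run with an apex at the left end -/
lemma run_left {α : Type*} [LinearOrder α] (P : Finset α) (cl : α → ℕ) (hcl : Monotone cl) (t k : ℕ)
    (hB : k ≤ (P.filter (fun u => cl u = t)).card) (hA : (P.filter (fun u => cl u < t)).Nonempty) :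
    ∃ v : Fin (k + 1) → α, StrictMono v ∧ (∀ i, v i ∈ P) ∧
      (∀ u ∈ P, v 0 ≤ u → u ≤ v (Fin.last k) → ∃ i, u = v i) ∧ cl (v 0) < t ∧ ∀ i, i ≠ 0 → cl (v i) = t := by
  classical
  set A := P.filter (fun u => cl u < t) with hAdef
  set B := P.filter (fun u => cl u = t) with hBdef
  set x := A.max' hA with hx
  have hxA : x ∈ A := A.max'_mem hA
  have hxP := mem_filter.1 hxA
  set f := B.orderEmbOfFin rfl with hf
  have hfB : ∀ b, f b ∈ B := fun b => B.orderEmbOfFin_mem rfl b
  have hfP : ∀ b, f b ∈ P ∧ cl (f b) = t := fun b => mem_filter.1 (hfB b)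
  set v : Fin (k + 1) → α := Fin.cons x (fun i : Fin k => f (Fin.castLE hB i)) with hv
  have hv0 : v 0 = x := rfl
  have hvs : ∀ i : Fin k, v i.succ = f (Fin.castLE hB i) := fun i => rfl
  have hxf : ∀ b, x < f b := by
    intro b
    by_contra hcon
    have h1 := hcl (not_lt.1 hcon)
    have h2 := hxP.2
    rw [(hfP b).2] at h1
    omega
  refine ⟨v, ?_, ?_, ?_, ?_, ?_⟩
  · intro i j hij
    induction j using Fin.cases with
    | zero => exact absurd hij (Fin.not_lt_zero i)
    | succ j =>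
      induction i using Fin.cases with
      | zero => rw [hv0, hvs]; exact hxf _
      | succ i =>
        rw [hvs, hvs]
        apply f.strictMono
        have h1 : i < j := Fin.succ_lt_succ_iff.1 hij
        simpa using h1
  · intro i
    induction i using Fin.cases with
    | zero => rw [hv0]; exact hxP.1
    | succ i => rw [hvs]; exact (hfP _).1
  · intro u hu h1 h2
    rw [hv0] at h1
    rcases Nat.eq_zero_or_pos k with hk | hk
    · subst hk
      have h3 : v (Fin.last 0) = x := rfl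
      rw [h3] at h2
      exact ⟨0, le_antisymm h2 h1⟩
    · obtain ⟨k', rfl⟩ : ∃ k', k = k' + 1 := ⟨k - 1, by omega⟩
      have hlast : v (Fin.last (k' + 1)) = f (Fin.castLE hB (Fin.last k')) := by
        rw [← Fin.succ_last]
        exact hvs _
      rw [hlast] at h2
      have h3 : cl u ≤ t := by
        have := hcl h2
        rwa [(hfP _).2] at this
      rcases h3.lt_or_eq with h4 | h4
      · have h5 : u ∈ A := mem_filter.2 ⟨hu, h4⟩
        exact ⟨0, le_antisymm (A.le_max' u h5) h1⟩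
      · have h5 : u ∈ B := mem_filter.2 ⟨hu, h4⟩
        have h6 : u ∈ Set.range f := by
          rw [hf, range_orderEmbOfFin]
          exact h5
        obtain ⟨b, hb⟩ := h6
        rw [← hb] at h2
        have h7 : (b : ℕ) ≤ k' := f.le_iff_le.1 h2
        refine ⟨Fin.succ ⟨b, by omega⟩, ?_⟩
        rw [hvs, ← hb]
        rfl
  · rw [hv0]
    exact hxP.2
  · intro i hi
    induction i using Fin.cases with
    | zero => exact absurd rfl hi
    | succ i => rw [hvs]; exact (hfP _).2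

end Pool.Agent.U288.SP
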