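import Mathlib
import Pool.Agent.U288.SP.MT3

/-! Runs of consecutive primes with a prescribed pattern of conditions: the choice of the classes. -/

set_option autoImplicit false

namespace Pool.Agent.U288.SP

open Finset Filter

lemma class_exists {α : Type*} [LinearOrder α] (P : Finset α) (cl : α → ℕ) (hcl : Monotone cl) (m k : ℕ)
    (hm : 4 * (1 + 2 * k) < m) (S : Finset (Fin (m * m))) (pt : Fin (m * m) → α) (hinj : Set.InjOn pt S)
    (hS : m * m ≤ 4 * S.card) (hptP : ∀ g ∈ S, pt g ∈ P) (hlab : ∀ g ∈ S, cl (pt g) ≤ m)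
    (hfib : ∀ t, (S.filter (fun g => cl (pt g) = t)).card ≤ m) :
    ∃ t, k ≤ (P.filter (fun u => cl u = t)).card ∧ (P.filter (fun u => cl u < t)).Nonempty := by
  classical
  by_contra hcon
  push Not at hcon
  have hSne : S.Nonempty := by
    rw [← card_pos]
    have : 0 < m * m := Nat.mul_pos (by omega) (by omega)
    omega
  have hPne : P.Nonempty := by
    obtain ⟨g, hg⟩ := hSne
    exact ⟨_, hptP g hg⟩
  set u0 := P.min' hPne with hu0
  have hu0P : u0 ∈ P := P.min'_mem hPne
  have h1 : S.card = ∑ t ∈ range (m + 1), (S.filter (fun g => cl (pt g) = t)).card := by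
    apply card_eq_sum_card_fiberwise
    intro g hg
    rw [mem_coe, mem_range]
    have := hlab g hg
    dsimp only
    omega
  have h2 : ∀ t ∈ range (m + 1), (S.filter (fun g => cl (pt g) = t)).card ≤ (if t = cl u0 then m else 0) + k := by
    intro t _
    split_ifs with h
    · exact (hfib t).trans (Nat.le_add_right _ _)
    · rw [Nat.zero_add]
      rcases (S.filter (fun g => cl (pt g) = t)).eq_empty_or_nonempty with he | ⟨g, hg⟩
      · rw [he]
        simp
      · rw [mem_filter] at hg
        have h3 : cl u0 ≤ t := by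
          rw [← hg.2]
          exact hcl (P.min'_le _ (hptP g hg.1))
        have h4 : u0 ∈ P.filter (fun u => cl u < t) := mem_filter.2 ⟨hu0P, by omega⟩
        have h5 : (P.filter (fun u => cl u = t)).card < k := by
          by_contra h6
          have := hcon t (not_lt.1 h6)
          rw [this] at h4
          exact absurd h4 (notMem_empty _)
        refine le_trans ?_ h5.le
        apply card_le_card_of_injOn pt
        · intro g hg
          rw [mem_coe, mem_filter] at hg
          rw [mem_coe, mem_filter]
          exact ⟨hptP g hg.1, hg.2⟩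
        · intro a ha b hb h
          rw [mem_coe, mem_filter] at ha hb
          exact hinj ha.1 hb.1 h
  have h3 : S.card ≤ m + (m + 1) * k := by
    rw [h1]
    refine (sum_le_sum h2).trans ?_
    rw [sum_add_distrib, sum_const, card_range, smul_eq_mul]
    apply Nat.add_le_add_right
    rw [sum_ite_eq']
    split_ifs <;> omega
  nlinarith

/-- the conditions with an apex: `σ` on the edges through `v`, `a` on the others -/
def apex (k : ℕ) (v : Fin (k + 1)) (a σ : ℤ) : Fin (k + 1) → Fin (k + 1) → ℤ := fun i j => if i = v ∨ j = v then σ else a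

theorem pattern3 (k : ℕ) (v₀ : Fin (k + 1)) (hv₀ : v₀ = 0 ∨ v₀ = Fin.last k) (a σ : ℤ) : ∃ (D : ℕ) (sD : ℕ → ℕ → ℤ),
    1 ≤ D ∧ (∀ i j, sD i j = a ∨ sD i j = σ) ∧
    ∀ q r : ℕ, 1 ≤ q → r.Coprime q → ∀ y : Fin D → ℕ, StrictMono y →
      (∀ i, D.factorial * q ∣ y i) → ∃ v : Fin (k + 1) → Fin D, StrictMono v ∧
        (∀ i j, i < j → sD (v i) (v j) = apex k v₀ a σ i j) ∧ Consec q r (fun b => y (v b)) := by
  classical
  set m := 4 * (1 + 2 * k) + 1 with hm
  obtain ⟨K, hK, hex⟩ := exactP (m * m)
  set D := m * m * K with hD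
  have hDpos : 1 ≤ D := by
    rw [hD]
    exact Nat.mul_pos (Nat.mul_pos (by omega) (by omega)) hK
  set cl : ℕ → ℕ := fun u => u / K / m with hcl
  have hclmono : Monotone cl := fun u u' h => Nat.div_le_div_right (Nat.div_le_div_right h)
  refine ⟨D, fun u u' => if cl u = cl u' then a else σ, hDpos, fun i j => ?_, fun q r hq hrq y hy hQ => ?_⟩
  · dsimp only
    split_ifs <;> simp
  obtain ⟨PI, S, c, hS, hSP, hE⟩ := hex q r hq hrq y hy hQ
  have hval : ∀ g : Fin (m * m), cl ((finProdFinEquiv (g, c g) : Fin (m * m * K)) : ℕ) = g / m := by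
    intro g
    have h1 : ((finProdFinEquiv (g, c g) : Fin (m * m * K)) : ℕ) = (c g : ℕ) + K * g := rfl
    have h2 : ((c g : ℕ) + K * g) / K = g := by
      rw [Nat.add_mul_div_left _ _ hK, Nat.div_eq_of_lt (c g).2, Nat.zero_add]
    show ((finProdFinEquiv (g, c g) : Fin (m * m * K)) : ℕ) / K / m = g / m
    rw [h1, h2]
  have hgm : ∀ g : Fin (m * m), (g : ℕ) / m < m := fun g => Nat.div_lt_of_lt_mul g.2
  have hfib : ∀ t, (S.filter (fun g : Fin (m * m) => (g : ℕ) / m = t)).card ≤ m := by
    intro t
    calc (S.filter (fun g : Fin (m * m) => (g : ℕ) / m = t)).card ≤ (range m).card := by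
          apply card_le_card_of_injOn (fun g : Fin (m * m) => (g : ℕ) % m)
          · intro g _
            rw [mem_coe, mem_range]
            exact Nat.mod_lt _ (by omega)
          · intro g hg g' hg' h
            rw [mem_coe, mem_filter] at hg hg'
            dsimp only at h
            apply Fin.ext
            rw [← Nat.div_add_mod (g : ℕ) m, ← Nat.div_add_mod (g' : ℕ) m, h, hg.2, hg'.2]
      _ = m := card_range m
  have hinj : Function.Injective (fun g : Fin (m * m) => (finProdFinEquiv (g, c g) : Fin (m * m * K))) := by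
    intro g g' h
    have := finProdFinEquiv.injective h
    exact (Prod.mk.inj this).1
  rcases hv₀ with h0 | h0
  · obtain ⟨t, ht1, ht2⟩ := class_exists PI (fun u : Fin D => cl u) (fun u u' h => hclmono h) m k (by omega) S
      (fun g => finProdFinEquiv (g, c g)) hinj.injOn hS hSP (fun g _ => by
        rw [hval]
        exact (hgm g).le) (fun t => by
        refine le_trans (le_of_eq ?_) (hfib t)
        congr 1
        apply filter_congr
        intro g _
        rw [hval])
    obtain ⟨v, hv1, hv2, hv3, hv4, hv5⟩ := run_left PI (fun u : Fin D => cl u) (fun u u' h => hclmono h) t k ht1 ht2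
    refine ⟨v, hv1, fun i j hij => ?_, exact_run q r y hy PI hE v hv2 hv3⟩
    have hj : j ≠ 0 := fun h => by
      rw [h] at hij
      exact absurd hij (Fin.not_lt_zero i)
    have h1 : cl (v j) = t := hv5 j hj
    have h2 : cl (v 0) < t := hv4
    show (if cl (v i) = cl (v j) then a else σ) = (if i = v₀ ∨ j = v₀ then σ else a)
    rw [h0]
    by_cases hi : i = 0
    · rw [if_pos (show i = 0 ∨ j = 0 from Or.inl hi), if_neg (show ¬ cl (v i) = cl (v j) from by
        rw [hi]
        exact fun h => by rw [h, h1] at h2; exact lt_irrefl _ h2)]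
    · have h3 : cl (v i) = t := hv5 i hi
      rw [if_neg (show ¬ (i = 0 ∨ j = 0) from fun h => h.elim hi hj),
        if_pos (show cl (v i) = cl (v j) from by rw [h3, h1])]
  · obtain ⟨t, ht1, ht2⟩ := class_exists (α := (Fin D)ᵒᵈ) (PI.map (OrderDual.toDual.toEmbedding))
      (fun u => m - cl (OrderDual.ofDual u : Fin D))
      (fun u u' h => Nat.sub_le_sub_left (hclmono (show ((OrderDual.ofDual u' : Fin D) : ℕ) ≤ (OrderDual.ofDual u : Fin D) from h)) m)
      m k (by omega) S
      (fun g => OrderDual.toDual (finProdFinEquiv (g, c g))) (fun g _ g' _ h => hinj (OrderDual.toDual.injective h)) hS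
      (fun g hg => by
        rw [mem_map_equiv]
        exact hSP g hg) (fun g _ => Nat.sub_le _ _) (fun t => by
        refine le_trans (card_le_card ?_) (hfib (m - t))
        intro g hg
        rw [mem_filter] at hg ⊢
        refine ⟨hg.1, ?_⟩
        have h1 := hg.2
        rw [OrderDual.ofDual_toDual, hval] at h1
        have := hgm g
        omega)
    obtain ⟨v, hv1, hv2, hv3, hv4, hv5⟩ := run_left (α := (Fin D)ᵒᵈ) (PI.map (OrderDual.toDual.toEmbedding))
      (fun u => m - cl (OrderDual.ofDual u : Fin D))
      (fun u u' h => Nat.sub_le_sub_left (hclmono (show ((OrderDual.ofDual u' : Fin D) : ℕ) ≤ (OrderDual.ofDual u : Fin D) from h)) m)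
      t k ht1 ht2
    set w : Fin (k + 1) → Fin D := fun i => OrderDual.ofDual (v (Fin.rev i)) with hw
    have hclm : ∀ u : Fin D, cl u < m := by
      intro u
      have h1 : (u : ℕ) < K * (m * m) := u.2.trans_eq (by rw [hD]; ring)
      exact Nat.div_lt_of_lt_mul (Nat.div_lt_of_lt_mul h1)
    have hwmono : StrictMono w := by
      intro i j hij
      have h1 : Fin.rev j < Fin.rev i := Fin.rev_lt_rev.2 hij
      exact OrderDual.ofDual_lt_ofDual.2 (hv1 h1)
    refine ⟨w, hwmono, fun i j hij => ?_, exact_run q r y hy PI hE w (fun i => ?_) (fun u hu h1 h2 => ?_)⟩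
    · have hi : i ≠ Fin.last k := fun h => by
        rw [h] at hij
        exact absurd hij (not_lt.2 (Fin.le_last j))
      have hi' : Fin.rev i ≠ 0 := fun h => hi (by rw [← Fin.rev_rev i, h, Fin.rev_zero])
      have hi5 : m - cl (w i) = t := hv5 _ hi'
      have hi6 := hclm (w i)
      show (if cl (w i) = cl (w j) then a else σ) = (if i = v₀ ∨ j = v₀ then σ else a)
      rw [h0]
      by_cases hj : j = Fin.last k
      · have h2 : m - cl (w j) < t := by
          have h3 : w j = OrderDual.ofDual (v 0) := by
            rw [hw]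
            dsimp only
            rw [hj, Fin.rev_last]
          rw [h3]
          exact hv4
        rw [if_pos (show i = Fin.last k ∨ j = Fin.last k from Or.inr hj), if_neg (show ¬ cl (w i) = cl (w j) from
          fun h => by rw [h] at hi5; omega)]
      · have hj' : Fin.rev j ≠ 0 := fun h => hj (by rw [← Fin.rev_rev j, h, Fin.rev_zero])
        have hj5 : m - cl (w j) = t := hv5 _ hj'
        have hj6 := hclm (w j)
        rw [if_neg (show ¬ (i = Fin.last k ∨ j = Fin.last k) from fun h => h.elim hi hj),
          if_pos (show cl (w i) = cl (w j) from by omega)]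
    · have := hv2 (Fin.rev i)
      rw [mem_map_equiv] at this
      exact this
    · have h3 := hv3 (OrderDual.toDual u) (by rw [mem_map_equiv]; exact hu) (by
        have : w (Fin.last k) = OrderDual.ofDual (v 0) := by
          rw [hw]
          dsimp only
          rw [Fin.rev_last]
        rw [this] at h2
        exact h2) (by
        have : w 0 = OrderDual.ofDual (v (Fin.last k)) := by
          rw [hw]
          dsimp only
          rw [Fin.rev_zero]
        rw [this] at h1
        exact h1)
      obtain ⟨i, hi⟩ := h3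
      refine ⟨Fin.rev i, ?_⟩
      rw [hw]
      dsimp only
      rw [Fin.rev_rev, ← hi]
      rfl

end Pool.Agent.U288.SP
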