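import Pool.Agent.U288.SP.Asm3
import Pool.Agent.U288.SP.LB1
import Pool.Agent.U288.SP.MT4
import Pool.Agent.Y949.DK.SV
import Pool.Agent.Y185.DK.Avg

/-! The theorem for consecutive primes, without hypotheses. -/

set_option autoImplicit false

namespace Pool.Agent.U288.SP

open Finset Filter

open Classical in
theorem fin_consec (k : ℕ) (v₀ : Fin (k + 1)) (hv₀ : v₀ = 0 ∨ v₀ = Fin.last k) (a σ : ℤ)
    (ha : a = 0 ∨ a = 1 ∨ a = -1) (hσ : σ = 0 ∨ σ = 1 ∨ σ = -1) (q : ℕ) (hq : 1 ≤ q) :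
    ∃ c C : ℝ, 0 < c ∧ ∀ᶠ X : ℕ in atTop,
      ((shifts (apex k v₀ a σ) X).card : ℝ) ≤ C * ((X : ℝ) ^ k / Real.log X ^ (edg (apex k v₀ a σ)).card) ∧
      ∀ r : ℕ, r.Coprime q → c * ((X : ℝ) ^ k / Real.log X ^ (edg (apex k v₀ a σ)).card) ≤
        (((shifts (apex k v₀ a σ) X).filter (fun h => Consec q r h)).card : ℝ) := by
  obtain ⟨D, sD, hD1, hsD, hpat⟩ := pattern3 k v₀ hv₀ a σ
  obtain ⟨c, hc, h1⟩ := shifts_lower Pool.Agent.Y949.DK.t_SV Pool.Agent.Y185.DK.AV.t_AVG ext_main k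
    (apex k v₀ a σ) D sD hD1 (fun i j => by rcases hsD i j with h | h <;> rw [h] <;> assumption) q hq
    (fun r z => Consec q r z) (fun r z => Consec q r z)
    (fun r hr y hy hQ => hpat q r hq hr y hy hQ)
    (fun r z hz hzq h => consec_translate q r z hz hzq h)
  obtain ⟨C, hC, h2⟩ := shifts_upper Pool.Agent.Y949.DK.t_SV Pool.Agent.Y185.DK.AV.t_AVG k (apex k v₀ a σ)
  refine ⟨c, C, hc, ?_⟩
  filter_upwards [h1, h2] with X hX1 hX2
  exact ⟨hX2, hX1⟩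

end Pool.Agent.U288.SP
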