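import Pool.Agent.U288.SP.Asm3

/-! The number of the conditions. -/

set_option autoImplicit false

namespace Pool.Agent.U288.SP

open Finset

/-- the number of the pairs -/
lemma edg_const (k : ℕ) (σ : ℤ) : (edg (fun _ _ : Fin (k + 1) => σ)).card = if σ = 0 then 0 else k * (k + 1) / 2 := by
  classical
  unfold edg
  split_ifs with h
  · rw [card_eq_zero, filter_eq_empty_iff]
    rintro q _ ⟨_, h2⟩
    exact h2 h
  · rw [card_eq_sum_card_fiberwise (f := Prod.snd) (t := univ) (fun _ _ => by simp)]
    have h1 : ∀ j : Fin (k + 1), (((univ : Finset (Fin (k + 1) × Fin (k + 1))).filter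
        (fun q => q.1 < q.2 ∧ σ ≠ 0)).filter (fun q => q.2 = j)).card = (j : ℕ) := by
      intro j
      have h2 : (((univ : Finset (Fin (k + 1) × Fin (k + 1))).filter
        (fun q => q.1 < q.2 ∧ σ ≠ 0)).filter (fun q => q.2 = j)) = (Iio j).image (fun i => (i, j)) := by
        ext ⟨a, b⟩
        simp only [mem_filter, mem_univ, true_and, mem_image, mem_Iio, Prod.mk.injEq]
        constructor
        · rintro ⟨⟨h3, _⟩, rfl⟩
          exact ⟨a, h3, rfl, rfl⟩
        · rintro ⟨i, h3, rfl, rfl⟩
          exact ⟨⟨h3, h⟩, rfl⟩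
      rw [h2, card_image_of_injective _ (fun i i' hi => (Prod.mk.inj hi).1), Fin.card_Iio]
    rw [sum_congr rfl (fun j _ => h1 j), Fin.sum_univ_eq_sum_range (fun j => j) (k + 1), sum_range_id,
      Nat.add_sub_cancel, mul_comm]

end Pool.Agent.U288.SP
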