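import Pool.Agent.Y851.DK.Stm

/-! Averages of `exp (c sg (linear form))` over boxes. -/

set_option autoImplicit false

namespace Pool.Agent.U288.SP

open Finset Filter Pool.Agent.Y851.DK

lemma sg_nonneg (m : ℕ) : 0 ≤ sg m := sum_nonneg fun _ _ => by positivity

lemma sg_le (m : ℕ) : sg m ≤ m := by
  unfold sg
  have h1 : ∑ p ∈ m.primeFactors, (1 : ℝ) / p ≤ ∑ p ∈ m.primeFactors, (1 : ℝ) := by
    apply sum_le_sum
    intro p hp
    have hp1 : (1 : ℝ) ≤ p := by exact_mod_cast (Nat.prime_of_mem_primeFactors hp).one_le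
    rw [div_le_one (by linarith)]
    exact hp1
  refine h1.trans ?_
  rw [sum_const, nsmul_eq_mul, mul_one]
  have h2 : m.primeFactors ⊆ Icc 1 m := by
    intro p hp
    rw [mem_Icc]
    exact ⟨(Nat.prime_of_mem_primeFactors hp).one_le, Nat.le_of_mem_primeFactors hp⟩
  have h3 := card_le_card h2
  rw [Nat.card_Icc, Nat.add_sub_cancel] at h3
  exact_mod_cast h3

lemma sg_le_sgn (α m : ℕ) (hα : 1 ≤ α) : sg m ≤ sgn α m + α := by
  have h0 : sg m = ∑ p ∈ m.primeFactors.filter (fun p => ¬ p ∣ α), (1 : ℝ) / p +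
      ∑ p ∈ m.primeFactors.filter (fun p => ¬ ¬ p ∣ α), (1 : ℝ) / p := by
    unfold sg
    rw [sum_filter_add_sum_filter_not]
  rw [h0]
  have h1 : ∑ p ∈ m.primeFactors.filter (fun p => ¬ ¬ p ∣ α), (1 : ℝ) / p ≤ α := by
    refine le_trans ?_ (sg_le α)
    unfold sg
    apply sum_le_sum_of_subset_of_nonneg
    · intro p hp
      rw [mem_filter, not_not] at hp
      rw [Nat.mem_primeFactors]
      exact ⟨Nat.prime_of_mem_primeFactors hp.1, hp.2, by omega⟩
    · intro p _ _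
      positivity
  unfold sgn
  linarith

lemma avg1 (hAVG : P_AVG) (c A B : ℝ) (hc : 0 < c) : ∃ C : ℝ, 1 ≤ C ∧ ∀ᶠ M : ℕ in atTop,
    ∀ a b : ℤ, a ≠ 0 → |(a : ℝ)| ≤ A → |(b : ℝ)| ≤ B * M →
      ∑ x ∈ Icc 1 M, Real.exp (c * sg (a * (x : ℤ) + b).natAbs) ≤ C * M := by
  obtain ⟨C, hC, h⟩ := hAVG c (1 / 2) hc (by norm_num)
  have h' := tendsto_natCast_atTop_atTop (R := ℝ) |>.eventually h
  refine ⟨Real.exp (c * |A|) * C, ?_, ?_⟩
  · have : 1 ≤ Real.exp (c * |A|) := Real.one_le_exp (by positivity)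
    nlinarith
  have h2 : ∀ᶠ M : ℕ in atTop, (2 * |A| + |B| + 1 : ℝ) ≤ M := by
    have := (tendsto_natCast_atTop_atTop (R := ℝ)).eventually_ge_atTop (2 * |A| + |B| + 1)
    exact this
  filter_upwards [h', h2] with M hM hM2
  have hM1 : (1 : ℝ) ≤ M := by
    have := abs_nonneg A
    have := abs_nonneg B
    linarith
  have hMr : ((M : ℝ)) ^ (1 / 2 : ℝ) ≤ M := by
    calc ((M : ℝ)) ^ (1 / 2 : ℝ) ≤ (M : ℝ) ^ (1 : ℝ) := Real.rpow_le_rpow_of_exponent_le hM1 (by norm_num)
      _ = M := Real.rpow_one _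
  have key := hM M hMr le_rfl
  have hMsq : (2 * |A| + |B|) * M + 1 ≤ (M : ℝ) ^ 2 := by nlinarith
  -- the core
  have core : ∀ α β : ℕ, 1 ≤ α → (α : ℝ) ≤ |A| → (β : ℝ) ≤ (M : ℝ) ^ 2 →
      ∑ x ∈ Icc 1 M, Real.exp (c * sg (((α : ℤ) * (x : ℤ) - (β : ℤ)).natAbs)) ≤
        Real.exp (c * |A|) * C * M := by
    intro α β hα hαA hβ
    have hαM : (α : ℝ) ≤ (M : ℝ) ^ 2 := by
      have := abs_nonneg A
      have := abs_nonneg B
      nlinarith
    have h3 := key α β hα hαM hβ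
    calc ∑ x ∈ Icc 1 M, Real.exp (c * sg (((α : ℤ) * (x : ℤ) - (β : ℤ)).natAbs)) ≤
        ∑ x ∈ Icc 1 M, Real.exp (c * |A|) * Real.exp (c * sgn α (((α : ℤ) * (x : ℤ) - (β : ℤ)).natAbs)) := by
          apply sum_le_sum
          intro x _
          rw [← Real.exp_add]
          apply Real.exp_le_exp.2
          have := sg_le_sgn α (((α : ℤ) * (x : ℤ) - (β : ℤ)).natAbs) hα
          nlinarith
      _ = Real.exp (c * |A|) * ∑ x ∈ Icc 1 M, Real.exp (c * sgn α (((α : ℤ) * (x : ℤ) - (β : ℤ)).natAbs)) := by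
          rw [mul_sum]
      _ ≤ Real.exp (c * |A|) * (C * M) := mul_le_mul_of_nonneg_left h3 (Real.exp_pos _).le
      _ = _ := by ring
  -- positive leading coefficient
  have pos : ∀ a b : ℤ, 0 < a → |(a : ℝ)| ≤ A → |(b : ℝ)| ≤ B * M →
      ∑ x ∈ Icc 1 M, Real.exp (c * sg (a * (x : ℤ) + b).natAbs) ≤ Real.exp (c * |A|) * C * M := by
    intro a b ha haA hbB
    have hA' : |(a : ℝ)| ≤ |A| := haA.trans (le_abs_self A)
    have hB' : |(b : ℝ)| ≤ |B| * M := hbB.trans (mul_le_mul_of_nonneg_right (le_abs_self B) (by linarith))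
    have haR : (0 : ℝ) < a := by exact_mod_cast ha
    rw [abs_of_pos haR] at hA'
    obtain ⟨α, hα⟩ := Int.eq_ofNat_of_zero_le ha.le
    have hαR : (α : ℝ) = a := by rw [hα]; simp
    have hα1 : 1 ≤ α := by
      have : 0 < (α : ℤ) := by rw [← hα]; exact ha
      omega
    rcases le_or_gt b 0 with hb | hb
    · obtain ⟨β, hβ⟩ := Int.eq_ofNat_of_zero_le (neg_nonneg.2 hb)
      have hβR : (β : ℝ) = -(b : ℝ) := by
        have : ((β : ℤ) : ℝ) = ((-b : ℤ) : ℝ) := by rw [hβ]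
        push_cast at this
        exact this
      have h4 := core α β hα1 (by rw [hαR]; exact hA') (by
        rw [hβR]
        have := neg_abs_le (b : ℝ)
        have := abs_nonneg A
        nlinarith)
      refine le_trans (le_of_eq ?_) h4
      apply sum_congr rfl
      intro x _
      rw [hα]
      have : (β : ℤ) = -b := hβ.symm
      rw [this, sub_neg_eq_add]
    · have hb0 : 0 ≤ a * (M + 1) + b := by positivity
      obtain ⟨β, hβ⟩ := Int.eq_ofNat_of_zero_le hb0
      have hβR : (β : ℝ) = a * (M + 1) + b := by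
        have : ((β : ℤ) : ℝ) = ((a * (M + 1) + b : ℤ) : ℝ) := by rw [hβ]
        push_cast at this
        exact this
      have h4 := core α β hα1 (by rw [hαR]; exact hA') (by
        rw [hβR]
        have := le_abs_self (b : ℝ)
        nlinarith)
      refine le_trans (le_of_eq ?_) h4
      apply sum_nbij' (fun x => M + 1 - x) (fun x => M + 1 - x)
      · intro x hx; rw [mem_Icc] at hx ⊢; omega
      · intro x hx; rw [mem_Icc] at hx ⊢; omega
      · intro x hx; rw [mem_Icc] at hx; omega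
      · intro x hx; rw [mem_Icc] at hx; omega
      · intro x hx
        rw [mem_Icc] at hx
        congr 3
        have h5 : ((M + 1 - x : ℕ) : ℤ) = M + 1 - x := by omega
        rw [h5, ← hα]
        have h6 : (β : ℤ) = a * (M + 1) + b := hβ.symm
        rw [h6, ← Int.natAbs_neg]
        congr 1
        ring
  intro a b ha haA hbB
  rcases lt_or_gt_of_ne ha with h3 | h3
  · have h4 := pos (-a) (-b) (by omega) (by push_cast; rw [abs_neg]; exact haA) (by push_cast; rw [abs_neg]; exact hbB)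
    refine le_trans (le_of_eq ?_) h4
    apply sum_congr rfl
    intro x _
    congr 3
    rw [← Int.natAbs_neg]
    congr 1
    ring
  · exact pos a b h3 haA hbB

/-- averaging over one coordinate -/
lemma coord {V : Type*} [Fintype V] [DecidableEq V] (M : ℕ) (m : V) (f : (V → ℕ) → ℝ) :
    ∑ z ∈ Fintype.piFinset (fun _ : V => Icc 1 M), ∑ x ∈ Icc 1 M, f (Function.update z m x) =
      M * ∑ z ∈ Fintype.piFinset (fun _ : V => Icc 1 M), f z := by
  have h1 : (M : ℝ) * ∑ z ∈ Fintype.piFinset (fun _ : V => Icc 1 M), f z =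
      ∑ z ∈ Fintype.piFinset (fun _ : V => Icc 1 M), ∑ _x ∈ Icc 1 M, f z := by
    rw [mul_sum]
    apply sum_congr rfl
    intro z _
    rw [sum_const, Nat.card_Icc, Nat.add_sub_cancel, nsmul_eq_mul]
  rw [h1, ← sum_product', ← sum_product']
  apply sum_nbij' (fun q : (V → ℕ) × ℕ => (Function.update q.1 m q.2, q.1 m))
    (fun q : (V → ℕ) × ℕ => (Function.update q.1 m q.2, q.1 m))
  · rintro ⟨z, x⟩ hq
    rw [mem_product, Fintype.mem_piFinset] at hq ⊢
    refine ⟨fun i => ?_, hq.1 m⟩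
    rcases eq_or_ne i m with rfl | hi
    · simpa using hq.2
    · simpa [Function.update_of_ne hi] using hq.1 i
  · rintro ⟨z, x⟩ hq
    rw [mem_product, Fintype.mem_piFinset] at hq ⊢
    refine ⟨fun i => ?_, hq.1 m⟩
    rcases eq_or_ne i m with rfl | hi
    · simpa using hq.2
    · simpa [Function.update_of_ne hi] using hq.1 i
  · rintro ⟨z, x⟩ _
    simp
  · rintro ⟨z, x⟩ _
    simp
  · rintro ⟨z, x⟩ _
    simp

lemma card_boxV {V : Type*} [Fintype V] [DecidableEq V] (M : ℕ) :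
    ((Fintype.piFinset (fun _ : V => Icc 1 M)).card : ℝ) = (M : ℝ) ^ Fintype.card V := by
  rw [Fintype.card_piFinset]
  simp

/-- average over a box -/
lemma avgU (hAVG : P_AVG) (c A B : ℝ) (hc : 0 < c) : ∃ C : ℝ, 1 ≤ C ∧ ∀ᶠ M : ℕ in atTop,
    ∀ (V : Type) [Fintype V] [DecidableEq V] (m : V) (g : (V → ℕ) → ℤ) (α : ℤ), α ≠ 0 → |(α : ℝ)| ≤ A →
      (∀ z x, g (Function.update z m x) = α * x + (g z - α * z m)) →
      (∀ z ∈ Fintype.piFinset (fun _ : V => Icc 1 M), |(g z : ℝ)| ≤ B * M) →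
      ∑ z ∈ Fintype.piFinset (fun _ : V => Icc 1 M), Real.exp (c * sg (g z).natAbs) ≤ C * (M : ℝ) ^ Fintype.card V := by
  obtain ⟨C, hC, h⟩ := avg1 hAVG c A (|B| + |A|) hc
  refine ⟨C, hC, ?_⟩
  filter_upwards [h, eventually_ge_atTop 1] with M hM hM1 V _ _ m g α hα hαA hg hgB
  have hMr : (1 : ℝ) ≤ M := by exact_mod_cast hM1
  have h1 := coord M m (fun z => Real.exp (c * sg (g z).natAbs))
  have h2 : ∑ z ∈ Fintype.piFinset (fun _ : V => Icc 1 M), ∑ x ∈ Icc 1 M,
      Real.exp (c * sg (g (Function.update z m x)).natAbs) ≤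
      ∑ z ∈ Fintype.piFinset (fun _ : V => Icc 1 M), C * (M : ℝ) := by
    apply sum_le_sum
    intro z hz
    have h3 := hM α (g z - α * z m) hα hαA (by
      have h4 := hgB z hz
      have h5 : z m ∈ Icc 1 M := Fintype.mem_piFinset.1 hz m
      have h6 : ((z m : ℕ) : ℝ) ≤ M := by exact_mod_cast (mem_Icc.1 h5).2
      have h7 : |(α : ℝ) * (z m : ℝ)| ≤ |A| * M := by
        rw [abs_mul, abs_of_nonneg (Nat.cast_nonneg (z m) : (0 : ℝ) ≤ z m)]
        exact mul_le_mul (hαA.trans (le_abs_self A)) h6 (Nat.cast_nonneg _) (abs_nonneg _)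
      push_cast
      calc |(g z : ℝ) - α * (z m : ℝ)| ≤ |(g z : ℝ)| + |(α : ℝ) * (z m : ℝ)| := abs_sub _ _
        _ ≤ B * M + |A| * M := add_le_add h4 h7
        _ ≤ |B| * M + |A| * M := by gcongr; exact le_abs_self B
        _ = _ := by ring)
    refine le_trans (le_of_eq ?_) h3
    apply sum_congr rfl
    intro x _
    rw [hg]
  rw [h1, sum_const, nsmul_eq_mul, card_boxV] at h2
  have hM0 : (0 : ℝ) < M := by linarith
  have h3 : (M : ℝ) * ∑ z ∈ Fintype.piFinset (fun _ : V => Icc 1 M), Real.exp (c * sg (g z).natAbs) ≤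
      M * (C * (M : ℝ) ^ Fintype.card V) := by
    refine h2.trans (le_of_eq (by ring))
  exact le_of_mul_le_mul_left h3 hM0

/-- few zeros -/
lemma zerosU {V : Type*} [Fintype V] [DecidableEq V] (M : ℕ) (m : V) (g : (V → ℕ) → ℤ) (α : ℤ) (hα : α ≠ 0)
    (hg : ∀ z x, g (Function.update z m x) = α * x + (g z - α * z m)) :
    (M : ℝ) * (((Fintype.piFinset (fun _ : V => Icc 1 M)).filter (fun z => g z = 0)).card : ℝ) ≤
      (M : ℝ) ^ Fintype.card V := by
  have h1 := coord M m (fun z => if g z = 0 then (1 : ℝ) else 0)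
  have h2 : ∑ z ∈ Fintype.piFinset (fun _ : V => Icc 1 M), (if g z = 0 then (1 : ℝ) else 0) =
      (((Fintype.piFinset (fun _ : V => Icc 1 M)).filter (fun z => g z = 0)).card : ℝ) := by
    rw [← sum_filter, sum_const, nsmul_eq_mul, mul_one]
  rw [h2] at h1
  rw [← h1]
  calc _ ≤ ∑ z ∈ Fintype.piFinset (fun _ : V => Icc 1 M), (1 : ℝ) := by
        apply sum_le_sum
        intro z _
        simp only [hg]
        rw [← sum_filter, sum_const, nsmul_eq_mul, mul_one]
        have : ((Icc 1 M).filter (fun x : ℕ => α * (x : ℤ) + (g z - α * z m) = 0)).card ≤ 1 := by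
          rw [card_le_one]
          intro x hx y hy
          rw [mem_filter] at hx hy
          have h3 : α * (x : ℤ) = α * (y : ℤ) := by linarith [hx.2, hy.2]
          have h4 := mul_left_cancel₀ hα h3
          exact_mod_cast h4
        exact_mod_cast this
    _ = _ := by rw [sum_const, nsmul_eq_mul, mul_one, card_boxV]

lemma exp_sum_le {ι : Type*} (I : Finset ι) (s : ι → ℝ) (hs : ∀ i ∈ I, 0 ≤ s i) (c : ℝ) (hc : 0 ≤ c) :
    Real.exp (c * ∑ i ∈ I, s i) ≤ 1 + ∑ i ∈ I, Real.exp (c * I.card * s i) := by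
  rcases I.eq_empty_or_nonempty with rfl | hI
  · simp
  · obtain ⟨i₀, hi₀, hmax⟩ := exists_max_image I s hI
    have h1 : ∑ i ∈ I, s i ≤ I.card * s i₀ := by
      calc ∑ i ∈ I, s i ≤ ∑ _i ∈ I, s i₀ := sum_le_sum hmax
        _ = _ := by rw [sum_const, nsmul_eq_mul]
    have h2 : Real.exp (c * ∑ i ∈ I, s i) ≤ Real.exp (c * I.card * s i₀) := by
      apply Real.exp_le_exp.2
      calc c * ∑ i ∈ I, s i ≤ c * (I.card * s i₀) := mul_le_mul_of_nonneg_left h1 hc
        _ = _ := by ring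
    have h3 : Real.exp (c * I.card * s i₀) ≤ ∑ i ∈ I, Real.exp (c * I.card * s i) :=
      single_le_sum (f := fun i => Real.exp (c * I.card * s i)) (fun i _ => (Real.exp_pos _).le) hi₀
    linarith

end Pool.Agent.U288.SP
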