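import Mathlib
import Pool.Agent.Helper903.DHJ
import Pool.Agent.H732R3.BigQ

/-! The coloured Maynard-Tao theorem and the density Hales-Jewett theorem: a pattern of signs is found in every
increasing admissible sequence, at places with a given matrix of signs. -/

set_option autoImplicit false

namespace Pool.Agent.U288.SP

open Finset Filter Combinatorics Pool.Agent.H732R3.BigQ

section
variable {n k : ℕ}

/-- `w` and `w'` differ, and where they differ they have the letters `q.1` and `q.2` -/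
def Pure (w w' : Fin n → Fin (k + 1)) (q : Fin (k + 1) × Fin (k + 1)) : Prop :=
  q.1 < q.2 ∧ w ≠ w' ∧ ∀ p, w p = w' p ∨ (w p = q.1 ∧ w' p = q.2)

lemma Pure.unique {w w' : Fin n → Fin (k + 1)} {q q' : Fin (k + 1) × Fin (k + 1)} (h : Pure w w' q)
    (h' : Pure w w' q') : q = q' := by
  obtain ⟨p, hp⟩ := Function.ne_iff.1 h.2.1
  rcases h.2.2 p with h1 | h1
  · exact absurd h1 hp
  rcases h'.2.2 p with h2 | h2
  · exact absurd h2 hp
  exact Prod.ext (h1.1.symm.trans h2.1) (h1.2.symm.trans h2.2)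

open Classical in
/-- the sign of a pair of words -/
noncomputable def sW (s : Fin (k + 1) → Fin (k + 1) → ℤ) (w w' : Fin n → Fin (k + 1)) : ℤ :=
  if h : ∃ q, Pure w w' q then s h.choose.1 h.choose.2 else 0

lemma sW_eq (s : Fin (k + 1) → Fin (k + 1) → ℤ) {w w' : Fin n → Fin (k + 1)} {i j : Fin (k + 1)}
    (h : Pure w w' (i, j)) : sW s w w' = s i j := by
  have h1 : ∃ q, Pure w w' q := ⟨_, h⟩
  unfold sW
  rw [dif_pos h1]
  have h2 := Pure.unique h1.choose_spec h
  rw [h2]

lemma sW_vals (s : Fin (k + 1) → Fin (k + 1) → ℤ) (hs : ∀ i j, s i j = 0 ∨ s i j = 1 ∨ s i j = -1)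
    (w w' : Fin n → Fin (k + 1)) : sW s w w' = 0 ∨ sW s w w' = 1 ∨ sW s w w' = -1 := by
  unfold sW
  split_ifs
  · exact hs _ _
  · exact Or.inl rfl

lemma line_pure (L : Line (Fin (k + 1)) (Fin n)) {i j : Fin (k + 1)} (h : i < j) : Pure (L i) (L j) (i, j) := by
  refine ⟨h, ?_, fun p => ?_⟩
  · obtain ⟨p, hp⟩ := L.proper
    intro h1
    have h2 := congrFun h1 p
    rw [Line.apply_none _ _ _ hp, Line.apply_none _ _ _ hp] at h2
    exact h.ne h2
  · rcases hc : L.idxFun p with _ | c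
    · right
      rw [Line.apply_none _ _ _ hc, Line.apply_none _ _ _ hc]
      exact ⟨rfl, rfl⟩
    · left
      rw [Line.apply_some hc, Line.apply_some hc]

lemma code_lt (L : Line (Fin (k + 1)) (Fin n)) {i j : Fin (k + 1)} (h : i < j) :
    (finFunctionFinEquiv (L i) : ℕ) < finFunctionFinEquiv (L j) := by
  rw [finFunctionFinEquiv_apply, finFunctionFinEquiv_apply]
  obtain ⟨p, hp⟩ := L.proper
  apply sum_lt_sum
  · intro q _
    apply Nat.mul_le_mul_right
    rcases hc : L.idxFun q with _ | c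
    · rw [Line.apply_none _ _ _ hc, Line.apply_none _ _ _ hc]
      exact h.le
    · rw [Line.apply_some hc, Line.apply_some hc]
  · refine ⟨p, mem_univ _, ?_⟩
    rw [Line.apply_none _ _ _ hp, Line.apply_none _ _ _ hp]
    exact Nat.mul_lt_mul_of_pos_right h (by positivity)

end

/-- **The pattern theorem.** -/
theorem pattern (hMT : QuarterB) (k : ℕ) (s : Fin (k + 1) → Fin (k + 1) → ℤ)
    (hs : ∀ i j, s i j = 0 ∨ s i j = 1 ∨ s i j = -1) :
    ∃ (D : ℕ) (sD : ℕ → ℕ → ℤ), 1 ≤ D ∧ (∀ i j, sD i j = 0 ∨ sD i j = 1 ∨ sD i j = -1) ∧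
      ∀ (q r : ℕ), 1 ≤ q → ∀ y : Fin D → ℕ, StrictMono y →
        (∀ p : ℕ, p.Prime → ∃ m : ℤ, ∀ i, ¬ (p : ℤ) ∣ q * m + (r + y i)) →
        ∃ v : Fin (k + 1) → Fin D, StrictMono v ∧ (∀ i j, i < j → sD (v i) (v j) = s i j) ∧
          Big {N : ℕ | N ≡ r [MOD q] ∧ ∀ i, (N + y (v i)).Prime} := by
  classical
  obtain ⟨n, hn⟩ := Pool.Agent.Helper903.DHJ.ldhj (Fin (k + 1)) (1 / 4) (by norm_num)
  set T := (k + 1) ^ n with hT
  obtain ⟨K, hK, hmt⟩ := hMT T
  set D := T * K with hD
  have hT1 : 1 ≤ T := Nat.one_le_pow _ _ (by omega)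
  -- the words of the vertices
  set word : Fin D → (Fin n → Fin (k + 1)) := fun i => finFunctionFinEquiv.symm (finProdFinEquiv.symm i).1 with hword
  refine ⟨D, fun i j => if h : i < D ∧ j < D then sW s (word ⟨i, h.1⟩) (word ⟨j, h.2⟩) else 0, ?_, ?_, ?_⟩
  · rw [hD]; exact Nat.mul_pos hT1 hK
  · intro i j
    dsimp only
    split_ifs
    · exact sW_vals s hs _ _
    · exact Or.inl rfl
  intro q r hq y hy hadm
  obtain ⟨S, c, hS, hinf⟩ := hmt (fun _ _ => (q : ℤ)) (fun g i => (r : ℤ) + (y (finProdFinEquiv (g, i)) : ℤ))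
    (fun _ _ => by exact_mod_cast hq)
    (by
      intro x x' hx
      simp only [Prod.mk.injEq, true_and, add_right_inj, Nat.cast_inj] at hx
      have h1 := finProdFinEquiv.injective (hy.injective hx)
      simpa using h1)
    (by
      intro p hp
      obtain ⟨m, hm⟩ := hadm p hp
      exact ⟨m, fun g i => hm _⟩)
  set A : Set (Fin n → Fin (k + 1)) := {w | (finFunctionFinEquiv w : Fin ((k + 1) ^ n)) ∈ S} with hA
  have hdens : 1 / 4 ≤ Pool.Agent.Helper903.DHJ.dens A := by
    unfold Pool.Agent.Helper903.DHJ.dens Pool.Agent.Helper903.DHJ.avg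
    have h1 : ∑ w, Pool.Agent.Helper903.DHJ.ind A w = (S.card : ℝ) := by
      have h2 : ∀ w : Fin n → Fin (k + 1), Pool.Agent.Helper903.DHJ.ind A w =
          if (finFunctionFinEquiv w : Fin ((k + 1) ^ n)) ∈ S then (1 : ℝ) else 0 := by
        intro w
        by_cases h : (finFunctionFinEquiv w : Fin ((k + 1) ^ n)) ∈ S
        · rw [if_pos h, Pool.Agent.Helper903.DHJ.ind_mem (show w ∈ A from h)]
        · rw [if_neg h, Pool.Agent.Helper903.DHJ.ind_not_mem (show w ∉ A from h)]
      rw [sum_congr rfl (fun w _ => h2 w),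
        Equiv.sum_comp finFunctionFinEquiv (fun t => if t ∈ S then (1 : ℝ) else 0), ← sum_filter]
      rw [filter_mem_eq_inter, univ_inter, sum_const, nsmul_eq_mul, mul_one]
    have h3 : (Fintype.card (Fin n → Fin (k + 1)) : ℝ) = T := by
      rw [Fintype.card_fun, Fintype.card_fin, Fintype.card_fin, hT]
    rw [h1, h3, le_div_iff₀ (by exact_mod_cast hT1)]
    have h4 : (T : ℝ) ≤ 4 * S.card := by exact_mod_cast hS
    linarith
  obtain ⟨L, hL⟩ := hn A hdens
  -- the vertices
  set v : Fin (k + 1) → Fin D := fun i => finProdFinEquiv (finFunctionFinEquiv (L i), c (finFunctionFinEquiv (L i))) with hv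
  have hword_v : ∀ i, word (v i) = L i := by
    intro i
    simp only [hword, hv, Equiv.symm_apply_apply]
  have hmono : StrictMono v := by
    intro i j hij
    have h1 := code_lt L hij
    rw [Fin.lt_def]
    simp only [hv, finProdFinEquiv_apply_val]
    have h2 := (c (finFunctionFinEquiv (L i))).2
    calc (c (finFunctionFinEquiv (L i)) : ℕ) + K * (finFunctionFinEquiv (L i) : ℕ) <
        K + K * (finFunctionFinEquiv (L i) : ℕ) := by omega
      _ = K * ((finFunctionFinEquiv (L i) : ℕ) + 1) := by ring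
      _ ≤ K * (finFunctionFinEquiv (L j) : ℕ) := Nat.mul_le_mul_left _ h1
      _ ≤ _ := Nat.le_add_left _ _
  refine ⟨v, hmono, fun i j hij => ?_, ?_⟩
  · have h1 : ((v i : ℕ) < D ∧ (v j : ℕ) < D) := ⟨(v i).2, (v j).2⟩
    dsimp only
    rw [dif_pos h1]
    have e1 : (⟨(v i : ℕ), h1.1⟩ : Fin D) = v i := rfl
    have e2 : (⟨(v j : ℕ), h1.2⟩ : Fin D) = v j := rfl
    rw [e1, e2, hword_v, hword_v]
    exact sW_eq s (line_pure L hij)
  · apply hinf.affine q r hq (fun n => q * n + r) (fun n _ => by push_cast; ring)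
    intro n hn
    refine ⟨?_, fun i => ?_⟩
    · unfold Nat.ModEq
      rw [Nat.mul_add_mod]
    · have h1 := (hn _ (hL i)).2
      change Prime ((q : ℤ) * (n : ℤ) + ((r : ℤ) + (y (v i) : ℤ))) at h1
      have h2 : ((q : ℤ) * (n : ℤ) + ((r : ℤ) + (y (v i) : ℤ))) = ((q * n + r + y (v i) : ℕ) : ℤ) := by
        push_cast; ring
      rw [h2] at h1
      exact Nat.prime_iff_prime_int.2 h1

end Pool.Agent.U288.SP
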