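import Pool.Agent.U288.SP.Asm3
import Pool.Agent.U288.SP.LB1
import Pool.Agent.U288.SP.MT
import Pool.Agent.Y949.DK.SV
import Pool.Agent.Y185.DK.Avg
import Pool.Agent.H732R3.QuarterB

/-! The theorem without hypotheses. -/

set_option autoImplicit false

namespace Pool.Agent.U288.SP

open Finset Filter Pool.Agent.H732R3.BigQ

/-- all `N + z i` are prime for many `N` congruent to `r` modulo `q` -/
def Good {k : ℕ} (q r : ℕ) (z : Fin (k + 1) → ℕ) : Prop := Big {N : ℕ | N ≡ r [MOD q] ∧ ∀ i, (N + z i).Prime}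

lemma good_translate {k : ℕ} (q r : ℕ) (z : Fin (k + 1) → ℕ) (hz : StrictMono z) (hq : ∀ i, q ∣ z i) (h : Good q r z) :
    Good q r (fun i => z i - z 0) := by
  have hz0 : ∀ i, z 0 ≤ z i := fun i => hz.monotone (Fin.zero_le i)
  unfold Good at h ⊢
  apply h.affine 1 (z 0) le_rfl (fun N => N + z 0) (fun n _ => by push_cast; ring)
  rintro N ⟨hN1, hN2⟩
  refine ⟨?_, fun i => ?_⟩
  · have h5 : N + z 0 ≡ r + 0 [MOD q] := hN1.add ((Nat.modEq_zero_iff_dvd).2 (hq 0))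
    simpa using h5
  · have h5 : N + z 0 + (z i - z 0) = N + z i := by
      have := hz0 i
      omega
    dsimp only
    rw [h5]
    exact hN2 i

open Classical in
theorem fin_main (k : ℕ) (s : Fin (k + 1) → Fin (k + 1) → ℤ) (hs : ∀ i j, s i j = 0 ∨ s i j = 1 ∨ s i j = -1)
    (q : ℕ) (hq : 1 ≤ q) :
    ∃ c C : ℝ, 0 < c ∧ ∀ᶠ X : ℕ in atTop,
      ((shifts s X).card : ℝ) ≤ C * ((X : ℝ) ^ k / Real.log X ^ (edg s).card) ∧
      ∀ r : ℕ, r.Coprime q → c * ((X : ℝ) ^ k / Real.log X ^ (edg s).card) ≤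
        (((shifts s X).filter (fun h => Good q r h)).card : ℝ) := by
  obtain ⟨D, sD, hD1, hsD, hpat⟩ := pattern quarterB k s hs
  obtain ⟨c, hc, h1⟩ := shifts_lower Pool.Agent.Y949.DK.t_SV Pool.Agent.Y185.DK.AV.t_AVG ext_main k s D sD hD1 hsD q hq
    (fun r z => Good q r z) (fun r z => Good q r z)
    (fun r hr y hy hQ => hpat q r hq y hy (adm q r (D.factorial * q) hr (Dvd.intro_left _ rfl)
      (fun p hp hpD => ((hp.dvd_factorial).2 hpD).mul_right _) y hQ))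
    (fun r z hz hzq h => good_translate q r z hz hzq h)
  obtain ⟨C, hC, h2⟩ := shifts_upper Pool.Agent.Y949.DK.t_SV Pool.Agent.Y185.DK.AV.t_AVG k s
  refine ⟨c, C, hc, ?_⟩
  filter_upwards [h1, h2] with X hX1 hX2
  exact ⟨hX2, hX1⟩

end Pool.Agent.U288.SP
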