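import Pool.Agent.U288.SP.Cl1

/-! The abstract principle: a set of patterns which is met by every set of `K` integers contains a positive proportion
of the patterns all of whose distances are shifted primes. -/

set_option autoImplicit false

namespace Pool.Agent.U288.SP

open Finset Filter Pool.Agent.Y851.DK

open Classical in
/-- **The principle.** Let `F` be a set of patterns such that every set of `K` numbers up to `X` contains an increasing
vector with pattern in `F`. Then `F` contains a positive proportion of the patterns up to `X` all of whose distances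
satisfy the condition `σ`. -/
theorem principle (k K : ℕ) (hK : k + 1 ≤ K) (σ : ℤ) (hσ : σ = 0 ∨ σ = 1 ∨ σ = -1) :
    ∃ c : ℝ, 0 < c ∧ ∀ᶠ X : ℕ in atTop, ∀ F : (Fin (k + 1) → ℕ) → Prop,
      (∀ S ⊆ range (X + 1), S.card = K → ∃ z : Fin (k + 1) → ℕ, StrictMono z ∧ (∀ i, z i ∈ S) ∧
        F (fun i => z i - z 0)) →
      c * ((X : ℝ) ^ k / Real.log X ^ (edg (fun _ _ : Fin (k + 1) => σ)).card) ≤
        (((shifts (fun _ _ : Fin (k + 1) => σ) X).filter F).card : ℝ) := by
  -- the index codes `X` and the set of the good patterns up to `X`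
  set mM : ℕ → ℕ := fun r => (Nat.unpair r).1 with hmM
  set mF : ℕ → Finset (Fin (k + 1) → ℕ) := fun r =>
    ((Encodable.decode (α := Finset (Fin (k + 1) → ℕ)) (Nat.unpair r).2).getD ∅) with hmF
  set Ram : ℕ → Prop := fun r => ∀ S ⊆ range (mM r + 1), S.card = K → ∃ z : Fin (k + 1) → ℕ, StrictMono z ∧
    (∀ i, z i ∈ S) ∧ (fun i => z i - z 0) ∈ mF r with hRam
  obtain ⟨c, hc, h3⟩ := shifts_lower2 Pool.Agent.Y949.DK.t_SV Pool.Agent.Y185.DK.AV.t_AVG ext_main k
    (fun _ _ => σ) K (fun _ _ => σ) (by omega) (fun _ _ => hσ)
    (fun r z => (∃ i, mM r < z i) ∨ ¬ Ram r ∨ (fun i => z i - z 0) ∈ mF r)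
    (fun r h => h ∈ mF r) (fun X => {r | mM r = X ∧ Ram r})
    (by
      intro r y hy
      by_cases ha : ∃ i, mM r < y i
      · obtain ⟨i, hi⟩ := ha
        refine ⟨fun a => ⟨K - (k + 1) + a, by omega⟩, fun a b hab => ?_, fun _ _ _ => rfl, Or.inl ⟨Fin.last k, ?_⟩⟩
        · rw [Fin.lt_def] at hab ⊢
          dsimp only
          omega
        · refine hi.trans_le (hy.monotone ?_)
          rw [Fin.le_def]
          have := i.2
          simp only [Fin.val_last]
          omega
      · push Not at ha
        by_cases hb : Ram r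
        · obtain ⟨z, hz1, hz2, hz3⟩ := hb (univ.image y)
            (by
              intro a ha'
              obtain ⟨i, _, rfl⟩ := mem_image.1 ha'
              rw [mem_range]
              have := ha i
              omega)
            (by rw [card_image_of_injective _ hy.injective, card_univ, Fintype.card_fin])
          have h4 : ∀ a, ∃ i, y i = z a := fun a => by
            obtain ⟨i, _, hi⟩ := mem_image.1 (hz2 a)
            exact ⟨i, hi⟩
          choose v hv using h4
          refine ⟨v, fun a b hab => ?_, fun _ _ _ => rfl, Or.inr (Or.inr ?_)⟩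
          · have h5 := hz1 hab
            rw [← hv a, ← hv b] at h5
            exact hy.lt_iff_lt.1 h5
          · have h5 : (fun a => y (v a)) = z := funext hv
            have h6 : (fun i => y (v i) - y (v 0)) = (fun i => z i - z 0) := by
              funext i
              rw [hv i, hv 0]
            dsimp only
            rw [h6]
            exact hz3
        · exact ⟨Fin.castLE hK, Fin.strictMono_castLE hK, fun _ _ _ => rfl, Or.inr (Or.inl hb)⟩)
    (by
      intro X r z hr hz hzX hG
      obtain ⟨hr1, hr2⟩ := hr
      rcases hG with ⟨i, hi⟩ | hG | hG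
      · exact absurd (hzX i) (by rw [← hr1]; exact not_le.2 hi)
      · exact absurd hr2 hG
      · exact hG)
  refine ⟨c, hc, ?_⟩
  filter_upwards [h3] with X hX F hF
  -- the good patterns up to `X`
  set Fs : Finset (Fin (k + 1) → ℕ) := (Fintype.piFinset (fun _ : Fin (k + 1) => range (X + 1))).filter F with hFs
  have h5 := hX (Nat.pair X (Encodable.encode Fs)) (by
    have e1 : mM (Nat.pair X (Encodable.encode Fs)) = X := by rw [hmM]; simp only [Nat.unpair_pair]
    have e2 : mF (Nat.pair X (Encodable.encode Fs)) = Fs := by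
      rw [hmF]
      simp only [Nat.unpair_pair, Encodable.encodek, Option.getD_some]
    refine ⟨e1, ?_⟩
    rw [hRam]
    dsimp only
    rw [e1, e2]
    intro S hS hSc
    obtain ⟨z, hz1, hz2, hz3⟩ := hF S hS hSc
    refine ⟨z, hz1, hz2, ?_⟩
    rw [hFs, mem_filter, Fintype.mem_piFinset]
    refine ⟨fun i => ?_, hz3⟩
    have := mem_range.1 (hS (hz2 i))
    rw [mem_range]
    omega)
  refine h5.trans ?_
  rw [Nat.cast_le]
  apply card_le_card
  intro h hh
  have e2 : mF (Nat.pair X (Encodable.encode Fs)) = Fs := by
    rw [hmF]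
    simp only [Nat.unpair_pair, Encodable.encodek, Option.getD_some]
  have hh' := (@Finset.mem_filter _ _ (fun a => Classical.propDecidable _) _ _).1 hh
  rw [mem_filter]
  refine ⟨hh'.1, ?_⟩
  have h6 := hh'.2
  rw [e2, hFs] at h6
  exact (mem_filter.1 h6).2

end Pool.Agent.U288.SP
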