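import Pool.Agent.U288.SP.Cl0
import Pool.Agent.U288.SP.Cl3
import Pool.Agent.X34.E.E7

/-! Narrow progressions of primes `p` such that the next prime is `p + d`: the shifted primes `d`. -/

set_option autoImplicit false

namespace Pool.Agent.U288.SP

open Finset Filter

/-- a large set of integers has `t` elements which are in one class modulo `M`, and form an admissible set -/
lemma adm_subset (t M : ℕ) (hM : 0 < M) (hdiv : ∀ p : ℕ, p.Prime → p ≤ t → p ∣ M) (S : Finset ℤ)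
    (hS : t * M + 1 ≤ S.card) : ∃ T ⊆ S, T.card = t ∧ Pool.Agent.X34.E.Adm T ∧
      ∃ x : ℤ, ∀ s ∈ T, (M : ℤ) ∣ s - x := by
  classical
  have hM' : (0 : ℤ) < M := by exact_mod_cast hM
  have h1 : ∃ x ∈ Ico (0 : ℤ) M, t < (S.filter (fun s => s % M = x)).card := by
    apply exists_lt_card_fiber_of_mul_lt_card_of_maps_to
    · intro s _
      exact mem_Ico.2 ⟨Int.emod_nonneg _ hM'.ne', Int.emod_lt_of_pos _ hM'⟩
    · rw [Int.card_Ico, sub_zero, Int.toNat_natCast]
      nlinarith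
  obtain ⟨x, hx, h2⟩ := h1
  obtain ⟨T, hT, hTc⟩ := exists_subset_card_eq h2.le
  have h3 : ∀ s ∈ T, (M : ℤ) ∣ s - x := by
    intro s hs
    have h4 := (mem_filter.1 (hT hs)).2
    rw [← h4]
    exact Int.dvd_self_sub_emod
  refine ⟨T, hT.trans (filter_subset _ _), hTc, ?_, x, h3⟩
  intro p hp
  have hp0 : (0 : ℤ) < p := by exact_mod_cast hp.pos
  by_cases hpt : p ≤ t
  · refine ⟨1 - x, fun s hs hd => ?_⟩
    have h4 : (p : ℤ) ∣ s - x := (Int.natCast_dvd_natCast.2 (hdiv p hp hpt)).trans (h3 s hs)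
    have h5 : (p : ℤ) ∣ 1 := by
      have h6 : (1 : ℤ) = (1 - x + s) - (s - x) := by ring
      rw [h6]
      exact dvd_sub hd h4
    have h6 := Int.natCast_dvd_natCast.1 (show ((p : ℕ) : ℤ) ∣ ((1 : ℕ) : ℤ) by exact_mod_cast h5)
    exact hp.one_lt.ne' (Nat.dvd_one.1 h6)
  · push Not at hpt
    by_contra hcon
    push Not at hcon
    have h4 : (Ico (0 : ℤ) p) ⊆ T.image (fun s => (-s) % (p : ℤ)) := by
      intro r hr
      obtain ⟨hr0, hrp⟩ := mem_Ico.1 hr
      obtain ⟨s, hs, hd⟩ := hcon r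
      refine mem_image.2 ⟨s, hs, ?_⟩
      have h5 : (p : ℤ) ∣ r - -s := by rwa [sub_neg_eq_add]
      rw [← Int.emod_eq_emod_iff_emod_sub_eq_zero.2 (Int.emod_eq_zero_of_dvd h5), Int.emod_eq_of_lt hr0 hrp]
    have h5 := (card_le_card h4).trans card_image_le
    rw [Int.card_Ico, sub_zero, Int.toNat_natCast, hTc] at h5
    omega

/-- `d` occurs as the distance between a prime and the next one, both in the class `a` modulo `q`, at all the terms of
many narrow progressions of any length; the pattern of the primes in any neighbourhood is the same at all these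
terms, and all these primes are in the class -/
def GapN (q : ℕ) (a : ℤ) (d : ℕ) : Prop :=
  ∃ P : Finset ℤ, 0 ∈ P ∧ (d : ℤ) ∈ P ∧ (∀ z ∈ P, z ≤ 0 ∨ (d : ℤ) ≤ z) ∧ (∀ z ∈ P, (q : ℤ) ∣ z) ∧
    ∀ l R : ℕ, ∃ C : ℕ, ∃ᶠ N : ℕ in atTop, ∃ D : ℕ, 1 ≤ D ∧ (D : ℝ) ≤ Real.log N ^ C ∧
      (N : ℝ) / Real.log N ^ C ≤ (Set.ncard {n : ℕ | 1 ≤ n ∧ n ≤ N ∧ ∀ j < l, ((n + j * D : ℕ) : ℤ) ≡ a [ZMOD q] ∧
        ∀ m : ℕ, |(m : ℤ) - ((n + j * D : ℕ) : ℤ)| ≤ R → (m.Prime ↔ (m : ℤ) - ((n + j * D : ℕ) : ℤ) ∈ P)} : ℝ)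

/-- every large set of integers contains two with such a distance -/
theorem gap_ramsey (hE : Pool.Agent.X34.E.Eng) (q : ℕ) (hq : 0 < q) (a : ℤ) (ha : IsCoprime a (q : ℤ)) :
    ∃ K : ℕ, 2 ≤ K ∧ ∀ S : Finset ℕ, S.card = K → ∃ z0 z1 : ℕ, z0 ∈ S ∧ z1 ∈ S ∧ z0 < z1 ∧
      GapN q a (z1 - z0) := by
  classical
  obtain ⟨M, hM⟩ : ∃ M, M = Nat.factorial 45 * q := ⟨_, rfl⟩
  have hM0 : 0 < M := by rw [hM]; positivity
  refine ⟨45 * M + 1, by omega, fun S hS => ?_⟩
  obtain ⟨S', hS'⟩ : ∃ S' : Finset ℤ, S' = S.image (fun n : ℕ => (n : ℤ)) := ⟨_, rfl⟩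
  have hS'c : S'.card = S.card := by
    rw [hS', card_image_of_injective _ Nat.cast_injective]
  obtain ⟨T, hTS, hTc, hTa, x, hTx⟩ := adm_subset 45 M hM0 (fun p hp hpt => by
    rw [hM]
    exact (hp.dvd_factorial.2 hpt).mul_right _) S' (by rw [hS'c, hS])
  have hqM : (q : ℤ) ∣ M := by
    rw [hM]
    push_cast
    exact dvd_mul_left _ _
  obtain ⟨P, hPT, hP2, hPR⟩ := Pool.Agent.X34.E.nar_exact hE T hTc.ge hTa q (a - x) hq (fun s hs => by
    obtain ⟨y, hy⟩ := hqM.trans (hTx s hs)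
    have h1 : a - x + s = a + (q : ℤ) * y := by rw [← hy]; ring
    rw [h1]
    exact IsCoprime.add_mul_left_left ha y)
  -- the least two elements of `P`
  have hPne : P.Nonempty := by rw [← card_pos]; omega
  obtain ⟨z0, hz0, hz0m⟩ := exists_min_image P id hPne
  have hPne' : (P.erase z0).Nonempty := by
    rw [← card_pos, card_erase_of_mem hz0]
    omega
  obtain ⟨z1, hz1, hz1m⟩ := exists_min_image (P.erase z0) id hPne'
  simp only [id_eq] at hz0m hz1m
  obtain ⟨hz10, hz1P⟩ := mem_erase.1 hz1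
  have hlt : z0 < z1 := lt_of_le_of_ne (hz0m z1 hz1P) (Ne.symm hz10)
  have hmem : ∀ z ∈ P, ∃ n ∈ S, (n : ℤ) = z := by
    intro z hz
    have h1 := hTS (hPT hz)
    rw [hS'] at h1
    obtain ⟨n, hn, h2⟩ := mem_image.1 h1
    exact ⟨n, hn, h2⟩
  obtain ⟨n0, hn0, hn0z⟩ := hmem z0 hz0
  obtain ⟨n1, hn1, hn1z⟩ := hmem z1 hz1P
  have hn01 : n0 < n1 := by
    have : (n0 : ℤ) < n1 := by rw [hn0z, hn1z]; exact hlt
    exact_mod_cast this
  refine ⟨n0, n1, hn0, hn1, hn01, P.image (fun z => z - z0), ?_, ?_, ?_, ?_, fun l R => ?_⟩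
  · exact mem_image.2 ⟨z0, hz0, by ring⟩
  · refine mem_image.2 ⟨z1, hz1P, ?_⟩
    rw [Nat.cast_sub hn01.le, hn0z, hn1z]
  · intro z hz
    obtain ⟨y, hy, rfl⟩ := mem_image.1 hz
    by_cases h1 : y = z0
    · left
      rw [h1, sub_self]
    · right
      have h2 := hz1m y (mem_erase.2 ⟨h1, hy⟩)
      rw [Nat.cast_sub hn01.le, hn0z, hn1z]
      linarith
  · intro z hz
    obtain ⟨y, hy, rfl⟩ := mem_image.1 hz
    have h1 := hTx y (hPT hy)
    have h2 := hTx z0 (hPT hz0)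
    have h3 : y - z0 = (y - x) - (z0 - x) := by ring
    rw [h3]
    exact dvd_sub (hqM.trans h1) (hqM.trans h2)
  · have h1 : Pool.Agent.X34.E.Nar (fun n => (n : ℤ) ≡ a [ZMOD q] ∧
        ∀ m : ℕ, |(m : ℤ) - (n : ℤ)| ≤ R → (m.Prime ↔ (m : ℤ) - (n : ℤ) ∈ P.image (fun z => z - z0))) := by
      apply Pool.Agent.X34.E.Nar.affine (q := 1) (b := n0) one_pos
      refine (hPR (R + n0)).mono ?_
      rintro n ⟨h1, h2⟩
      refine ⟨?_, fun m hm => ?_⟩
      · push_cast
        rw [hn0z]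
        have h3 := h1.add_right z0
        rw [Int.modEq_iff_dvd] at h3 ⊢
        have h4 := hqM.trans (hTx z0 (hPT hz0))
        have h5 : a - (1 * (n : ℤ) + z0) = (a - x + z0 - (n + z0)) - (z0 - x) := by ring
        rw [h5]
        exact dvd_sub h3 h4
      · push_cast at hm ⊢
        rw [hn0z] at hm ⊢
        have h3 : |(m : ℤ) - n| ≤ ((R + n0 : ℕ) : ℤ) := by
          push_cast
          rw [hn0z, abs_le]
          rw [abs_le] at hm
          have h4 : (0 : ℤ) ≤ z0 := by rw [← hn0z]; positivity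
          constructor
          · linarith [hm.1]
          · linarith [hm.2]
        have h4 := h2 ((m : ℤ) - n) h3
        have h5 : m.Prime ↔ (m : ℤ) - n ∈ P := by
          rw [← h4]
          constructor
          · intro h6
            exact ⟨m, h6, by ring⟩
          · rintro ⟨p, hp1, hp2⟩
            have h7 : p = m := by
              have : (p : ℤ) = m := by rw [hp2]; ring
              exact_mod_cast this
            rw [← h7]; exact hp1
        rw [h5]
        constructor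
        · intro h6
          exact mem_image.2 ⟨_, h6, by ring⟩
        · intro h6
          obtain ⟨y, hy, hyz⟩ := mem_image.1 h6
          have h7 : y = (m : ℤ) - n := by linarith
          rw [← h7]
          exact hy
    obtain ⟨C, hC⟩ := h1 l
    refine ⟨C, hC.mono ?_⟩
    rintro N ⟨D, h2, h3, h4⟩
    refine ⟨D, h2, h3, h4.trans ?_⟩
    rw [← Set.ncard_coe_finset, Nat.cast_le]
    apply Set.ncard_le_ncard
    · intro n hn
      simp only [coe_filter, mem_Icc, Set.mem_setOf_eq] at hn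
      exact ⟨hn.1.1, hn.1.2, fun j hj => hn.2 j hj⟩
    · exact (Set.finite_Iic N).subset fun n hn => hn.2.1

open Classical in
/-- a positive proportion of the shifted primes up to `X` are such distances -/
theorem gap_shifts (hE : Pool.Agent.X34.E.Eng) (q : ℕ) (hq : 0 < q) (a : ℤ) (ha : IsCoprime a (q : ℤ))
    (σ : ℤ) (hσ : σ = 1 ∨ σ = -1) : ∃ c : ℝ, 0 < c ∧ ∀ᶠ X : ℕ in atTop,
      c * ((X : ℝ) / Real.log X) ≤
        (((Icc 1 X).filter (fun d : ℕ => ((d : ℤ) + σ).toNat.Prime ∧ GapN q a d)).card : ℝ) := by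
  obtain ⟨K, hK2, hK⟩ := gap_ramsey hE q hq a ha
  obtain ⟨c, hc, h1⟩ := principle 1 K hK2 σ (Or.inr hσ)
  refine ⟨c, hc, ?_⟩
  filter_upwards [h1] with X hX
  have h2 := hX (fun h => GapN q a (h 1)) (fun S _ hSc => by
    obtain ⟨z0, z1, h3, h4, h5, h6⟩ := hK S hSc
    refine ⟨![z0, z1], ?_, ?_, ?_⟩
    · intro i j hij
      fin_cases i <;> fin_cases j <;> simp_all
    · intro i
      fin_cases i
      · exact h3
      · exact h4
    · show GapN q a (![z0, z1] 1 - ![z0, z1] 0)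
      simpa using h6)
  have hσ0 : σ ≠ 0 := by rcases hσ with rfl | rfl <;> norm_num
  rw [edg_const, if_neg hσ0] at h2
  norm_num at h2
  refine h2.trans ?_
  rw [Nat.cast_le]
  apply card_le_card_of_injOn (fun h : Fin 2 → ℕ => h 1)
  · intro h hh
    rw [mem_coe, mem_filter] at hh
    obtain ⟨h3, h4⟩ := hh
    unfold shifts at h3
    rw [mem_filter, Fintype.mem_piFinset] at h3
    obtain ⟨h5, h6, h7, h8⟩ := h3
    have h9 : h 0 < h 1 := h7 (by decide)
    have h10 := h8 0 1 (by decide) hσ0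
    rw [h6] at h10
    have h11 := mem_range.1 (h5 1)
    rw [mem_coe, mem_filter, mem_Icc]
    refine ⟨⟨?_, ?_⟩, ?_, h4⟩
    · show 1 ≤ h 1
      omega
    · show h 1 ≤ X
      omega
    · show ((h 1 : ℤ) + σ).toNat.Prime
      simpa using h10
  · intro h hh h' hh' he
    rw [mem_coe, mem_filter] at hh hh'
    have h3 := hh.1
    have h3' := hh'.1
    unfold shifts at h3 h3'
    rw [mem_filter] at h3 h3'
    funext i
    fin_cases i
    · exact h3.2.1.trans h3'.2.1.symm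
    · exact he

end Pool.Agent.U288.SP
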