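import Pool.Agent.U288.SP.Cl3
import Pool.Agent.N913.MG.R3

/-! A prime plus a square: the patterns of shifted primes among the roots. -/

set_option autoImplicit false

namespace Pool.Agent.U288.SP

open Finset Filter

/-- intersections of a family of large subsets -/
lemma inter_large {ι : Type*} [DecidableEq ι] (T : Finset ι) (W : Finset ℕ) (G : ι → Finset ℕ) (ε : ℝ)
    (hG : ∀ S ∈ T, G S ⊆ W ∧ (1 - ε / (T.card + 1)) * W.card ≤ (G S).card) (hε : 0 < ε) :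
    (1 - ε) * W.card ≤ ((W.filter (fun J => ∀ S ∈ T, J ∈ G S)).card : ℝ) := by
  classical
  have h1 : W ⊆ (W.filter (fun J => ∀ S ∈ T, J ∈ G S)) ∪ T.biUnion (fun S => W \ G S) := by
    intro J hJ
    by_cases h : ∀ S ∈ T, J ∈ G S
    · exact mem_union_left _ (mem_filter.2 ⟨hJ, h⟩)
    · push Not at h
      obtain ⟨S, hS, hJS⟩ := h
      exact mem_union_right _ (mem_biUnion.2 ⟨S, hS, mem_sdiff.2 ⟨hJ, hJS⟩⟩)
  have h2 := (card_le_card h1).trans (card_union_le _ _)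
  have h3 : ((T.biUnion (fun S => W \ G S)).card : ℝ) ≤ ∑ S ∈ T, ((W \ G S).card : ℝ) := by
    exact_mod_cast card_biUnion_le
  have h4 : ∑ S ∈ T, ((W \ G S).card : ℝ) ≤ ∑ _S ∈ T, ε / (T.card + 1) * W.card := by
    apply sum_le_sum
    intro S hS
    obtain ⟨h5, h6⟩ := hG S hS
    have h7 : ((W \ G S).card : ℝ) = W.card - (G S).card := by
      have := card_sdiff_add_card_eq_card h5
      have h8 : (((W \ G S).card + (G S).card : ℕ) : ℝ) = W.card := by exact_mod_cast this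
      push_cast at h8
      linarith
    rw [h7]
    linarith
  rw [sum_const, nsmul_eq_mul] at h4
  have h5 : (T.card : ℝ) * (ε / (T.card + 1) * W.card) ≤ ε * W.card := by
    have h6 : (0 : ℝ) < (T.card : ℝ) + 1 := by positivity
    have h7 : (T.card : ℝ) * (ε / (T.card + 1)) ≤ ε := by
      rw [mul_div_assoc', div_le_iff₀ h6]
      nlinarith
    have h8 : (0 : ℝ) ≤ W.card := Nat.cast_nonneg _
    calc (T.card : ℝ) * (ε / (T.card + 1) * W.card) = ((T.card : ℝ) * (ε / (T.card + 1))) * W.card := by ring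
      _ ≤ ε * W.card := mul_le_mul_of_nonneg_right h7 h8
  have h6 : (W.card : ℝ) ≤ ((W.filter (fun J => ∀ S ∈ T, J ∈ G S)).card : ℝ) +
      ((T.biUnion (fun S => W \ G S)).card : ℝ) := by exact_mod_cast h2
  linarith

open Classical in
theorem square_shifts (k : ℕ) (σ : ℤ) (hσ : σ = 0 ∨ σ = 1 ∨ σ = -1) : ∃ (c c' : ℝ) (B : ℕ), 0 < c ∧
    ∀ᶠ Y : ℕ in atTop, ((shifts (fun _ _ : Fin (k + 1) => σ) Y).card : ℝ) ≤
      c' * ((Y : ℝ) ^ k / Real.log Y ^ (edg (fun _ _ : Fin (k + 1) => σ)).card) ∧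
    ∀ (C : ℕ) (ε : ℝ), 0 < ε → ∃ X₀ : ℕ, ∀ X : ℕ, X₀ ≤ X → ∀ W : Finset ℕ, (∀ J ∈ W, (J : ℝ) ≤ Real.log X ^ C) →
    ∃ Bad ⊆ Icc 1 X, (Bad.card : ℝ) ≤ ε * X ∧ ∀ N ∈ Icc 1 X, N ∉ Bad →
      ∃ G ⊆ W, (1 - ε) * W.card ≤ G.card ∧ ∀ J ∈ G,
        c * ((Y : ℝ) ^ k / Real.log Y ^ (edg (fun _ _ : Fin (k + 1) => σ)).card) ≤
          (((shifts (fun _ _ : Fin (k + 1) => σ) Y).filter (fun h => ∃ u : ℕ,
            Real.sqrt N - J - Real.log X ^ B ≤ u ∧ (u : ℝ) ≤ Real.sqrt N - J ∧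
              ∀ i, (N - (u + h i) ^ 2).Prime)).card : ℝ) := by
  obtain ⟨K0, B, hK⟩ := Pool.Agent.N913.MG.primeSquare (k + 1)
  obtain ⟨K, hKdef⟩ : ∃ K, K = max K0 (k + 1) := ⟨_, rfl⟩
  have hK0K : K0 ≤ K := by rw [hKdef]; exact le_max_left _ _
  obtain ⟨c, hc, h1⟩ := principle k K (by rw [hKdef]; exact le_max_right _ _) σ hσ
  obtain ⟨c', -, h2⟩ := shifts_upper Pool.Agent.Y949.DK.t_SV Pool.Agent.Y185.DK.AV.t_AVG k
    (fun _ _ : Fin (k + 1) => σ)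
  refine ⟨c, c', B + 1, hc, ?_⟩
  filter_upwards [h1, h2] with Y hY1 hY2
  refine ⟨hY2, fun C ε hε => ?_⟩
  -- the family of the sets
  obtain ⟨T, hT⟩ : ∃ T, T = ((range (Y + 1)).powerset).filter (fun S => S.card = K) := ⟨_, rfl⟩
  obtain ⟨ε', hε'⟩ : ∃ ε' : ℝ, ε' = ε / (T.card + 1) := ⟨_, rfl⟩
  have hε'0 : 0 < ε' := by rw [hε']; positivity
  have hTK : ∀ S ∈ T, K0 ≤ S.card := by
    intro S hS
    rw [hT, mem_filter] at hS
    rw [hS.2]
    exact hK0K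
  have h3 : ∀ S : Finset ℕ, ∃ X₀ : ℕ, S ∈ T → ∀ X : ℕ, X₀ ≤ X → ∀ W : Finset ℕ,
      (∀ J ∈ W, (J : ℝ) ≤ Real.log X ^ (C + 1)) →
      ∃ Bad ⊆ Icc 1 X, (Bad.card : ℝ) ≤ ε' * X ∧ ∀ N ∈ Icc 1 X, N ∉ Bad →
      ∃ G ⊆ W, (1 - ε') * W.card ≤ G.card ∧ ∀ J ∈ G, ∃ u : ℕ,
        Real.sqrt N - J - Real.log X ^ B ≤ u ∧ (u : ℝ) ≤ Real.sqrt N - J ∧
        k + 1 ≤ (S.filter (fun h => (N - (u + h) ^ 2).Prime)).card := by
    intro S
    by_cases hS : S ∈ T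
    · obtain ⟨X₀, hX₀⟩ := hK S (hTK S hS) (C + 1) ε' hε'0
      exact ⟨X₀, fun _ => hX₀⟩
    · exact ⟨0, fun h => absurd h hS⟩
  choose X0 hX0 using h3
  obtain ⟨X1, hX1⟩ := eventually_atTop.1 ((Real.tendsto_log_atTop.comp
    tendsto_natCast_atTop_atTop).eventually_ge_atTop ((Y : ℝ) + 2))
  refine ⟨max X1 (T.sup X0), fun X hX W hW => ?_⟩
  have hlog : (Y : ℝ) + 2 ≤ Real.log X := hX1 X ((le_max_left _ _).trans hX)
  have hY0 : (0 : ℝ) ≤ Y := Nat.cast_nonneg _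
  have hlog1 : 1 ≤ Real.log X := by linarith
  have hstep : ∀ n : ℕ, Real.log X ^ n + Y ≤ Real.log X ^ (n + 1) := by
    intro n
    have h4 : 1 ≤ Real.log X ^ n := one_le_pow₀ hlog1
    rw [pow_succ]
    nlinarith
  obtain ⟨W', hW'⟩ : ∃ W', W' = W.image (fun J => J + Y) := ⟨_, rfl⟩
  have hW'c : W'.card = W.card := by
    rw [hW', card_image_of_injective]
    intro a b hab
    simpa using hab
  have hW'b : ∀ J ∈ W', (J : ℝ) ≤ Real.log X ^ (C + 1) := by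
    intro J hJ
    rw [hW', mem_image] at hJ
    obtain ⟨J', hJ', rfl⟩ := hJ
    push_cast
    linarith [hW J' hJ', hstep C]
  have h4 : ∀ S : Finset ℕ, ∃ Bad ⊆ Icc 1 X, (Bad.card : ℝ) ≤ ε' * X ∧ (S ∈ T → ∀ N ∈ Icc 1 X, N ∉ Bad →
      ∃ G ⊆ W', (1 - ε') * W'.card ≤ G.card ∧ ∀ J ∈ G, ∃ u : ℕ,
        Real.sqrt N - J - Real.log X ^ B ≤ u ∧ (u : ℝ) ≤ Real.sqrt N - J ∧
        k + 1 ≤ (S.filter (fun h => (N - (u + h) ^ 2).Prime)).card) := by
    intro S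
    by_cases hS : S ∈ T
    · obtain ⟨Bad, hB1, hB2, hB3⟩ := hX0 S hS X ((Finset.le_sup (f := X0) hS).trans
        ((le_max_right _ _).trans hX)) W' hW'b
      exact ⟨Bad, hB1, hB2, fun _ => hB3⟩
    · exact ⟨∅, empty_subset _, by simp; positivity, fun h => absurd h hS⟩
  choose Bd hBd1 hBd2 hBd3 using h4
  refine ⟨T.biUnion Bd, biUnion_subset.2 fun S _ => hBd1 S, ?_, ?_⟩
  · have h5 : ((T.biUnion Bd).card : ℝ) ≤ ∑ S ∈ T, ((Bd S).card : ℝ) := by exact_mod_cast card_biUnion_le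
    have h6 : ∑ S ∈ T, ((Bd S).card : ℝ) ≤ ∑ _S ∈ T, ε' * X := sum_le_sum fun S _ => hBd2 S
    rw [sum_const, nsmul_eq_mul] at h6
    have h7 : (0 : ℝ) < (T.card : ℝ) + 1 := by positivity
    have h8 : (T.card : ℝ) * ε' ≤ ε := by
      rw [hε', mul_div_assoc', div_le_iff₀ h7]
      nlinarith
    have h9 : (0 : ℝ) ≤ X := Nat.cast_nonneg _
    calc ((T.biUnion Bd).card : ℝ) ≤ (T.card : ℝ) * (ε' * X) := h5.trans h6
      _ = ((T.card : ℝ) * ε') * X := by ring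
      _ ≤ ε * X := mul_le_mul_of_nonneg_right h8 h9
  · intro N hN hNB
    have h5 : ∀ S : Finset ℕ, ∃ G ⊆ W', (S ∈ T → (1 - ε') * W'.card ≤ G.card) ∧ (S ∈ T → ∀ J ∈ G, ∃ u : ℕ,
        Real.sqrt N - J - Real.log X ^ B ≤ u ∧ (u : ℝ) ≤ Real.sqrt N - J ∧
        k + 1 ≤ (S.filter (fun h => (N - (u + h) ^ 2).Prime)).card) := by
      intro S
      by_cases hS : S ∈ T
      · obtain ⟨G, hG1, hG2, hG3⟩ := hBd3 S hS N hN (fun h => hNB (mem_biUnion.2 ⟨S, hS, h⟩))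
        exact ⟨G, hG1, fun _ => hG2, fun _ => hG3⟩
      · exact ⟨∅, empty_subset _, fun h => absurd h hS, fun h => absurd h hS⟩
    choose Gs hG1 hG2 hG3 using h5
    have h6 := inter_large T W' Gs ε (fun S hS => ⟨hG1 S, by rw [← hε']; exact hG2 S hS⟩) hε
    refine ⟨W.filter (fun J => ∀ S ∈ T, J + Y ∈ Gs S), filter_subset _ _, ?_, ?_⟩
    · rw [hW'c] at h6
      refine h6.trans ?_
      rw [Nat.cast_le]
      rw [← card_image_of_injective (W.filter (fun J => ∀ S ∈ T, J + Y ∈ Gs S)) (f := fun J => J + Y)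
        (by intro a b hab; simpa using hab)]
      apply card_le_card
      intro J hJ
      rw [mem_filter, hW', mem_image] at hJ
      obtain ⟨⟨J', hJ', rfl⟩, hJ2⟩ := hJ
      exact mem_image.2 ⟨J', mem_filter.2 ⟨hJ', hJ2⟩, rfl⟩
    · intro J hJ
      have hJ2 := (mem_filter.1 hJ).2
      apply hY1
      intro S hS hSc
      have hST : S ∈ T := by
        rw [hT, mem_filter, mem_powerset]
        exact ⟨hS, hSc⟩
      obtain ⟨u, hu1, hu2, hu3⟩ := hG3 S hST (J + Y) (hJ2 S hST)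
      obtain ⟨H, hHS, hHc⟩ := Finset.exists_subset_card_eq hu3
      refine ⟨H.orderEmbOfFin hHc, (H.orderEmbOfFin hHc).strictMono,
        fun i => (mem_filter.1 (hHS (H.orderEmbOfFin_mem hHc i))).1, ?_⟩
      obtain ⟨z, hz⟩ : ∃ z : Fin (k + 1) → ℕ, z = H.orderEmbOfFin hHc := ⟨_, rfl⟩
      rw [← hz]
      have hzm : StrictMono z := by rw [hz]; exact (H.orderEmbOfFin hHc).strictMono
      have hzp : ∀ i, (N - (u + z i) ^ 2).Prime := fun i => by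
        rw [hz]
        exact (mem_filter.1 (hHS (H.orderEmbOfFin_mem hHc i))).2
      have hzY : z 0 ≤ Y := by
        have h7 : z 0 ∈ S := by rw [hz]; exact (mem_filter.1 (hHS (H.orderEmbOfFin_mem hHc 0))).1
        have := mem_range.1 (hS h7)
        omega
      have hzYr : (z 0 : ℝ) ≤ Y := by exact_mod_cast hzY
      have hz0r : (0 : ℝ) ≤ z 0 := Nat.cast_nonneg _
      refine ⟨u + z 0, ?_, ?_, fun i => ?_⟩
      · push_cast at hu1 ⊢
        linarith [hstep B]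
      · push_cast at hu2 ⊢
        linarith
      · have h7 : z 0 ≤ z i := hzm.monotone (Fin.zero_le i)
        have h8 : u + z 0 + (z i - z 0) = u + z i := by omega
        dsimp only
        rw [h8]
        exact hzp i

end Pool.Agent.U288.SP
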