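import Pool.Agent.U288.SP.Cl1
import Pool.Agent.U288.SP.Cl0
import Pool.Agent.R498.MT.QSys

/-! Almost prime values of quadratic polynomials at the points of patterns all of whose distances are shifted
primes. -/

set_option autoImplicit false

namespace Pool.Agent.U288.SP

open Finset Filter Polynomial

/-- `n ≠ 0` is up to the sign a product of at most `r` primes, counted with multiplicity, all of them at least
`w` -/
def APr (r : ℕ) (w : ℝ) (n : ℤ) : Prop :=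
  n ≠ 0 ∧ n.natAbs.primeFactorsList.length ≤ r ∧ ∀ q : ℕ, q.Prime → (q : ℤ) ∣ n → w ≤ q

lemma APr.mono {r r' : ℕ} {w w' : ℝ} {n : ℤ} (h : APr r w n) (hr : r ≤ r') (hw : w' ≤ w) : APr r' w' n :=
  ⟨h.1, h.2.1.trans hr, fun q hq hd => hw.trans (h.2.2 q hq hd)⟩

/-- the pattern `h` occurs at all the terms of a narrow progression of length `l` in the window
`(N, N + κ N ^ (3/4)]` -/
def Occ {k : ℕ} (A B C : ℤ) (f : ℤ[X]) (κ : ℝ) (r : ℕ) (δ : ℝ) (l b N : ℕ) (h : Fin (k + 1) → ℕ) : Prop :=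
  ∃ n d : ℕ, 1 ≤ d ∧ (d : ℝ) ≤ Real.log N ^ b ∧ ∀ j < l, N < n + j * d ∧
    ((n + j * d : ℕ) : ℝ) ≤ N + κ * (N : ℝ) ^ (3 / 4 : ℝ) ∧ ∀ i,
      APr 3 ((N : ℝ) ^ (73 / 400 : ℝ)) (A * ((n + j * d + h i : ℕ) : ℤ) ^ 2 + B * ((n + j * d + h i : ℕ) : ℤ) + C) ∧
      APr r ((N : ℝ) ^ δ) (f.eval ((n + j * d + h i : ℕ) : ℤ))

lemma Occ.mono {k : ℕ} {A B C : ℤ} {f : ℤ[X]} {κ : ℝ} {r r' : ℕ} {δ δ' : ℝ} {l b b' N : ℕ} {h : Fin (k + 1) → ℕ}
    (H : Occ A B C f κ r δ l b N h) (hN : 3 ≤ N) (hr : r ≤ r') (hδ : δ' ≤ δ) (hb : b ≤ b') :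
    Occ A B C f κ r' δ' l b' N h := by
  obtain ⟨n, d, h1, h2, h3⟩ := H
  have hNr : (3 : ℝ) ≤ N := by exact_mod_cast hN
  refine ⟨n, d, h1, h2.trans ?_, fun j hj => ?_⟩
  · apply pow_le_pow_right₀ _ hb
    rw [Real.le_log_iff_exp_le (by linarith)]
    linarith [Real.exp_one_lt_d9]
  · obtain ⟨h4, h5, h6⟩ := h3 j hj
    refine ⟨h4, h5, fun i => ⟨(h6 i).1, (h6 i).2.mono hr ?_⟩⟩
    exact Real.rpow_le_rpow_of_exponent_le (by linarith) hδ

lemma fin_pos {α : Type*} (T : Finset α) (g : α → ℝ) (hg : ∀ a ∈ T, 0 < g a) : ∃ ε, 0 < ε ∧ ∀ a ∈ T, ε ≤ g a := by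
  by_cases hT : T.Nonempty
  · obtain ⟨a, ha, hmin⟩ := exists_min_image T g hT
    exact ⟨g a, hg a ha, hmin⟩
  · rw [not_nonempty_iff_eq_empty] at hT
    exact ⟨1, one_pos, by rw [hT]; simp⟩

open Classical in
theorem quad_shifts (A B C : ℤ) (hA : A ≠ 0) (hΔ : ¬ IsSquare (B ^ 2 - 4 * A * C)) (f : ℤ[X]) (hf : f ≠ 0)
    (hadm : ∀ p : ℕ, p.Prime → ∃ n : ℤ, ¬ (p : ℤ) ∣ (A * n ^ 2 + B * n + C) * f.eval n) (k : ℕ)
    (σ : ℤ) (hσ : σ = 0 ∨ σ = 1 ∨ σ = -1) :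
    ∃ c c' : ℝ, 0 < c ∧ ∀ᶠ X : ℕ in atTop,
      ((shifts (fun _ _ : Fin (k + 1) => σ) X).card : ℝ) ≤
        c' * ((X : ℝ) ^ k / Real.log X ^ (edg (fun _ _ : Fin (k + 1) => σ)).card) ∧
      ∃ (r : ℕ) (δ : ℝ), 0 < δ ∧ ∀ l : ℕ, ∃ b : ℕ, ∀ᶠ N : ℕ in atTop,
        c * ((X : ℝ) ^ k / Real.log X ^ (edg (fun _ _ : Fin (k + 1) => σ)).card) ≤
          (((shifts (fun _ _ : Fin (k + 1) => σ) X).filter (fun h => Occ A B C f 2 r δ l b N h)).card : ℝ) := by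
  obtain ⟨K, hK⟩ := Pool.Agent.R498.MT.quad_sys A B C hA hΔ f hf hadm (k + 1)
  obtain ⟨n₀, hn₀⟩ := Pool.Agent.Y677.RSZ.ne_zero_ev f hf
  choose r δ hδ hmain using hK
  choose b hb using hmain
  set K' := max K (k + 1) with hK'
  -- parameters valid for all sets up to `M`
  have h1 : ∀ M : ℕ, ∃ (rM : ℕ) (δM : ℝ) (bM : ℕ → ℕ), 0 < δM ∧ ∀ (l : ℕ) (S : Finset ℕ), S ⊆ range (M + 1) →
      S.card = K' → ∀ᶠ N : ℕ in atTop, ∃ z : Fin (k + 1) → ℕ, StrictMono z ∧ (∀ i, z i ∈ S) ∧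
        Occ A B C f 1 rM δM l (bM l) N z := by
    intro M
    obtain ⟨ε, hε, hε2⟩ := fin_pos ((range (M + 1)).powerset) (fun S => if h : K ≤ S.card then δ S h else 1)
      (fun S _ => by
        split_ifs
        · exact hδ _ _
        · exact one_pos)
    refine ⟨((range (M + 1)).powerset).sup (fun S => if h : K ≤ S.card then r S h else 0), ε,
      fun l => ((range (M + 1)).powerset).sup (fun S => if h : K ≤ S.card then b S h l else 0), hε, ?_⟩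
    intro l S hS hSc
    have hSK : K ≤ S.card := by rw [hSc]; exact le_max_left _ _
    have hSm := mem_powerset.2 hS
    filter_upwards [hb S hSK l, eventually_ge_atTop (max 3 n₀)] with N hN hN3
    obtain ⟨H, hHS, hHc, n, d, h2, h3, h4⟩ := hN
    refine ⟨H.orderEmbOfFin hHc, (H.orderEmbOfFin hHc).strictMono, fun i => hHS (H.orderEmbOfFin_mem hHc i), ?_⟩
    have h5 : Occ A B C f 1 (r S hSK) (δ S hSK) l (b S hSK l) N (H.orderEmbOfFin hHc) := by
      refine ⟨n, d, h2, h3, fun j hj => ?_⟩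
      obtain ⟨h6, h7, h8⟩ := h4 j hj
      refine ⟨h6, by rw [one_mul]; exact h7, fun i => ?_⟩
      obtain ⟨g1, g2, g3, g4⟩ := h8 _ (H.orderEmbOfFin_mem hHc i)
      refine ⟨⟨?_, g1, g2⟩, hn₀ _ ?_, g3, g4⟩
      · have := Pool.Agent.R498.MT.QG_ne_zero A B C hΔ
          ((n + j * d + (H.orderEmbOfFin hHc) i : ℕ) : ℤ)
        exact this
      · have := le_max_right 3 n₀
        omega
    refine h5.mono ((le_max_left _ _).trans hN3) ?_ ?_ ?_
    · have := Finset.le_sup (f := fun S => if h : K ≤ S.card then r S h else 0) hSm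
      simpa only [dif_pos hSK] using this
    · have := hε2 S hSm
      simpa only [dif_pos hSK] using this
    · have := Finset.le_sup (f := fun S => if h : K ≤ S.card then b S h l else 0) hSm
      simpa only [dif_pos hSK] using this
  choose rM δM bM hδM hM using h1
  obtain ⟨c, hc, h2⟩ := cluster_shifts k K' (le_max_right _ _) σ hσ
    (fun M l N z => Occ A B C f 1 (rM M) (δM M) l (bM M l) N z)
    (fun M l N h => Occ A B C f 2 (rM M) (δM M) l (bM M l) N h)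
    (fun M l S hS hSc => hM M l S hS hSc)
    (by
      intro M l
      have h3 : ∀ᶠ N : ℕ in atTop, (M : ℝ) ≤ (N : ℝ) ^ (3 / 4 : ℝ) :=
        ((tendsto_rpow_atTop (by norm_num)).comp tendsto_natCast_atTop_atTop).eventually_ge_atTop _
      filter_upwards [h3] with N hN z hz hzM hocc
      obtain ⟨n, d, h4, h5, h6⟩ := hocc
      refine ⟨n + z 0, d, h4, h5, fun j hj => ?_⟩
      obtain ⟨h7, h8, h9⟩ := h6 j hj
      have hz0 : (z 0 : ℝ) ≤ M := by exact_mod_cast hzM 0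
      refine ⟨by omega, ?_, fun i => ?_⟩
      · push_cast at h8 ⊢
        linarith
      · have h10 : z 0 ≤ z i := hz.monotone (Fin.zero_le i)
        have h11 : n + z 0 + j * d + (z i - z 0) = n + j * d + z i := by omega
        dsimp only
        rw [h11]
        exact h9 i)
  obtain ⟨c', -, h3⟩ := shifts_upper Pool.Agent.Y949.DK.t_SV Pool.Agent.Y185.DK.AV.t_AVG k
    (fun _ _ : Fin (k + 1) => σ)
  refine ⟨c, c', hc, ?_⟩
  filter_upwards [h2, h3] with X hX2 hX3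
  exact ⟨hX3, rM X, δM X, hδM X, fun l => ⟨bM X l, hX2 l⟩⟩

end Pool.Agent.U288.SP
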