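import Pool.Agent.U288.SP.UB3
import Pool.Agent.U288.SP.LB2

/-! Gluing two configurations; counting edges. -/

set_option autoImplicit false

namespace Pool.Agent.U288.SP

open Finset Filter Pool.Agent.Y851.DK

/-- the edges of a matrix of signs on `Fin D` -/
def EDs (s : ℕ → ℕ → ℤ) (D : ℕ) : Finset (Fin D × Fin D) := univ.filter (fun q => q.1 < q.2 ∧ s q.1 q.2 ≠ 0)

lemma EDs_card (s : ℕ → ℕ → ℤ) (D : ℕ) : (EDs s D).card = ed s D := by
  classical
  unfold ed
  rw [← Fin.sum_univ_eq_sum_range (fun j => (nb s j).card) D,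
    card_eq_sum_card_fiberwise (f := Prod.snd) (t := univ) (fun _ _ => by simp)]
  apply sum_congr rfl
  intro j _
  symm
  apply card_bij (fun (i : Fin (j : ℕ)) _ => ((⟨(i : ℕ), i.2.trans j.2⟩ : Fin D), j))
  · intro i hi
    unfold nb at hi
    rw [mem_filter] at hi
    unfold EDs
    rw [mem_filter, mem_filter]
    exact ⟨⟨mem_univ _, i.2, hi.2⟩, rfl⟩
  · intro i _ i' _ h
    simp only [Prod.mk.injEq, Fin.mk.injEq, and_true] at h
    exact Fin.ext h
  · rintro ⟨a, b⟩ hab
    unfold EDs at hab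
    rw [mem_filter, mem_filter] at hab
    obtain ⟨⟨_, h1, h2⟩, h3⟩ := hab
    simp only at h1 h2 h3
    subst h3
    refine ⟨⟨(a : ℕ), h1⟩, ?_, ?_⟩
    · unfold nb
      rw [mem_filter]
      exact ⟨mem_univ _, h2⟩
    · rfl

/-- a counting inequality of Cauchy and Schwarz -/
lemma cs {α β : Type*} [DecidableEq α] [DecidableEq β] (A : Finset α) (G : Finset β) (f : α → β)
    (hf : ∀ a ∈ A, f a ∈ G) :
    (A.card : ℝ) ^ 2 ≤ G.card * (((A ×ˢ A).filter (fun p => f p.1 = f p.2)).card : ℝ) := by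
  have h1 : (A.card : ℝ) = ∑ z ∈ G, ((A.filter (fun a => f a = z)).card : ℝ) := by
    exact_mod_cast card_eq_sum_card_fiberwise hf
  have h2 : (∑ z ∈ G, ((A.filter (fun a => f a = z)).card : ℝ)) ^ 2 ≤
      G.card * ∑ z ∈ G, ((A.filter (fun a => f a = z)).card : ℝ) ^ 2 := sq_sum_le_card_mul_sum_sq
  have h3 : ∑ z ∈ G, ((A.filter (fun a => f a = z)).card : ℝ) ^ 2 ≤
      (((A ×ˢ A).filter (fun p => f p.1 = f p.2)).card : ℝ) := by
    have h4 : ∑ z ∈ G, ((A.filter (fun a => f a = z)) ×ˢ (A.filter (fun a => f a = z))).card ≤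
        ((A ×ˢ A).filter (fun p => f p.1 = f p.2)).card := by
      rw [← card_sigma]
      apply card_le_card_of_injOn (fun q : (_ : β) × (α × α) => q.2)
      · rintro ⟨z, a, b⟩ hq
        simp only [coe_sigma, Set.mem_sigma_iff, mem_coe, mem_product, mem_filter] at hq
        simp only [coe_filter, mem_product, Set.mem_ofPred_eq]
        exact ⟨⟨hq.2.1.1, hq.2.2.1⟩, hq.2.1.2.trans hq.2.2.2.symm⟩
      · rintro ⟨z, a, b⟩ hq ⟨z', a', b'⟩ hq' h
        simp only [coe_sigma, Set.mem_sigma_iff, mem_coe, mem_product, mem_filter] at hq hq'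
        simp only [Prod.mk.injEq] at h
        obtain ⟨rfl, rfl⟩ := h
        have : z = z' := hq.2.1.2.symm.trans hq'.2.1.2
        subst this
        rfl
    have h5 : ∑ z ∈ G, ((A.filter (fun a => f a = z)).card : ℝ) ^ 2 =
        ((∑ z ∈ G, ((A.filter (fun a => f a = z)) ×ˢ (A.filter (fun a => f a = z))).card : ℕ) : ℝ) := by
      push_cast
      apply sum_congr rfl
      intro z _
      rw [card_product]
      push_cast
      ring
    rw [h5]
    exact_mod_cast h4
  rw [h1]
  exact h2.trans (mul_le_mul_of_nonneg_left h3 (Nat.cast_nonneg _))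

section glue
variable {D k : ℕ} (v : Fin (k + 1) → Fin D)

/-- the vertices of the glued graph -/
abbrev GV : Type := Fin D ⊕ {i : Fin D // ∀ a, v a ≠ i}

/-- the projection -/
def gpi : GV v → Fin D := Sum.elim id Subtype.val

open Classical in
/-- the second copy -/
noncomputable def gi (i : Fin D) : GV v := if h : ∀ a, v a ≠ i then Sum.inr ⟨i, h⟩ else Sum.inl i

lemma gpi_gi (i : Fin D) : gpi v (gi v i) = i := by
  unfold gi gpi
  split_ifs <;> rfl

lemma gi_inj : Function.Injective (gi v) := by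
  intro i j h
  have := congrArg (gpi v) h
  rwa [gpi_gi, gpi_gi] at this

open Classical in
/-- the edges of the glued graph -/
noncomputable def gE (s : ℕ → ℕ → ℤ) : Finset (GV v × GV v) :=
  (EDs s D).image (fun q => ((Sum.inl q.1 : GV v), (Sum.inl q.2 : GV v))) ∪
    ((EDs s D).filter (fun q => ¬ ((∃ a, v a = q.1) ∧ ∃ b, v b = q.2))).image (fun q => (gi v q.1, gi v q.2))

/-- the signs of the glued graph -/
def gs (s : ℕ → ℕ → ℤ) (e : GV v × GV v) : ℤ := s (gpi v e.1) (gpi v e.2)

lemma gE_lt (s : ℕ → ℕ → ℤ) {e : GV v × GV v} (he : e ∈ gE v s) : gpi v e.1 < gpi v e.2 := by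
  classical
  unfold gE at he
  rw [mem_union, mem_image, mem_image] at he
  rcases he with ⟨q, hq, rfl⟩ | ⟨q, hq, rfl⟩
  · unfold EDs at hq
    exact (mem_filter.1 hq).2.1
  · unfold EDs at hq
    simp only [gpi_gi]
    exact (mem_filter.1 (mem_filter.1 hq).1).2.1

lemma gE_simple (s : ℕ → ℕ → ℤ) : Simple (gE v s) := by
  intro e he
  have h1 := gE_lt v s he
  refine ⟨fun h => ?_, fun h => ?_⟩
  · rw [h] at h1
    exact lt_irrefl _ h1
  · have h2 := gE_lt v s h
    exact lt_asymm h1 h2

/-- the edges of a matrix of signs on `Fin (k + 1)` -/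
def edg (t : Fin (k + 1) → Fin (k + 1) → ℤ) : Finset (Fin (k + 1) × Fin (k + 1)) :=
  univ.filter (fun q => q.1 < q.2 ∧ t q.1 q.2 ≠ 0)

lemma gE_card (s : ℕ → ℕ → ℤ) (t : Fin (k + 1) → Fin (k + 1) → ℤ) (hv : StrictMono v)
    (hst : ∀ i j, i < j → s (v i) (v j) = t i j) : (gE v s).card + (edg t).card = 2 * (EDs s D).card := by
  classical
  have h1 : (gE v s).card = (EDs s D).card +
      ((EDs s D).filter (fun q => ¬ ((∃ a, v a = q.1) ∧ ∃ b, v b = q.2))).card := by
    unfold gE
    rw [card_union_of_disjoint, card_image_of_injective, card_image_of_injective]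
    · intro q q' h
      simp only [Prod.mk.injEq] at h
      exact Prod.ext (gi_inj v h.1) (gi_inj v h.2)
    · intro q q' h
      simp only [Prod.mk.injEq, Sum.inl.injEq] at h
      exact Prod.ext h.1 h.2
    · rw [disjoint_left]
      rintro e he he'
      obtain ⟨q, _, rfl⟩ := mem_image.1 he
      obtain ⟨q', hq', h⟩ := mem_image.1 he'
      apply (mem_filter.1 hq').2
      simp only [Prod.mk.injEq] at h
      constructor
      · by_contra hc
        have hc' : ∀ a, v a ≠ q'.1 := fun a ha => hc ⟨a, ha⟩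
        have h2 := h.1
        unfold gi at h2
        rw [dif_pos hc'] at h2
        exact Sum.inr_ne_inl h2
      · by_contra hc
        have hc' : ∀ a, v a ≠ q'.2 := fun a ha => hc ⟨a, ha⟩
        have h2 := h.2
        unfold gi at h2
        rw [dif_pos hc'] at h2
        exact Sum.inr_ne_inl h2
  have h2 : (EDs s D).card = ((EDs s D).filter (fun q => (∃ a, v a = q.1) ∧ ∃ b, v b = q.2)).card +
      ((EDs s D).filter (fun q => ¬ ((∃ a, v a = q.1) ∧ ∃ b, v b = q.2))).card :=
    (card_filter_add_card_filter_not (fun q : Fin D × Fin D => (∃ a, v a = q.1) ∧ ∃ b, v b = q.2)).symm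
  have h3 : ((EDs s D).filter (fun q => (∃ a, v a = q.1) ∧ ∃ b, v b = q.2)).card = (edg t).card := by
    symm
    apply card_bij (fun q _ => (v q.1, v q.2))
    · intro q hq
      unfold edg at hq
      rw [mem_filter] at hq
      unfold EDs
      rw [mem_filter, mem_filter]
      refine ⟨⟨mem_univ _, hv hq.2.1, ?_⟩, ⟨_, rfl⟩, ⟨_, rfl⟩⟩
      simp only
      rw [hst _ _ hq.2.1]
      exact hq.2.2
    · intro q _ q' _ h
      simp only [Prod.mk.injEq] at h
      exact Prod.ext (hv.injective h.1) (hv.injective h.2)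
    · rintro ⟨a, b⟩ hab
      rw [mem_filter] at hab
      obtain ⟨h4, ⟨i, hi⟩, ⟨j, hj⟩⟩ := hab
      simp only at hi hj
      subst hi
      subst hj
      unfold EDs at h4
      rw [mem_filter] at h4
      have hij : i < j := hv.lt_iff_lt.1 h4.2.1
      refine ⟨(i, j), ?_, rfl⟩
      unfold edg
      rw [mem_filter]
      refine ⟨mem_univ _, hij, ?_⟩
      rw [← hst _ _ hij]
      exact h4.2.2
  omega

lemma GV_card (hv : StrictMono v) : Fintype.card (GV v) + (k + 1) = 2 * D := by
  classical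
  rw [Fintype.card_sum, Fintype.card_fin]
  have h1 : Fintype.card {i : Fin D // ∀ a, v a ≠ i} + (k + 1) = D := by
    have h2 : Fintype.card {i : Fin D // ∀ a, v a ≠ i} = (univ.image v)ᶜ.card := by
      rw [Fintype.card_subtype]
      congr 1
      ext i
      simp
    rw [h2, card_compl, card_image_of_injective _ hv.injective, card_univ, Fintype.card_fin, Fintype.card_fin]
    have h3 : k + 1 ≤ D := by
      have := Fintype.card_le_of_injective v hv.injective
      simpa using this
    omega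
  omega

/-- the point of the glued system -/
def gy (Q x : ℕ) (p : (Fin D → ℕ) × (Fin D → ℕ)) : GV v → ℕ :=
  Sum.elim (fun i : Fin D => pt Q x i (p.1 i)) (fun i : {i : Fin D // ∀ a, v a ≠ i} => pt Q x (i.1 : ℕ) (p.2 i.1))

lemma gy_gi (Q x : ℕ) (p : (Fin D → ℕ) × (Fin D → ℕ)) (hp : ∀ a, p.1 (v a) = p.2 (v a)) (i : Fin D) :
    gy v Q x p (gi v i) = pt Q x i (p.2 i) := by
  unfold gi
  by_cases h : ∀ a, v a ≠ i
  · rw [dif_pos h]
    rfl
  · rw [dif_neg h]
    push Not at h
    obtain ⟨a, ha⟩ := h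
    show pt Q x i (p.1 i) = _
    rw [← ha, hp a]

/-- pairs of configurations which agree on the image of `v` are solutions of the glued system -/
lemma pairs_le (s : ℕ → ℕ → ℤ) (Q x : ℕ) (hQ : 1 ≤ Q) :
    (((conf s Q D x) ×ˢ (conf s Q D x)).filter (fun p => ∀ a, p.1 (v a) = p.2 (v a))).card ≤
      (sol (gE v s) (gs v s) (2 * Q * D * x)).card := by
  classical
  have hpt : ∀ i : Fin D, ∀ m : ℕ, 1 ≤ m → m ≤ x → 1 ≤ pt Q x i m ∧ pt Q x i m ≤ 2 * Q * D * x := by
    intro i m h1 h2
    unfold pt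
    have hi : (i : ℕ) + 1 ≤ D := i.2
    constructor
    · exact Nat.mul_pos hQ (by omega)
    · calc Q * (2 * (i : ℕ) * x + m) ≤ Q * (2 * (i : ℕ) * x + 2 * x) := Nat.mul_le_mul_left _ (by omega)
        _ = 2 * Q * ((i : ℕ) + 1) * x := by ring
        _ ≤ _ := Nat.mul_le_mul_right _ (Nat.mul_le_mul_left _ hi)
  apply card_le_card_of_injOn (gy v Q x)
  · rintro ⟨n, n'⟩ hp
    rw [mem_coe, mem_filter, mem_product] at hp
    obtain ⟨⟨hn, hn'⟩, hag⟩ := hp
    have hgi := gy_gi v Q x (n, n') hag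
    simp only at hn hn' hag
    simp only [conf, mem_filter, Fintype.mem_piFinset, mem_Icc] at hn hn'
    rw [mem_coe]
    simp only [sol, mem_filter, Fintype.mem_piFinset, mem_Icc]
    refine ⟨fun g => ?_, fun e he => ?_⟩
    · rcases g with i | i
      · exact hpt i _ (hn.1 i).1 (hn.1 i).2
      · exact hpt i.1 _ (hn'.1 i.1).1 (hn'.1 i.1).2
    · unfold gE at he
      rw [mem_union, mem_image, mem_image] at he
      rcases he with ⟨q, hq, rfl⟩ | ⟨q, hq, rfl⟩
      · unfold EDs at hq
        rw [mem_filter] at hq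
        exact hn.2 q.1 q.2 hq.2.1 hq.2.2
      · rw [mem_filter] at hq
        have hq1 := hq.1
        unfold EDs at hq1
        rw [mem_filter] at hq1
        simp only [hgi, gs, gpi_gi]
        exact hn'.2 q.1 q.2 hq1.2.1 hq1.2.2
  · rintro ⟨n, n'⟩ hp ⟨m, m'⟩ hp' h
    rw [mem_coe, mem_filter, mem_product] at hp hp'
    simp only at hp hp' h
    have hptinj : ∀ i a b : ℕ, pt Q x i a = pt Q x i b → a = b := by
      intro i a b hab
      unfold pt at hab
      have := Nat.eq_of_mul_eq_mul_left hQ hab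
      omega
    have h1 : n = m := by
      funext i
      have := congrFun h (Sum.inl i)
      exact hptinj _ _ _ this
    have h2 : n' = m' := by
      funext i
      by_cases hi : ∀ a, v a ≠ i
      · have := congrFun h (Sum.inr ⟨i, hi⟩)
        exact hptinj _ _ _ this
      · push Not at hi
        obtain ⟨a, ha⟩ := hi
        rw [← ha, ← hp.2 a, ← hp'.2 a, h1]
    rw [h1, h2]

end glue

end Pool.Agent.U288.SP
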