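import Pool.Agent.U288.SP.Asm1

/-! Many points whose differences satisfy the conditions are good. -/

set_option autoImplicit false

namespace Pool.Agent.U288.SP

open Finset Filter Pool.Agent.Y851.DK

open Classical in
/-- the increasing points with coordinates up to `Y` whose differences satisfy the conditions and which have the
property `G` -/
noncomputable def GZ {k : ℕ} (q : ℕ) (G : (Fin (k + 1) → ℕ) → Prop) (s : Fin (k + 1) → Fin (k + 1) → ℤ) (Y : ℕ) :
    Finset (Fin (k + 1) → ℕ) :=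
  (Fintype.piFinset (fun _ : Fin (k + 1) => Icc 1 Y)).filter (fun z => StrictMono z ∧ (∀ i, q ∣ z i) ∧
    (∀ i j, i < j → s i j ≠ 0 → ((z j : ℤ) - z i + s i j).toNat.Prime) ∧ G z)

/-- the local condition -/
lemma adm {D : ℕ} (q r Q : ℕ) (hrq : r.Coprime q) (hqQ : q ∣ Q) (hQ2 : ∀ p : ℕ, p.Prime → p ≤ D → p ∣ Q)
    (y : Fin D → ℕ) (hy : ∀ i, Q ∣ y i) :
    ∀ p : ℕ, p.Prime → ∃ m : ℤ, ∀ i, ¬ (p : ℤ) ∣ q * m + (r + y i) := by
  classical
  intro p hp
  have hpp : Prime (p : ℤ) := Nat.prime_iff_prime_int.1 hp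
  by_cases hpQ : p ∣ Q
  · have hpy : ∀ i, (p : ℤ) ∣ (y i : ℤ) := fun i => by exact_mod_cast hpQ.trans (hy i)
    by_cases hpr : p ∣ r
    · have hpq : ¬ p ∣ q := fun h => hp.one_lt.ne' (Nat.eq_one_of_dvd_coprimes hrq hpr h)
      refine ⟨1, fun i h => hpq ?_⟩
      have h1 : (p : ℤ) ∣ (r : ℤ) + y i := dvd_add (by exact_mod_cast hpr) (hpy i)
      have h2 := (dvd_add_left h1).1 h
      rw [mul_one] at h2
      exact_mod_cast h2
    · refine ⟨0, fun i h => hpr ?_⟩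
      rw [mul_zero, zero_add] at h
      have h2 := (dvd_add_left (hpy i)).1 h
      exact_mod_cast h2
  · have hpD : D < p := by
      by_contra h
      exact hpQ (hQ2 p hp (not_lt.1 h))
    have hpq : ¬ p ∣ q := fun h => hpQ (h.trans hqQ)
    have : Fact p.Prime := ⟨hp⟩
    have hq0 : (q : ZMod p) ≠ 0 := by
      intro h
      exact hpq ((ZMod.natCast_eq_zero_iff q p).1 h)
    have h1 : ∃ m : ZMod p, m ∉ (univ.image (fun i : Fin D => -(r + y i : ZMod p) * (q : ZMod p)⁻¹)) := by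
      by_contra h
      push Not at h
      have h2 : (univ : Finset (ZMod p)) ⊆ univ.image (fun i : Fin D => -(r + y i : ZMod p) * (q : ZMod p)⁻¹) := fun m _ => h m
      have h3 := (card_le_card h2).trans card_image_le
      rw [card_univ, card_univ, ZMod.card, Fintype.card_fin] at h3
      omega
    obtain ⟨m, hm⟩ := h1
    refine ⟨(m.val : ℤ), fun i h => hm ?_⟩
    rw [mem_image]
    refine ⟨i, mem_univ _, ?_⟩
    have h2 : (((q : ℤ) * (m.val : ℤ) + ((r : ℤ) + (y i : ℤ)) : ℤ) : ZMod p) = 0 := (ZMod.intCast_zmod_eq_zero_iff_dvd _ p).2 h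
    push_cast at h2
    rw [ZMod.natCast_zmod_val] at h2
    have h3 : (q : ZMod p) * m = -(r + y i : ZMod p) := eq_neg_of_add_eq_zero_left h2
    rw [← h3, mul_comm, ← mul_assoc, inv_mul_cancel₀ hq0, one_mul]

theorem gz_lower (hSV : P_SV) (hAVG : P_AVG) (hE : P_EXT) (k : ℕ) (s : Fin (k + 1) → Fin (k + 1) → ℤ)
    (D : ℕ) (sD : ℕ → ℕ → ℤ) (hD1 : 1 ≤ D) (hsD : ∀ i j, sD i j = 0 ∨ sD i j = 1 ∨ sD i j = -1)
    (q : ℕ) (hq : 1 ≤ q) (G : ℕ → (Fin (k + 1) → ℕ) → Prop)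
    (hpat : ∀ r : ℕ, r.Coprime q → ∀ y : Fin D → ℕ, StrictMono y → (∀ i, D.factorial * q ∣ y i) →
      ∃ v : Fin (k + 1) → Fin D, StrictMono v ∧ (∀ i j, i < j → sD (v i) (v j) = s i j) ∧ G r (fun a => y (v a))) :
    ∃ (c : ℝ) (W : ℕ), 0 < c ∧ 1 ≤ W ∧ ∀ᶠ x : ℕ in atTop, ∀ r : ℕ, r.Coprime q →
      c * ((x : ℝ) ^ (k + 1) / Real.log x ^ (edg s).card) ≤ ((GZ q (G r) s (W * x)).card : ℝ) := by
  classical
  set Q := D.factorial * q with hQd
  have hQ : 1 ≤ Q := Nat.mul_pos (Nat.factorial_pos D) hq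
  have hqQ : q ∣ Q := Dvd.intro_left _ rfl
  have hQ2 : ∀ p : ℕ, p.Prime → p ≤ D → p ∣ Q := fun p hp hpD => ((hp.dvd_factorial).2 hpD).mul_right _
  obtain ⟨c, hc, hlow⟩ := lower hE sD hsD D Q hQ hQ2 D le_rfl
  choose Cv hCv hup using fun v : Fin (k + 1) → Fin D => upper hSV hAVG (gE v sD) (gE_simple v sD) (gs v sD)
  set W : ℕ := 2 * Q * D with hW
  have hW1 : 1 ≤ W := by rw [hW]; nlinarith
  have hWt : Tendsto (fun x : ℕ => W * x) atTop atTop := by
    apply tendsto_atTop_mono (fun n => ?_) tendsto_id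
    simp only [id]
    nlinarith
  have hup' := hWt.eventually (eventually_all.2 hup)
  set C0 : ℝ := ∑ v, Cv v with hC0
  have : Nonempty (Fin D) := ⟨⟨0, hD1⟩⟩
  have hC0p : 0 < C0 := sum_pos (fun v _ => hCv v) univ_nonempty
  set n0 : ℝ := (Fintype.card (Fin (k + 1) → Fin D) : ℝ) with hn0
  have hn0p : 0 < n0 := by
    rw [hn0]
    exact_mod_cast Fintype.card_pos
  have hWr : (1 : ℝ) ≤ W := by exact_mod_cast hW1
  refine ⟨c ^ 2 / (n0 ^ 2 * (C0 * (W : ℝ) ^ (2 * D))), W, by positivity, hW1, ?_⟩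
  filter_upwards [hlow, hup', eventually_ge_atTop 3] with x hx1 hx2 hx3 r hrq
  have hxr : (3 : ℝ) ≤ x := by exact_mod_cast hx3
  have hx0 : (0 : ℝ) < x := by linarith
  have hlog : 0 < Real.log x := Real.log_pos (by linarith)
  set y : (Fin D → ℕ) → Fin D → ℕ := fun n i => pt Q x i (n i) with hy
  set A : (Fin (k + 1) → Fin D) → Finset (Fin D → ℕ) := fun v => (conf sD Q D x).filter (fun n =>
    StrictMono v ∧ (∀ i j, i < j → sD (v i) (v j) = s i j) ∧ (fun a => y n (v a)) ∈ GZ q (G r) s (W * x)) with hA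
  have hcover : conf sD Q D x ⊆ univ.biUnion A := by
    intro n hn
    have hn' := hn
    simp only [conf, mem_filter, Fintype.mem_piFinset, mem_Icc] at hn'
    obtain ⟨hn1, hn2⟩ := hn'
    have hmono : StrictMono (y n) := by
      intro i j hij
      have h1 : (i : ℕ) + 1 ≤ j := hij
      have h2 := hn1 i
      have h3 := hn1 j
      simp only [hy, pt]
      apply Nat.mul_lt_mul_of_pos_left _ hQ
      have h4 : 2 * ((i : ℕ) + 1) * x ≤ 2 * (j : ℕ) * x := Nat.mul_le_mul_right _ (by omega)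
      have h5 : 2 * ((i : ℕ) + 1) * x = 2 * (i : ℕ) * x + 2 * x := by ring
      omega
    have hyb : ∀ i, 1 ≤ y n i ∧ y n i ≤ W * x := by
      intro i
      have hi : (i : ℕ) + 1 ≤ D := i.2
      have h2 := hn1 i
      simp only [hy, pt]
      constructor
      · exact Nat.mul_pos hQ (by omega)
      · calc Q * (2 * (i : ℕ) * x + n i) ≤ Q * (2 * (i : ℕ) * x + 2 * x) := Nat.mul_le_mul_left _ (by omega)
          _ = 2 * Q * ((i : ℕ) + 1) * x := by ring
          _ ≤ _ := by rw [hW]; exact Nat.mul_le_mul_right _ (Nat.mul_le_mul_left _ hi)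
    have hyQ : ∀ i, Q ∣ y n i := fun i => Dvd.intro _ rfl
    obtain ⟨v, hv1, hv2, hv3⟩ := hpat r hrq (y n) hmono hyQ
    rw [mem_biUnion]
    refine ⟨v, mem_univ _, ?_⟩
    simp only [hA, mem_filter]
    refine ⟨hn, hv1, hv2, ?_⟩
    unfold GZ
    rw [mem_filter, Fintype.mem_piFinset]
    refine ⟨fun a => mem_Icc.2 (hyb (v a)), fun i j hij => hmono (hv1 hij), fun i => hqQ.trans (hyQ (v i)),
      fun i j hij h => ?_, hv3⟩
    have h1 := hn2 (v i) (v j) (hv1 hij) (by rw [hv2 i j hij]; exact h)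
    rw [hv2 i j hij] at h1
    exact h1
  obtain ⟨v, _, hvmax⟩ := exists_max_image (univ : Finset (Fin (k + 1) → Fin D)) (fun v => (A v).card) univ_nonempty
  have h1 : ((conf sD Q D x).card : ℝ) ≤ n0 * ((A v).card : ℝ) := by
    have h2 : (conf sD Q D x).card ≤ ∑ v, (A v).card := (card_le_card hcover).trans card_biUnion_le
    have h3 : ∑ v, (A v).card ≤ ∑ _v : Fin (k + 1) → Fin D, (A v).card := sum_le_sum hvmax
    rw [sum_const, card_univ, smul_eq_mul] at h3
    rw [hn0]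
    exact_mod_cast h2.trans h3
  have hpos : 0 < ((conf sD Q D x).card : ℝ) := lt_of_lt_of_le (by positivity) hx1
  have hAne : (A v).Nonempty := by
    rw [nonempty_iff_ne_empty]
    intro h
    rw [h] at h1
    simp only [card_empty, Nat.cast_zero, mul_zero] at h1
    linarith
  obtain ⟨n₁, hn₁⟩ := hAne
  have hn₁' := hn₁
  simp only [hA, mem_filter] at hn₁'
  obtain ⟨-, hv1, hv2, -⟩ := hn₁'
  -- Cauchy-Schwarz
  have h2 := cs (A v) (GZ q (G r) s (W * x)) (fun n a => y n (v a)) (fun n hn => by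
    simp only [hA, mem_filter] at hn
    exact hn.2.2.2)
  have h3 : (((A v) ×ˢ (A v)).filter (fun p => (fun a => y p.1 (v a)) = (fun a => y p.2 (v a)))).card ≤
      (((conf sD Q D x) ×ˢ (conf sD Q D x)).filter (fun p => ∀ a, p.1 (v a) = p.2 (v a))).card := by
    apply card_le_card
    rintro ⟨n, n'⟩ hp
    rw [mem_filter, mem_product] at hp ⊢
    obtain ⟨⟨hn, hn'⟩, hag⟩ := hp
    simp only [hA, mem_filter] at hn hn'
    refine ⟨⟨hn.1, hn'.1⟩, fun a => ?_⟩
    have h4 := congrFun hag a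
    simp only [hy, pt] at h4
    have h5 := Nat.eq_of_mul_eq_mul_left hQ h4
    simp only
    omega
  have h4 := pairs_le v sD Q x hQ
  have h5 := hx2 v
  have hWx : (2 * Q * D * x) = W * x := by rw [hW]
  rw [hWx] at h4
  set V2 := Fintype.card (GV v) with hV2
  set g := (gE v sD).card with hg
  set e := (edg s).card with he
  have hV2e : V2 + (k + 1) = 2 * D := GV_card v hv1
  have hge : g + e = 2 * ed sD D := by
    have := gE_card v sD s hv1 hv2
    rw [EDs_card] at this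
    exact this
  have h6 : (Cv v) * (((W * x : ℕ) : ℝ) ^ V2 / Real.log ((W * x : ℕ) : ℝ) ^ g) ≤
      C0 * (W : ℝ) ^ (2 * D) * ((x : ℝ) ^ V2 / Real.log x ^ g) := by
    have h7 : Cv v ≤ C0 := single_le_sum (f := Cv) (fun v _ => (hCv v).le) (mem_univ v)
    have h8 : Real.log x ≤ Real.log ((W * x : ℕ) : ℝ) := by
      apply Real.log_le_log hx0
      push_cast
      nlinarith
    have h9 : ((W * x : ℕ) : ℝ) ^ V2 ≤ (W : ℝ) ^ (2 * D) * (x : ℝ) ^ V2 := by
      push_cast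
      rw [mul_pow]
      apply mul_le_mul_of_nonneg_right _ (by positivity)
      exact pow_le_pow_right₀ hWr (by omega)
    calc (Cv v) * (((W * x : ℕ) : ℝ) ^ V2 / Real.log ((W * x : ℕ) : ℝ) ^ g) ≤
        C0 * (((W : ℝ) ^ (2 * D) * (x : ℝ) ^ V2) / Real.log x ^ g) := by
          apply mul_le_mul h7 _ (by positivity) hC0p.le
          apply div_le_div₀ (by positivity) h9 (by positivity)
          exact pow_le_pow_left₀ hlog.le h8 g
      _ = _ := by ring
  have h7 : ((A v).card : ℝ) ^ 2 ≤ ((GZ q (G r) s (W * x)).card : ℝ) * (C0 * (W : ℝ) ^ (2 * D) * ((x : ℝ) ^ V2 / Real.log x ^ g)) := by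
    refine h2.trans (mul_le_mul_of_nonneg_left ?_ (Nat.cast_nonneg _))
    refine le_trans ?_ h6
    refine le_trans ?_ h5
    exact_mod_cast h3.trans h4
  have h8 : (c * ((x : ℝ) ^ D / Real.log x ^ ed sD D)) ^ 2 ≤
      n0 ^ 2 * (((GZ q (G r) s (W * x)).card : ℝ) * (C0 * (W : ℝ) ^ (2 * D) * ((x : ℝ) ^ V2 / Real.log x ^ g))) := by
    calc (c * ((x : ℝ) ^ D / Real.log x ^ ed sD D)) ^ 2 ≤ (n0 * ((A v).card : ℝ)) ^ 2 :=
          pow_le_pow_left₀ (by positivity) (hx1.trans h1) 2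
      _ = n0 ^ 2 * ((A v).card : ℝ) ^ 2 := by ring
      _ ≤ _ := mul_le_mul_of_nonneg_left h7 (by positivity)
  have h9 : (c * ((x : ℝ) ^ D / Real.log x ^ ed sD D)) ^ 2 =
      c ^ 2 * ((x : ℝ) ^ (k + 1) / Real.log x ^ e) * ((x : ℝ) ^ V2 / Real.log x ^ g) := by
    have e1 : ((x : ℝ) ^ D) ^ 2 = (x : ℝ) ^ (k + 1) * (x : ℝ) ^ V2 := by
      rw [← pow_mul, ← pow_add]
      congr 1
      omega
    have e2 : (Real.log x ^ ed sD D) ^ 2 = Real.log x ^ e * Real.log x ^ g := by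
      rw [← pow_mul, ← pow_add]
      congr 1
      omega
    rw [mul_pow, div_pow, e1, e2]
    field_simp
  rw [h9] at h8
  have hpg : 0 < (x : ℝ) ^ V2 / Real.log x ^ g := by positivity
  have h10 : c ^ 2 * ((x : ℝ) ^ (k + 1) / Real.log x ^ e) ≤
      (n0 ^ 2 * (C0 * (W : ℝ) ^ (2 * D))) * ((GZ q (G r) s (W * x)).card : ℝ) := by
    apply le_of_mul_le_mul_right _ hpg
    refine h8.trans (le_of_eq (by ring))
  rw [div_mul_eq_mul_div, div_le_iff₀ (by positivity)]
  linarith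

end Pool.Agent.U288.SP
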