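import Pool.Agent.U288.SP.Asm3
import Pool.Agent.U288.SP.LB1
import Pool.Agent.Y949.DK.SV
import Pool.Agent.Y185.DK.Avg

/-! Cluster theorems without colours: a positive proportion of the vectors all of whose distances satisfy one and the
same condition. -/

set_option autoImplicit false

namespace Pool.Agent.U288.SP

open Finset Filter Pool.Agent.Y851.DK

open Classical in
/-- from points to vectors of shifts, with a bound for the coordinates -/
theorem shifts_lower2 (hSV : P_SV) (hAVG : P_AVG) (hE : P_EXT) (k : ℕ) (s : Fin (k + 1) → Fin (k + 1) → ℤ)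
    (D : ℕ) (sD : ℕ → ℕ → ℤ) (hD1 : 1 ≤ D) (hsD : ∀ i j, sD i j = 0 ∨ sD i j = 1 ∨ sD i j = -1)
    (G H : ℕ → (Fin (k + 1) → ℕ) → Prop) (R : ℕ → Set ℕ)
    (hpat : ∀ r : ℕ, ∀ y : Fin D → ℕ, StrictMono y →
      ∃ v : Fin (k + 1) → Fin D, StrictMono v ∧ (∀ i j, i < j → sD (v i) (v j) = s i j) ∧ G r (fun a => y (v a)))
    (htr : ∀ X r z, r ∈ R X → StrictMono z → (∀ i, z i ≤ X) → G r z → H r (fun i => z i - z 0)) :
    ∃ c : ℝ, 0 < c ∧ ∀ᶠ X : ℕ in atTop, ∀ r ∈ R X,
      c * ((X : ℝ) ^ k / Real.log X ^ (edg s).card) ≤ (((shifts s X).filter (fun h => H r h)).card : ℝ) := by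
  obtain ⟨c, W, hc, hW1, h1⟩ := gz_lower hSV hAVG hE k s D sD hD1 hsD 1 le_rfl G
    (fun r _ y hy _ => hpat r y hy)
  have h2 : Tendsto (fun X : ℕ => X / W) atTop atTop := Nat.tendsto_div_const_atTop (by omega)
  have h3 := h2.eventually (h1.and (eventually_ge_atTop 3))
  have hWr : (1 : ℝ) ≤ W := by exact_mod_cast hW1
  refine ⟨c / (W * (2 * W) ^ k), by positivity, ?_⟩
  filter_upwards [h3, eventually_ge_atTop 3] with X hX hX3 r hrR
  obtain ⟨hX1, hX2⟩ := hX
  replace hX1 := hX1 r (Nat.coprime_one_right r)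
  set x := X / W with hx
  have hxr : (3 : ℝ) ≤ x := by exact_mod_cast hX2
  have hx0 : (0 : ℝ) < x := by linarith
  have hlog : 0 < Real.log x := Real.log_pos (by linarith)
  have hWx : W * x ≤ X := Nat.mul_div_le X W
  have hXW : X ≤ 2 * W * x := by
    have h4 : X < W * (x + 1) := by
      rw [hx]
      exact Nat.lt_mul_div_succ X (by omega)
    nlinarith
  set e := (edg s).card with he
  -- the injection
  have h4 : (GZ 1 (G r) s (W * x)).card ≤ (((shifts s X).filter (fun h => H r h)) ×ˢ (Icc 1 (W * x))).card := by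
    apply card_le_card_of_injOn (fun z : Fin (k + 1) → ℕ => ((fun i => z i - z 0), z 0))
    · intro z hz
      rw [mem_coe] at hz
      unfold GZ at hz
      rw [mem_filter, Fintype.mem_piFinset] at hz
      obtain ⟨hz1, hz2, hzq, hz3, hz4⟩ := hz
      have hz0 : ∀ i, z 0 ≤ z i := fun i => hz2.monotone (Fin.zero_le i)
      rw [mem_coe, mem_product, mem_filter]
      refine ⟨⟨?_, ?_⟩, hz1 0⟩
      · unfold shifts
        rw [mem_filter, Fintype.mem_piFinset]
        refine ⟨fun i => ?_, by simp, fun i j hij => ?_, fun i j hij h => ?_⟩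
        · rw [mem_range]
          have := (mem_Icc.1 (hz1 i)).2
          dsimp only
          omega
        · have := hz2 hij
          have := hz0 i
          dsimp only
          omega
        · have h5 := hz3 i j hij h
          have h6 : (((z j - z 0 : ℕ) : ℤ) - ((z i - z 0 : ℕ) : ℤ) + s i j) = (z j : ℤ) - z i + s i j := by
            rw [Nat.cast_sub (hz0 j), Nat.cast_sub (hz0 i)]
            ring
          dsimp only
          rw [h6]
          exact h5
      · exact htr X r z hrR hz2 (fun i => (mem_Icc.1 (hz1 i)).2.trans hWx) hz4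
    · intro z hz z' hz' h
      rw [mem_coe] at hz hz'
      unfold GZ at hz hz'
      rw [mem_filter, Fintype.mem_piFinset] at hz hz'
      have hz0 : ∀ i, z 0 ≤ z i := fun i => hz.2.1.monotone (Fin.zero_le i)
      have hz0' : ∀ i, z' 0 ≤ z' i := fun i => hz'.2.1.monotone (Fin.zero_le i)
      simp only [Prod.mk.injEq] at h
      funext i
      have h5 := congrFun h.1 i
      have h6 := h.2
      have h7 := hz0 i
      have h8 := hz0' i
      omega
  rw [card_product, Nat.card_Icc, Nat.add_sub_cancel] at h4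
  have h5 : ((GZ 1 (G r) s (W * x)).card : ℝ) ≤ (((shifts s X).filter (fun h => H r h)).card : ℝ) * (W * x) := by
    exact_mod_cast h4
  have h6 : c / W * ((x : ℝ) ^ k / Real.log x ^ e) ≤ (((shifts s X).filter (fun h => H r h)).card : ℝ) := by
    have h7 : 0 < (W : ℝ) * x := by positivity
    apply le_of_mul_le_mul_right _ h7
    refine le_trans (le_of_eq ?_) (hX1.trans h5)
    rw [pow_succ]
    field_simp
  refine le_trans ?_ h6
  have hXr : (X : ℝ) ≤ 2 * W * x := by exact_mod_cast hXW
  have hxX : (x : ℝ) ≤ X := by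
    have : x ≤ X := Nat.div_le_self X W
    exact_mod_cast this
  have h7 : Real.log x ≤ Real.log X := Real.log_le_log hx0 hxX
  have h8 : (X : ℝ) ^ k ≤ (2 * W) ^ k * (x : ℝ) ^ k := by
    rw [← mul_pow]
    exact pow_le_pow_left₀ (Nat.cast_nonneg _) hXr k
  calc c / (W * (2 * W) ^ k) * ((X : ℝ) ^ k / Real.log X ^ e) ≤
      c / (W * (2 * W) ^ k) * (((2 * W) ^ k * (x : ℝ) ^ k) / Real.log x ^ e) := by
        apply mul_le_mul_of_nonneg_left _ (by positivity)
        apply div_le_div₀ (by positivity) h8 (by positivity)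
        exact pow_le_pow_left₀ hlog.le h7 e
    _ = _ := by field_simp

/-- **Cluster theorems give patterns all of whose distances satisfy one condition.** If, for every set `S` of `K`
natural numbers up to `M`, the property `P M l N` holds for some increasing vector of elements of `S` when `N` is
large, then for all large `X`, all `l` and all large `N` a positive proportion of the vectors of shifts up to `X` with
the condition `σ` on all the distances have the property `P' X l N`. -/
theorem cluster_shifts (k K : ℕ) (hK : k + 1 ≤ K) (σ : ℤ) (hσ : σ = 0 ∨ σ = 1 ∨ σ = -1)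
    (P P' : ℕ → ℕ → ℕ → (Fin (k + 1) → ℕ) → Prop)
    (hP : ∀ (M l : ℕ) (S : Finset ℕ), S ⊆ range (M + 1) → S.card = K → ∀ᶠ N : ℕ in atTop,
      ∃ z : Fin (k + 1) → ℕ, StrictMono z ∧ (∀ i, z i ∈ S) ∧ P M l N z)
    (htr : ∀ M l : ℕ, ∀ᶠ N : ℕ in atTop, ∀ z : Fin (k + 1) → ℕ, StrictMono z → (∀ i, z i ≤ M) → P M l N z →
      P' M l N (fun i => z i - z 0)) :
    ∃ c : ℝ, 0 < c ∧ ∀ᶠ X : ℕ in atTop, ∀ l : ℕ, ∀ᶠ N : ℕ in atTop,
      c * ((X : ℝ) ^ k / Real.log X ^ (edg (fun _ _ : Fin (k + 1) => σ)).card) ≤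
        ((open Classical in (shifts (fun _ _ : Fin (k + 1) => σ) X).filter (fun h => P' X l N h)).card : ℝ) := by
  classical
  -- one threshold for all sets
  have h1 : ∀ M l : ℕ, ∃ N0 : ℕ, ∀ N : ℕ, N0 ≤ N → ∀ S ∈ (range (M + 1)).powerset, S.card = K →
      ∃ z : Fin (k + 1) → ℕ, StrictMono z ∧ (∀ i, z i ∈ S) ∧ P M l N z := by
    intro M l
    have h2 : ∀ᶠ N : ℕ in atTop, ∀ S ∈ (range (M + 1)).powerset, S.card = K →
        ∃ z : Fin (k + 1) → ℕ, StrictMono z ∧ (∀ i, z i ∈ S) ∧ P M l N z := by
      rw [Filter.eventually_all_finset]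
      intro S hS
      by_cases hc : S.card = K
      · filter_upwards [hP M l S (mem_powerset.1 hS) hc] with N hN _
        exact hN
      · exact Eventually.of_forall fun N h => absurd h hc
    exact eventually_atTop.1 h2
  choose N0 hN0 using h1
  have h2 : ∀ M l : ℕ, ∃ N1 : ℕ, ∀ N : ℕ, N1 ≤ N → ∀ z : Fin (k + 1) → ℕ, StrictMono z → (∀ i, z i ≤ M) →
      P M l N z → P' M l N (fun i => z i - z 0) := fun M l => eventually_atTop.1 (htr M l)
  choose N1 hN1 using h2
  -- the index codes `M`, `l`, `N`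
  set mM : ℕ → ℕ := fun r => (Nat.unpair r).1 with hmM
  set ml : ℕ → ℕ := fun r => (Nat.unpair (Nat.unpair r).2).1 with hml
  set mN : ℕ → ℕ := fun r => (Nat.unpair (Nat.unpair r).2).2 with hmN
  obtain ⟨c, hc, h3⟩ := shifts_lower2 Pool.Agent.Y949.DK.t_SV Pool.Agent.Y185.DK.AV.t_AVG ext_main k
    (fun _ _ => σ) K (fun _ _ => σ) (by omega) (fun _ _ => hσ)
    (fun r z => (∃ i, mM r < z i) ∨ mN r < N0 (mM r) (ml r) ∨ P (mM r) (ml r) (mN r) z)
    (fun r h => P' (mM r) (ml r) (mN r) h)
    (fun X => {r | mM r = X ∧ N0 (mM r) (ml r) ≤ mN r ∧ N1 (mM r) (ml r) ≤ mN r})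
    (by
      intro r y hy
      by_cases ha : ∃ i, mM r < y i
      · obtain ⟨i, hi⟩ := ha
        refine ⟨fun a => ⟨K - (k + 1) + a, by omega⟩, fun a b hab => ?_, fun _ _ _ => rfl, Or.inl ⟨Fin.last k, ?_⟩⟩
        · rw [Fin.lt_def] at hab ⊢
          dsimp only
          omega
        · refine hi.trans_le (hy.monotone ?_)
          rw [Fin.le_def]
          have := i.2
          simp only [Fin.val_last]
          omega
      · push Not at ha
        by_cases hb : mN r < N0 (mM r) (ml r)
        · refine ⟨Fin.castLE hK, Fin.strictMono_castLE hK, fun _ _ _ => rfl, Or.inr (Or.inl hb)⟩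
        · push Not at hb
          obtain ⟨z, hz1, hz2, hz3⟩ := hN0 (mM r) (ml r) (mN r) hb (univ.image y)
            (by
              rw [mem_powerset]
              intro a ha'
              obtain ⟨i, _, rfl⟩ := mem_image.1 ha'
              rw [mem_range]
              have := ha i
              omega)
            (by rw [card_image_of_injective _ hy.injective, card_univ, Fintype.card_fin])
          have h4 : ∀ a, ∃ i, y i = z a := fun a => by
            obtain ⟨i, _, hi⟩ := mem_image.1 (hz2 a)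
            exact ⟨i, hi⟩
          choose v hv using h4
          refine ⟨v, fun a b hab => ?_, fun _ _ _ => rfl, Or.inr (Or.inr ?_)⟩
          · have h5 := hz1 hab
            rw [← hv a, ← hv b] at h5
            exact hy.lt_iff_lt.1 h5
          · have h5 : (fun a => y (v a)) = z := funext hv
            rw [h5]
            exact hz3)
    (by
      intro X r z hr hz hzX hG
      obtain ⟨hr1, hr2, hr3⟩ := hr
      rcases hG with ⟨i, hi⟩ | hG | hG
      · exact absurd (hzX i) (by rw [← hr1]; exact not_le.2 hi)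
      · exact absurd hr2 (not_le.2 hG)
      · exact hN1 _ _ _ hr3 z hz (fun i => by rw [hr1]; exact hzX i) hG)
  refine ⟨c, hc, ?_⟩
  filter_upwards [h3] with X hX l
  filter_upwards [eventually_ge_atTop (N0 X l), eventually_ge_atTop (N1 X l)] with N hN2 hN3
  have h5 := hX (Nat.pair X (Nat.pair l N))
  simp only [hmM, hml, hmN, Nat.unpair_pair, Set.mem_ofPred_eq] at h5
  exact h5 ⟨trivial, hN2, hN3⟩

end Pool.Agent.U288.SP
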