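import Pool.Agent.U288.SP.UB1

/-! The upper bound for the number of prime points of a graph system. -/

set_option autoImplicit false
set_option linter.unusedSectionVars false

namespace Pool.Agent.U288.SP

open Finset Filter Pool.Agent.Y851.DK

open Classical in
/-- the points with coordinates in `[1, X]` for which the edge forms `y j - y i + σ` are prime -/
noncomputable def sol {V : Type} [Fintype V] (E : Finset (V × V)) (σ : V × V → ℤ) (X : ℕ) : Finset (V → ℕ) :=
  (Fintype.piFinset (fun _ : V => Icc 1 X)).filter (fun y : V → ℕ =>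
    ∀ e ∈ E, ((y e.2 : ℤ) - y e.1 + σ e).toNat.Prime)

section
variable {V : Type} [Fintype V] [DecidableEq V]

/-- the direction of the lines -/
noncomputable def dir (V : Type) [Fintype V] (i : V) : ℕ := (Fintype.equivFin V i : ℕ)

lemma dir_inj {i j : V} (h : i ≠ j) : (dir V i : ℤ) - dir V j ≠ 0 := by
  intro h1
  apply h
  have h2 : (Fintype.equivFin V i : ℕ) = (Fintype.equivFin V j : ℕ) := by
    unfold dir at h1
    omega
  exact (Fintype.equivFin V).injective (Fin.ext h2)

lemma dir_lt (i : V) : dir V i < Fintype.card V := (Fintype.equivFin V i).2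

lemma dir_abs (i j : V) : |((dir V i : ℤ) - dir V j : ℤ)| ≤ Fintype.card V := by
  have h1 := dir_lt i
  have h2 := dir_lt j
  rw [abs_le]
  omega

/-- the determinant of two edge forms along the line through `z` -/
noncomputable def det (σ : V × V → ℤ) (e f : V × V) (z : V → ℕ) : ℤ :=
  ((dir V e.2 : ℤ) - dir V e.1) * ((z f.2 : ℤ) - z f.1 + σ f) -
    ((dir V f.2 : ℤ) - dir V f.1) * ((z e.2 : ℤ) - z e.1 + σ e)

/-- the edges of a simple graph -/
def Simple (E : Finset (V × V)) : Prop := ∀ e ∈ E, e.1 ≠ e.2 ∧ (e.2, e.1) ∉ E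

lemma det_update (σ : V × V → ℤ) {E : Finset (V × V)} (hE : Simple E) {e f : V × V} (he : e ∈ E) (hf : f ∈ E)
    (hef : e ≠ f) : ∃ (m : V) (α : ℤ), α ≠ 0 ∧ |(α : ℝ)| ≤ Fintype.card V ∧
      ∀ z x, det σ e f (Function.update z m x) = α * x + (det σ e f z - α * z m) := by
  have h1 := (hE e he).1
  have h2 := (hE f hf).1
  have hab : |(((dir V e.2 : ℤ) - dir V e.1 : ℤ) : ℝ)| ≤ Fintype.card V := by
    have := dir_abs e.2 e.1
    exact_mod_cast this
  by_cases h3 : f.2 ≠ e.1 ∧ f.2 ≠ e.2
  · refine ⟨f.2, (dir V e.2 : ℤ) - dir V e.1, dir_inj h1.symm, hab, fun z x => ?_⟩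
    unfold det
    rw [Function.update_self, Function.update_of_ne h2, Function.update_of_ne (Ne.symm h3.1),
      Function.update_of_ne (Ne.symm h3.2)]
    ring
  · have h4 : f.1 ≠ e.1 ∧ f.1 ≠ e.2 := by
      refine ⟨fun h => ?_, fun h => ?_⟩
      · have h5 : f.2 = e.2 := by
          by_contra h6
          exact h3 ⟨fun h7 => h2 (h.trans h7.symm), h6⟩
        exact hef (Prod.ext h.symm h5.symm)
      · have h5 : f.2 = e.1 := by
          by_contra h6
          exact h3 ⟨h6, fun h7 => h2 (h.trans h7.symm)⟩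
        apply (hE f hf).2
        rw [h5, h]
        exact he
    refine ⟨f.1, -((dir V e.2 : ℤ) - dir V e.1), neg_ne_zero.2 (dir_inj h1.symm), ?_, fun z x => ?_⟩
    · rw [Int.cast_neg, abs_neg]
      exact hab
    · unfold det
      rw [Function.update_self, Function.update_of_ne (Ne.symm h2), Function.update_of_ne (Ne.symm h4.1),
        Function.update_of_ne (Ne.symm h4.2)]
      ring

lemma det_bound (σ : V × V → ℤ) (e f : V × V) (M : ℕ) (hM : 1 ≤ M) (z : V → ℕ)
    (hz : z ∈ Fintype.piFinset (fun _ : V => Icc 1 M)) :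
    |(det σ e f z : ℝ)| ≤ (Fintype.card V * (2 + |(σ e : ℝ)| + |(σ f : ℝ)|)) * M := by
  have hMr : (1 : ℝ) ≤ M := by exact_mod_cast hM
  have hz' : ∀ i, (1 : ℝ) ≤ z i ∧ (z i : ℝ) ≤ M := fun i => by
    have := mem_Icc.1 (Fintype.mem_piFinset.1 hz i)
    exact ⟨by exact_mod_cast this.1, by exact_mod_cast this.2⟩
  have hd : ∀ i j, |(((dir V i : ℤ) - dir V j : ℤ) : ℝ)| ≤ Fintype.card V := fun i j => by
    have := dir_abs i j
    exact_mod_cast this
  have hform : ∀ g : V × V, |(((z g.2 : ℤ) - z g.1 + σ g : ℤ) : ℝ)| ≤ (1 + |(σ g : ℝ)|) * M := by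
    intro g
    push_cast
    have h1 := hz' g.1
    have h2 := hz' g.2
    have h3 : |(z g.2 : ℝ) - z g.1| ≤ M := by rw [abs_le]; constructor <;> linarith
    calc |(z g.2 : ℝ) - z g.1 + σ g| ≤ |(z g.2 : ℝ) - z g.1| + |(σ g : ℝ)| := abs_add_le _ _
      _ ≤ M + |(σ g : ℝ)| * M := by nlinarith [abs_nonneg (σ g : ℝ)]
      _ = _ := by ring
  unfold det
  rw [Int.cast_sub, Int.cast_mul, Int.cast_mul]
  have hc0 : (0 : ℝ) ≤ Fintype.card V := Nat.cast_nonneg _
  calc |(((dir V e.2 : ℤ) - dir V e.1 : ℤ) : ℝ) * (((z f.2 : ℤ) - z f.1 + σ f : ℤ) : ℝ) -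
      (((dir V f.2 : ℤ) - dir V f.1 : ℤ) : ℝ) * (((z e.2 : ℤ) - z e.1 + σ e : ℤ) : ℝ)| ≤
      |(((dir V e.2 : ℤ) - dir V e.1 : ℤ) : ℝ) * (((z f.2 : ℤ) - z f.1 + σ f : ℤ) : ℝ)| +
      |(((dir V f.2 : ℤ) - dir V f.1 : ℤ) : ℝ) * (((z e.2 : ℤ) - z e.1 + σ e : ℤ) : ℝ)| := abs_sub _ _
    _ ≤ Fintype.card V * ((1 + |(σ f : ℝ)|) * M) + Fintype.card V * ((1 + |(σ e : ℝ)|) * M) := by
        rw [abs_mul, abs_mul]
        exact add_le_add (mul_le_mul (hd _ _) (hform f) (abs_nonneg _) hc0)
          (mul_le_mul (hd _ _) (hform e) (abs_nonneg _) hc0)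
    _ = _ := by ring

open Classical in
/-- the number of points of the line through `z` for which all the edge forms are prime -/
noncomputable def lin (E : Finset (V × V)) (σ : V × V → ℤ) (X : ℕ) (z : V → ℕ) : ℕ :=
  ((Icc 1 X).filter (fun n : ℕ => ∀ e ∈ E,
    (((dir V e.2 : ℤ) - dir V e.1) * (n : ℤ) + ((z e.2 : ℤ) - z e.1 + σ e)).toNat.Prime)).card


/-- fibring over the lines -/
lemma fib (E : Finset (V × V)) (σ : V × V → ℤ) (X : ℕ) :
    (X : ℝ) * ((sol E σ X).card : ℝ) ≤
      ∑ z ∈ Fintype.piFinset (fun _ : V => Icc 1 ((Fintype.card V + 1) * X)), (lin E σ X z : ℝ) := by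
  classical
  have h1 : X * (sol E σ X).card = ((sol E σ X) ×ˢ (Icc 1 X)).card := by
    rw [card_product, Nat.card_Icc, Nat.add_sub_cancel, mul_comm]
  have h2 : ((sol E σ X) ×ˢ (Icc 1 X)).card ≤
      ((Fintype.piFinset (fun _ : V => Icc 1 ((Fintype.card V + 1) * X))).sigma (fun z =>
        (Icc 1 X).filter (fun n : ℕ => ∀ e ∈ E,
          (((dir V e.2 : ℤ) - dir V e.1) * (n : ℤ) + ((z e.2 : ℤ) - z e.1 + σ e)).toNat.Prime))).card := by
    apply card_le_card_of_injOn (fun q : (V → ℕ) × ℕ =>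
      (⟨fun i => q.1 i + Fintype.card V * X - q.2 * dir V i, q.2⟩ : (_ : V → ℕ) × ℕ))
    · rintro ⟨y, n⟩ hq
      rw [mem_coe, mem_product] at hq
      obtain ⟨hy, hn⟩ := hq
      simp only [sol, mem_filter, Fintype.mem_piFinset, mem_Icc] at hy hn
      have hle : ∀ i, n * dir V i ≤ Fintype.card V * X := fun i => by
        rw [mul_comm (Fintype.card V)]
        exact Nat.mul_le_mul hn.2 (dir_lt i).le
      rw [mem_coe, mem_sigma, Fintype.mem_piFinset, mem_filter, mem_Icc]
      refine ⟨fun i => ?_, hn, fun e he => ?_⟩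
      · rw [mem_Icc]
        have h3 := hy.1 i
        have h4 := hle i
        have h5 : (Fintype.card V + 1) * X = Fintype.card V * X + X := by ring
        rw [h5]
        show 1 ≤ y i + Fintype.card V * X - n * dir V i ∧
          y i + Fintype.card V * X - n * dir V i ≤ Fintype.card V * X + X
        generalize Fintype.card V * X = A at *
        generalize n * dir V i = B at *
        constructor <;> omega
      · have h3 := hy.2 e he
        have h4 := hle e.1
        have h5 := hle e.2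
        have e1 : ((y e.1 + Fintype.card V * X - n * dir V e.1 : ℕ) : ℤ) =
            y e.1 + Fintype.card V * X - n * dir V e.1 := by
          rw [Nat.cast_sub (by omega)]
          push_cast
          ring
        have e2 : ((y e.2 + Fintype.card V * X - n * dir V e.2 : ℕ) : ℤ) =
            y e.2 + Fintype.card V * X - n * dir V e.2 := by
          rw [Nat.cast_sub (by omega)]
          push_cast
          ring
        simp only [e1, e2]
        have e3 : ((dir V e.2 : ℤ) - dir V e.1) * (n : ℤ) + ((y e.2 : ℤ) + Fintype.card V * X - n * dir V e.2 -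
            ((y e.1 : ℤ) + Fintype.card V * X - n * dir V e.1) + σ e) = (y e.2 : ℤ) - y e.1 + σ e := by ring
        rw [e3]
        exact h3
    · rintro ⟨y, n⟩ hq ⟨y', n'⟩ hq' heq
      rw [mem_coe, mem_product] at hq hq'
      obtain ⟨hy, hn⟩ := hq
      obtain ⟨hy', hn'⟩ := hq'
      simp only [sol, mem_filter, Fintype.mem_piFinset, mem_Icc] at hy hn hy' hn'
      simp only [Sigma.mk.injEq] at heq
      obtain ⟨h3, h4⟩ := heq
      have h4' : n = n' := eq_of_heq h4
      subst h4'
      refine Prod.ext ?_ rfl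
      funext i
      have h5 := congrFun h3 i
      have hle : n * dir V i ≤ Fintype.card V * X := by
        rw [mul_comm (Fintype.card V)]
        exact Nat.mul_le_mul hn.2 (dir_lt i).le
      simp only at h5 ⊢
      generalize Fintype.card V * X = A at *
      generalize n * dir V i = B at *
      omega
  have h3 : X * (sol E σ X).card ≤ ∑ z ∈ Fintype.piFinset (fun _ : V => Icc 1 ((Fintype.card V + 1) * X)), lin E σ X z := by
    rw [h1]
    refine h2.trans (le_of_eq ?_)
    rw [card_sigma]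
    rfl
  exact_mod_cast h3

end

end Pool.Agent.U288.SP
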