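import Pool.Agent.U288.SP.UB2

/-! The upper bound for the number of prime points of a graph system. -/

set_option autoImplicit false
set_option linter.unusedSectionVars false

namespace Pool.Agent.U288.SP

open Finset Filter Pool.Agent.Y851.DK

variable {V : Type} [Fintype V] [DecidableEq V]

/-- the sieve on one line -/
lemma line_bound (hSV : P_SV) (E : Finset (V × V)) (hE : Simple E) (σ : V × V → ℤ) :
    ∃ C : ℝ, 1 ≤ C ∧ ∀ᶠ X : ℕ in atTop, ∀ z : V → ℕ, (∀ e ∈ E, ∀ f ∈ E, e ≠ f → det σ e f z ≠ 0) →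
      (lin E σ X z : ℝ) ≤ C * Real.exp (C * ∑ q ∈ E ×ˢ E, sg (det σ q.1 q.2 z).natAbs) * (X / Real.log X ^ E.card) := by
  obtain ⟨C, hC, h⟩ := hSV E.card
  have h' := (tendsto_natCast_atTop_atTop (R := ℝ)).eventually h
  refine ⟨C * Real.exp (C * (E.card * Fintype.card V)), ?_, ?_⟩
  · have : 1 ≤ Real.exp (C * (E.card * Fintype.card V)) := Real.one_le_exp (by positivity)
    nlinarith
  filter_upwards [h', eventually_ge_atTop 3] with X hX hX3 z hz
  have hXr : (3 : ℝ) ≤ X := by exact_mod_cast hX3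
  have hlog : 0 < Real.log X := Real.log_pos (by linarith)
  set φ : V × V → ℤ × ℤ := fun e => ((dir V e.2 : ℤ) - dir V e.1, (z e.2 : ℤ) - z e.1 + σ e) with hφ
  have hdet : ∀ e f, (φ e).1 * (φ f).2 - (φ f).1 * (φ e).2 = det σ e f z := fun e f => rfl
  have hinj : Set.InjOn φ (E : Set (V × V)) := by
    intro e he f hf hef
    by_contra hne
    apply hz e he f hf hne
    rw [← hdet, hef]
    ring
  set F : Finset (ℤ × ℤ) := E.image φ with hF
  have hFc : F.card = E.card := card_image_of_injOn hinj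
  have h1 := hX F hFc (by
    intro f hf
    obtain ⟨e, he, rfl⟩ := mem_image.1 hf
    exact dir_inj (hE e he).1.symm) (by
    intro f hf g hg hfg
    obtain ⟨e, he, rfl⟩ := mem_image.1 hf
    obtain ⟨e', he', rfl⟩ := mem_image.1 hg
    rw [hdet]
    apply hz e he e' he'
    rintro rfl
    exact hfg rfl)
  rw [Nat.floor_natCast] at h1
  have h2 : (lin E σ X z : ℝ) ≤ (((Icc 1 X).filter (fun n : ℕ => ∀ f ∈ F, (f.1 * (n : ℤ) + f.2).toNat.Prime)).card : ℝ) := by
    unfold lin
    rw [Nat.cast_le]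
    apply card_le_card
    intro n hn
    rw [mem_filter] at hn ⊢
    refine ⟨hn.1, fun f hf => ?_⟩
    obtain ⟨e, he, rfl⟩ := mem_image.1 hf
    exact hn.2 e he
  refine h2.trans (h1.trans ?_)
  have hs1 : ∑ f ∈ F, sg f.1.natAbs ≤ E.card * Fintype.card V := by
    rw [hF, sum_image hinj]
    calc ∑ e ∈ E, sg (φ e).1.natAbs ≤ ∑ _e ∈ E, (Fintype.card V : ℝ) := by
          apply sum_le_sum
          intro e _
          refine (sg_le _).trans ?_
          have h3 := dir_abs e.2 e.1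
          have h4 : (((φ e).1.natAbs : ℕ) : ℤ) ≤ Fintype.card V := by
            rw [Int.natCast_natAbs]
            exact h3
          exact_mod_cast h4
      _ = _ := by rw [sum_const, nsmul_eq_mul]
  have hs2 : ∑ f ∈ F, ∑ g ∈ F, sg (f.1 * g.2 - g.1 * f.2).natAbs = ∑ q ∈ E ×ˢ E, sg (det σ q.1 q.2 z).natAbs := by
    rw [hF, sum_image hinj, sum_product]
    apply sum_congr rfl
    intro e _
    rw [sum_image hinj]
    rfl
  rw [hs2]
  set S := ∑ q ∈ E ×ˢ E, sg (det σ q.1 q.2 z).natAbs with hS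
  have hS0 : 0 ≤ S := sum_nonneg fun _ _ => sg_nonneg _
  have hC0 : 0 ≤ C := by linarith
  have hee : 1 ≤ Real.exp (C * (E.card * Fintype.card V)) := Real.one_le_exp (by positivity)
  have h5 : Real.exp (C * (∑ f ∈ F, sg f.1.natAbs + S)) ≤
      Real.exp (C * (E.card * Fintype.card V)) * Real.exp (C * Real.exp (C * (E.card * Fintype.card V)) * S) := by
    rw [← Real.exp_add]
    apply Real.exp_le_exp.2
    have h6 : C * S ≤ C * Real.exp (C * (E.card * Fintype.card V)) * S := by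
      have : C * S * 1 ≤ C * S * Real.exp (C * (E.card * Fintype.card V)) :=
        mul_le_mul_of_nonneg_left hee (by positivity)
      linarith
    have h7 : C * ∑ f ∈ F, sg f.1.natAbs ≤ C * (E.card * Fintype.card V) := mul_le_mul_of_nonneg_left hs1 hC0
    rw [mul_add]
    linarith
  calc C * Real.exp (C * (∑ f ∈ F, sg f.1.natAbs + S)) * (X / Real.log X ^ E.card) ≤
      C * (Real.exp (C * (E.card * Fintype.card V)) * Real.exp (C * Real.exp (C * (E.card * Fintype.card V)) * S)) *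
        (X / Real.log X ^ E.card) := by
        apply mul_le_mul_of_nonneg_right _ (by positivity)
        exact mul_le_mul_of_nonneg_left h5 hC0
    _ = _ := by ring

/-- **Upper bound.** -/
theorem upper (hSV : P_SV) (hAVG : P_AVG) (E : Finset (V × V)) (hE : Simple E) (σ : V × V → ℤ) :
    ∃ C : ℝ, 0 < C ∧ ∀ᶠ X : ℕ in atTop, ((sol E σ X).card : ℝ) ≤ C * ((X : ℝ) ^ Fintype.card V / Real.log X ^ E.card) := by
  classical
  obtain ⟨C1, hC1, h1⟩ := line_bound hSV E hE σ
  set D := Fintype.card V with hD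
  set r := E.card with hr
  -- constants for the averages
  set c : ℝ := C1 * (E ×ˢ E).card + 1 with hc
  have hc0 : 0 < c := by positivity
  set B : ℝ := ∑ q ∈ E ×ˢ E, (D * (2 + |(σ q.1 : ℝ)| + |(σ q.2 : ℝ)|)) with hB
  obtain ⟨C2, hC2, h2⟩ := avgU hAVG c D B hc0
  have hMt : Tendsto (fun X : ℕ => (D + 1) * X) atTop atTop := by
    apply tendsto_atTop_mono (fun n => ?_) tendsto_id
    simp only [id]
    nlinarith [Nat.zero_le D]
  have h2' := hMt.eventually h2
  have h3 : ∀ᶠ X : ℕ in atTop, Real.log X ^ r ≤ (X : ℝ) := by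
    have h4 := (isLittleO_log_rpow_atTop (show (0 : ℝ) < 1 / (r + 1) by positivity)).bound (show (0 : ℝ) < 1 by norm_num)
    have h5 := (tendsto_natCast_atTop_atTop (R := ℝ)).eventually h4
    filter_upwards [h5, eventually_ge_atTop 3] with X hX hX3
    have hXr : (3 : ℝ) ≤ X := by exact_mod_cast hX3
    have hl : 0 ≤ Real.log X := Real.log_nonneg (by linarith)
    rw [one_mul, Real.norm_of_nonneg hl, Real.norm_of_nonneg (by positivity)] at hX
    calc Real.log X ^ r ≤ ((X : ℝ) ^ (1 / (r + 1) : ℝ)) ^ r := pow_le_pow_left₀ hl hX r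
      _ = (X : ℝ) ^ ((1 / (r + 1) : ℝ) * r) := by rw [Real.rpow_mul (by linarith), Real.rpow_natCast]
      _ ≤ (X : ℝ) ^ (1 : ℝ) := by
          apply Real.rpow_le_rpow_of_exponent_le (by linarith)
          rw [div_mul_eq_mul_div, one_mul, div_le_one (by positivity)]
          linarith
      _ = X := Real.rpow_one _
  refine ⟨(C1 * (1 + (E ×ˢ E).card * C2) + (E ×ˢ E).card) * (D + 1) ^ D, by positivity, ?_⟩
  filter_upwards [h1, h2', h3, eventually_ge_atTop 3] with X hX1 hX2 hX3 hX4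
  have hXr : (3 : ℝ) ≤ X := by exact_mod_cast hX4
  have hX0 : (0 : ℝ) < X := by linarith
  have hlog : 0 < Real.log X := Real.log_pos (by linarith)
  set M := (D + 1) * X with hM
  have hM1 : 1 ≤ M := by
    rw [hM]
    have : 1 ≤ D + 1 := by omega
    nlinarith
  have hMr : (M : ℝ) = (D + 1) * X := by rw [hM]; push_cast; ring
  have hM0 : (0 : ℝ) < M := by exact_mod_cast hM1
  set Box := Fintype.piFinset (fun _ : V => Icc 1 M) with hBox
  -- the degenerate points
  set Off := (E ×ˢ E).filter (fun q => q.1 ≠ q.2) with hOff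
  set Deg := Box.filter (fun z => ∃ q ∈ Off, det σ q.1 q.2 z = 0) with hDeg
  have hDegc : (M : ℝ) * (Deg.card : ℝ) ≤ (E ×ˢ E).card * (M : ℝ) ^ D := by
    have h5 : Deg ⊆ Off.biUnion (fun q => Box.filter (fun z => det σ q.1 q.2 z = 0)) := by
      intro z hz
      rw [hDeg, mem_filter] at hz
      obtain ⟨q, hq, hq2⟩ := hz.2
      rw [mem_biUnion]
      exact ⟨q, hq, mem_filter.2 ⟨hz.1, hq2⟩⟩
    have h6 : (Deg.card : ℝ) ≤ ∑ q ∈ Off, ((Box.filter (fun z => det σ q.1 q.2 z = 0)).card : ℝ) := by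
      exact_mod_cast (card_le_card h5).trans card_biUnion_le
    calc (M : ℝ) * (Deg.card : ℝ) ≤ M * ∑ q ∈ Off, ((Box.filter (fun z => det σ q.1 q.2 z = 0)).card : ℝ) :=
          mul_le_mul_of_nonneg_left h6 hM0.le
      _ = ∑ q ∈ Off, (M : ℝ) * ((Box.filter (fun z => det σ q.1 q.2 z = 0)).card : ℝ) := by rw [mul_sum]
      _ ≤ ∑ _q ∈ Off, (M : ℝ) ^ D := by
          apply sum_le_sum
          intro q hq
          rw [hOff, mem_filter, mem_product] at hq
          obtain ⟨m, α, hα, -, hup⟩ := det_update σ hE hq.1.1 hq.1.2 hq.2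
          exact zerosU M m (det σ q.1 q.2) α hα hup
      _ = Off.card * (M : ℝ) ^ D := by rw [sum_const, nsmul_eq_mul]
      _ ≤ _ := by
          apply mul_le_mul_of_nonneg_right _ (by positivity)
          exact_mod_cast card_filter_le _ _
  -- the other points
  have hgood : ∀ z ∈ Box, z ∉ Deg → (lin E σ X z : ℝ) ≤
      C1 * (X / Real.log X ^ r) * (1 + ∑ q ∈ E ×ˢ E, Real.exp (c * sg (det σ q.1 q.2 z).natAbs)) := by
    intro z hz hzd
    have h5 := hX1 z (by
      intro e he f hf hef h0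
      apply hzd
      rw [hDeg, mem_filter]
      exact ⟨hz, (e, f), by rw [hOff, mem_filter, mem_product]; exact ⟨⟨he, hf⟩, hef⟩, h0⟩)
    refine h5.trans ?_
    have h6 := exp_sum_le (E ×ˢ E) (fun q => sg (det σ q.1 q.2 z).natAbs) (fun _ _ => sg_nonneg _) C1 (by linarith)
    have h7 : ∑ q ∈ E ×ˢ E, Real.exp (C1 * (E ×ˢ E).card * sg (det σ q.1 q.2 z).natAbs) ≤
        ∑ q ∈ E ×ˢ E, Real.exp (c * sg (det σ q.1 q.2 z).natAbs) := by
      apply sum_le_sum
      intro q _
      apply Real.exp_le_exp.2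
      apply mul_le_mul_of_nonneg_right _ (sg_nonneg _)
      rw [hc]
      linarith
    calc C1 * Real.exp (C1 * ∑ q ∈ E ×ˢ E, sg (det σ q.1 q.2 z).natAbs) * (X / Real.log X ^ r) =
        C1 * (X / Real.log X ^ r) * Real.exp (C1 * ∑ q ∈ E ×ˢ E, sg (det σ q.1 q.2 z).natAbs) := by ring
      _ ≤ _ := by
        apply mul_le_mul_of_nonneg_left _ (by positivity)
        linarith
  have hsum1 : ∑ z ∈ Box, (1 + ∑ q ∈ E ×ˢ E, Real.exp (c * sg (det σ q.1 q.2 z).natAbs)) ≤
      (1 + (E ×ˢ E).card * C2) * (M : ℝ) ^ D := by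
    rw [sum_add_distrib, sum_const, nsmul_eq_mul, mul_one, sum_comm]
    have h5 : (Box.card : ℝ) = (M : ℝ) ^ D := card_boxV M
    rw [h5]
    have h6 : ∀ q ∈ E ×ˢ E, ∑ z ∈ Box, Real.exp (c * sg (det σ q.1 q.2 z).natAbs) ≤ C2 * (M : ℝ) ^ D := by
      intro q hq
      by_cases hqe : q.1 = q.2
      · have h7 : ∀ z ∈ Box, Real.exp (c * sg (det σ q.1 q.2 z).natAbs) = 1 := by
          intro z _
          have h8 : det σ q.1 q.2 z = 0 := by
            rw [hqe]
            unfold det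
            ring
          rw [h8]
          simp [sg]
        rw [sum_congr rfl h7, sum_const, nsmul_eq_mul, mul_one, h5]
        have : 0 ≤ (M : ℝ) ^ D := by positivity
        nlinarith
      · obtain ⟨m, α, hα, hαD, hup⟩ := det_update σ hE (mem_product.1 hq).1 (mem_product.1 hq).2 hqe
        apply hX2 V m (det σ q.1 q.2) α hα hαD hup
        intro z hz
        refine (det_bound σ q.1 q.2 M hM1 z hz).trans ?_
        apply mul_le_mul_of_nonneg_right _ hM0.le
        rw [hB]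
        exact single_le_sum (f := fun q : (V × V) × (V × V) => (D * (2 + |(σ q.1 : ℝ)| + |(σ q.2 : ℝ)|)))
          (fun i _ => by positivity) hq
    have h7 := sum_le_sum h6
    rw [sum_const, nsmul_eq_mul] at h7
    calc (M : ℝ) ^ D + ∑ q ∈ E ×ˢ E, ∑ z ∈ Box, Real.exp (c * sg (det σ q.1 q.2 z).natAbs) ≤
        (M : ℝ) ^ D + (E ×ˢ E).card * (C2 * (M : ℝ) ^ D) := by linarith
      _ = _ := by ring
  have hfib := fib E σ X
  rw [← hD, ← hM, ← hBox] at hfib
  have hlinX : ∀ z, (lin E σ X z : ℝ) ≤ X := by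
    intro z
    unfold lin
    have : ((Icc 1 X).filter (fun n : ℕ => ∀ e ∈ E,
        (((dir V e.2 : ℤ) - dir V e.1) * (n : ℤ) + ((z e.2 : ℤ) - z e.1 + σ e)).toNat.Prime)).card ≤ X := by
      refine (card_filter_le _ _).trans ?_
      rw [Nat.card_Icc, Nat.add_sub_cancel]
    exact_mod_cast this
  have hall : ∀ z ∈ Box, (lin E σ X z : ℝ) ≤
      C1 * (X / Real.log X ^ r) * (1 + ∑ q ∈ E ×ˢ E, Real.exp (c * sg (det σ q.1 q.2 z).natAbs)) +
        (if z ∈ Deg then (X : ℝ) else 0) := by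
    intro z hz
    by_cases hzd : z ∈ Deg
    · rw [if_pos hzd]
      have h5 := hlinX z
      have h6 : 0 ≤ C1 * (X / Real.log X ^ r) * (1 + ∑ q ∈ E ×ˢ E, Real.exp (c * sg (det σ q.1 q.2 z).natAbs)) := by
        have : 0 ≤ ∑ q ∈ E ×ˢ E, Real.exp (c * sg (det σ q.1 q.2 z).natAbs) := sum_nonneg fun _ _ => (Real.exp_pos _).le
        positivity
      linarith
    · rw [if_neg hzd, add_zero]
      exact hgood z hz hzd
  have htot : (X : ℝ) * ((sol E σ X).card : ℝ) ≤
      C1 * (X / Real.log X ^ r) * ((1 + (E ×ˢ E).card * C2) * (M : ℝ) ^ D) + X * (Deg.card : ℝ) := by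
    refine hfib.trans ((sum_le_sum hall).trans ?_)
    rw [sum_add_distrib, ← mul_sum, ← sum_filter, sum_const, nsmul_eq_mul]
    have h5 : Box.filter (fun z => z ∈ Deg) = Deg := by
      ext z
      rw [mem_filter, hDeg, mem_filter]
      tauto
    rw [h5]
    have h6 := mul_le_mul_of_nonneg_left hsum1 (show 0 ≤ C1 * (X / Real.log X ^ r) by positivity)
    linarith
  have hMX : (X : ℝ) ≤ M := by
    rw [hMr]
    have : (0 : ℝ) ≤ D := Nat.cast_nonneg _
    nlinarith
  have hdeg2 : (X : ℝ) * (Deg.card : ℝ) ≤ (E ×ˢ E).card * (M : ℝ) ^ D :=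
    (mul_le_mul_of_nonneg_right hMX (Nat.cast_nonneg _)).trans hDegc
  -- conclusion
  have hXL : 1 ≤ (X : ℝ) / Real.log X ^ r := by
    rw [le_div_iff₀ (by positivity), one_mul]
    exact hX3
  have hMD : 0 ≤ (M : ℝ) ^ D := by positivity
  have h8 : (X : ℝ) * ((sol E σ X).card : ℝ) ≤
      (C1 * (1 + (E ×ˢ E).card * C2) + (E ×ˢ E).card) * (M : ℝ) ^ D * (X / Real.log X ^ r) := by
    have h9 : ((E ×ˢ E).card : ℝ) * (M : ℝ) ^ D ≤ (E ×ˢ E).card * (M : ℝ) ^ D * (X / Real.log X ^ r) :=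
      le_mul_of_one_le_right (by positivity) hXL
    calc (X : ℝ) * ((sol E σ X).card : ℝ) ≤ C1 * (X / Real.log X ^ r) * ((1 + (E ×ˢ E).card * C2) * (M : ℝ) ^ D) +
          (E ×ˢ E).card * (M : ℝ) ^ D * (X / Real.log X ^ r) := by linarith
      _ = _ := by ring
  have h10 : (X : ℝ) * ((sol E σ X).card : ℝ) ≤
      X * ((C1 * (1 + (E ×ˢ E).card * C2) + (E ×ˢ E).card) * (D + 1) ^ D * ((X : ℝ) ^ D / Real.log X ^ r)) := by
    refine h8.trans (le_of_eq ?_)
    rw [hMr, mul_pow]
    ring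
  exact le_of_mul_le_mul_left h10 hX0

end Pool.Agent.U288.SP
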